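import Pool.Agent.W424.DX3a

/-!
The surface is connected.
-/

set_option autoImplicit false

open scoped LinearAlgebra.Projectivization Topology ComplexConjugate
open Metric Set Filter

namespace Pool.Agent.W424.DX3

open W489.Dem Pool.Agent.W424.DX3a

/-- the base curve -/
def G : Set (Fin 3 → ℂ) := {s | s ≠ 0 ∧ ∑ i, s i ^ 4 = 0}

/-- the total space -/
def T : Set ((Fin 3 → ℂ) × ((Fin 2 → ℂ) × ℂ)) :=
  {q | q.1 ∈ G ∧ q.2.1 ≠ 0 ∧ q.2.2 ^ 4 = GG q.1 (q.2.1 0) (q.2.1 1)}

theorem G_connected (h : S_X3a) : IsConnected G := by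
  set C : MvPolynomial (Fin 2) ℂ := -(MvPolynomial.X 0 ^ 4 + MvPolynomial.X 1 ^ 4) with hC
  have hev : ∀ p : Fin 2 → ℂ, MvPolynomial.eval p C = -(p 0 ^ 4 + p 1 ^ 4) := by
    intro p; simp [hC]
  have hhom : C.IsHomogeneous 4 :=
    ((MvPolynomial.isHomogeneous_X_pow 0 4).add (MvPolynomial.isHomogeneous_X_pow 1 4)).neg
  have hne : C ≠ 0 := by
    intro h0
    have := hev ![1, 1]
    rw [h0] at this
    norm_num at this
  have h1 := h 4 4 C (by norm_num) (by norm_num) hhom hne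
  have h2 : G = (fun w : (Fin 2 → ℂ) × ℂ => (![w.1 0, w.1 1, w.2] : Fin 3 → ℂ)) ''
      {w | w.1 ≠ 0 ∧ w.2 ^ 4 = MvPolynomial.eval w.1 C} := by
    ext s
    constructor
    · rintro ⟨hs, hs4⟩
      rw [Fin.sum_univ_three] at hs4
      refine ⟨(![s 0, s 1], s 2), ⟨?_, ?_⟩, ?_⟩
      · intro h0
        have e0 : s 0 = 0 := by have := congrFun h0 0; simpa using this
        have e1 : s 1 = 0 := by have := congrFun h0 1; simpa using this
        have e2 : s 2 = 0 := by
          rw [e0, e1] at hs4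
          have : s 2 ^ 4 = 0 := by linear_combination hs4
          exact pow_eq_zero_iff (by norm_num) |>.1 this
        apply hs
        funext i
        fin_cases i
        · exact e0
        · exact e1
        · exact e2
      · rw [hev]
        simp only [Matrix.cons_val_zero, Matrix.cons_val_one]
        linear_combination hs4
      · funext i
        fin_cases i <;> simp
    · rintro ⟨⟨p, y⟩, ⟨hp, hy⟩, rfl⟩
      simp only at hp hy ⊢
      rw [hev] at hy
      refine ⟨?_, ?_⟩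
      · intro h0
        apply hp
        funext i
        fin_cases i
        · have := congrFun h0 0; simpa using this
        · have := congrFun h0 1; simpa using this
      · rw [Fin.sum_univ_three]
        simp
        linear_combination hy
  rw [h2]
  refine h1.image _ (Continuous.continuousOn ?_)
  refine continuous_pi fun i => ?_
  fin_cases i
  · simp; fun_prop
  · simp; fun_prop
  · simp; fun_prop

theorem fib_connected (h : S_X3a) {s : Fin 3 → ℂ} (hs : s ∈ G) :
    IsConnected {w : (Fin 2 → ℂ) × ℂ | w.1 ≠ 0 ∧ w.2 ^ 4 = GG s (w.1 0) (w.1 1)} := by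
  set C : MvPolynomial (Fin 2) ℂ := MvPolynomial.C (P0 s) *
    (MvPolynomial.X 0 ^ 4 - MvPolynomial.X 1 ^ 4) ^ 5 + MvPolynomial.C (P1 s) *
    (MvPolynomial.X 0 ^ 4 + MvPolynomial.X 1 ^ 4) ^ 5 with hC
  have hev : ∀ p : Fin 2 → ℂ, MvPolynomial.eval p C = GG s (p 0) (p 1) := by
    intro p; simp [hC, GG]
  have hhom : C.IsHomogeneous 20 := by
    have h1 : ((MvPolynomial.X 0 ^ 4 - MvPolynomial.X 1 ^ 4 : MvPolynomial (Fin 2) ℂ) ^ 5).IsHomogeneous 20 :=
      ((MvPolynomial.isHomogeneous_X_pow 0 4).sub (MvPolynomial.isHomogeneous_X_pow 1 4)).pow 5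
    have h2 : ((MvPolynomial.X 0 ^ 4 + MvPolynomial.X 1 ^ 4 : MvPolynomial (Fin 2) ℂ) ^ 5).IsHomogeneous 20 :=
      ((MvPolynomial.isHomogeneous_X_pow 0 4).add (MvPolynomial.isHomogeneous_X_pow 1 4)).pow 5
    exact (h1.C_mul _).add (h2.C_mul _)
  have hne : C ≠ 0 := by
    intro h0
    obtain ⟨u, hu⟩ : ∃ u : ℂ, u ^ 4 = -1 := IsAlgClosed.exists_pow_nat_eq _ (by norm_num)
    have e1 := hev ![1, 1]
    have e2 := hev ![1, u]
    rw [h0] at e1 e2
    simp [GG] at e1 e2
    rw [hu] at e2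
    norm_num at e1 e2
    simp only [P0, P1] at e1 e2
    have f1 : s 1 ^ 4 = 0 := by linear_combination 3 * e2 - e1
    have f0 : s 0 ^ 4 = 0 := by linear_combination e2 - 2 * f1
    have f2 : s 2 ^ 4 = 0 := by
      have := hs.2
      rw [Fin.sum_univ_three] at this
      linear_combination this - f0 - f1
    apply hs.1
    funext i
    fin_cases i
    · exact pow_eq_zero_iff (by norm_num) |>.1 f0
    · exact pow_eq_zero_iff (by norm_num) |>.1 f1
    · exact pow_eq_zero_iff (by norm_num) |>.1 f2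
  have h1 := h 4 20 C (by norm_num) (by norm_num) hhom hne
  simpa only [hev] using h1

theorem GG_cont (x z : ℂ) : Continuous fun s : Fin 3 → ℂ => GG s x z := by
  unfold GG P0 P1
  fun_prop

theorem T_preconnected (h : S_X3a) : IsPreconnected T := by
  rw [isPreconnected_iff_subset_of_disjoint]
  intro u v hu hv huv hdis
  have hfib := fun s hs => (fib_connected h (s := s) hs).isPreconnected
  -- a fibre that meets `u` is contained in `u`
  have hone : ∀ u v : Set ((Fin 3 → ℂ) × ((Fin 2 → ℂ) × ℂ)), IsOpen u → IsOpen v → T ⊆ u ∪ v →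
      T ∩ (u ∩ v) = ∅ → ∀ s w w', (s, w) ∈ T → (s, w) ∈ u → (s, w') ∈ T → (s, w') ∈ u := by
    intro u v hu hv huv hdis s w w' hw hwu hw'
    have hc : Continuous fun w : (Fin 2 → ℂ) × ℂ => (s, w) := by fun_prop
    have h1 := (isPreconnected_iff_subset_of_disjoint.1 (hfib s hw.1)) _ _ (hu.preimage hc)
      (hv.preimage hc) (fun w hw2 => huv (show (s, w) ∈ T from ⟨hw.1, hw2.1, hw2.2⟩)) (by
        rw [eq_empty_iff_forall_notMem]
        rintro w ⟨h2, h3, h4⟩
        have : (s, w) ∈ T ∩ (u ∩ v) := ⟨⟨hw.1, h2.1, h2.2⟩, h3, h4⟩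
        rw [hdis] at this
        exact this)
    rcases h1 with h1 | h1
    · exact h1 ⟨hw'.2.1, hw'.2.2⟩
    · exfalso
      have h2 : (s, w) ∈ v := h1 ⟨hw.2.1, hw.2.2⟩
      have : (s, w) ∈ T ∩ (u ∩ v) := ⟨hw, hwu, h2⟩
      rw [hdis] at this
      exact this
  -- the projections are relatively open
  have hopen : ∀ u : Set ((Fin 3 → ℂ) × ((Fin 2 → ℂ) × ℂ)), IsOpen u → ∀ s w, (s, w) ∈ T →
      (s, w) ∈ u → s ∈ interior ({s | ∃ w, (s, w) ∈ T ∧ (s, w) ∈ u} ∪ Gᶜ) := by
    intro u hu s w hw hwu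
    rw [mem_interior_iff_mem_nhds]
    obtain ⟨p, y⟩ := w
    have h1 : u ∈ 𝓝 (s, (p, y)) := hu.mem_nhds hwu
    rw [nhds_prod_eq, mem_prod_iff] at h1
    obtain ⟨U, hU, V, hV, hUV⟩ := h1
    rw [nhds_prod_eq, mem_prod_iff] at hV
    obtain ⟨V1, hV1, V2, hV2, hV12⟩ := hV
    have h2 : (fun z : ℂ => z ^ 4) '' V2 ∈ 𝓝 (y ^ 4) :=
      pow_open (by norm_num) y (image_mem_map hV2)
    have hy : y ^ 4 = GG s (p 0) (p 1) := hw.2.2
    rw [hy] at h2
    have h3 := (GG_cont (p 0) (p 1)).continuousAt.preimage_mem_nhds h2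
    filter_upwards [hU, h3] with s' h4 h5
    by_cases hG : s' ∈ G
    · left
      obtain ⟨y', hy', he⟩ := h5
      exact ⟨(p, y'), ⟨hG, hw.2.1, he⟩, hUV (mk_mem_prod h4 (hV12
        (mk_mem_prod (mem_of_mem_nhds hV1) hy')))⟩
    · right; exact hG
  have hG := (isPreconnected_iff_subset_of_disjoint.1 (G_connected h).isPreconnected)
    (interior ({s | ∃ w, (s, w) ∈ T ∧ (s, w) ∈ u} ∪ Gᶜ))
    (interior ({s | ∃ w, (s, w) ∈ T ∧ (s, w) ∈ v} ∪ Gᶜ)) isOpen_interior isOpen_interior
    (by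
      intro s hs
      obtain ⟨⟨p, y⟩, hp, hy⟩ := (fib_connected h hs).nonempty
      have hT : (s, (p, y)) ∈ T := ⟨hs, hp, hy⟩
      rcases huv hT with h1 | h1
      · exact Or.inl (hopen u hu s _ hT h1)
      · exact Or.inr (hopen v hv s _ hT h1))
    (by
      rw [eq_empty_iff_forall_notMem]
      rintro s ⟨hs, h1, h2⟩
      have h1' := interior_subset h1
      have h2' := interior_subset h2
      rcases h1' with ⟨w, hw, hwu⟩ | h1'
      · rcases h2' with ⟨w', hw', hwv⟩ | h2'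
        · have h3 := hone u v hu hv huv hdis s w w' hw hwu hw'
          have : (s, w') ∈ T ∩ (u ∩ v) := ⟨hw', h3, hwv⟩
          rw [hdis] at this
          exact this
        · exact h2' hs
      · exact h1' hs)
  rcases hG with hG | hG
  · left
    rintro ⟨s, w⟩ hw
    rcases interior_subset (hG hw.1) with ⟨w', hw', hwu⟩ | h1
    · exact hone u v hu hv huv hdis s w' w hw' hwu hw
    · exact absurd hw.1 h1
  · right
    rintro ⟨s, w⟩ hw
    rcases interior_subset (hG hw.1) with ⟨w', hw', hwu⟩ | h1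
    · exact hone v u hv hu (by rwa [union_comm]) (by rwa [inter_comm v u]) s w' w hw' hwu hw
    · exact absurd hw.1 h1

theorem main : S_X3 := by
  intro h
  have h1 : XC = (fun q : (Fin 3 → ℂ) × ((Fin 2 → ℂ) × ℂ) => mm q.1 (q.2.1 0) (q.2.1 1) q.2.2) '' T := by
    ext v
    constructor
    · rintro ⟨h0, s, x, z, y, hs, hy, rfl⟩
      obtain ⟨h2, h3⟩ := ne_of_mm_ne hy h0
      refine ⟨(s, (![x, z], y)), ⟨⟨h2, hs⟩, ?_, ?_⟩, ?_⟩
      · intro h4
        rcases h3 with h3 | h3
        · apply h3; have := congrFun h4 0; simpa using this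
        · apply h3; have := congrFun h4 1; simpa using this
      · simpa using hy
      · simp
    · rintro ⟨⟨s, p, y⟩, ⟨hs, hp, hy⟩, rfl⟩
      simp only at hs hp hy ⊢
      refine ⟨?_, s, p 0, p 1, y, hs.2, hy, rfl⟩
      have h2 : p 0 ≠ 0 ∨ p 1 ≠ 0 := by
        by_contra hcon
        push Not at hcon
        apply hp
        funext i
        fin_cases i
        · exact hcon.1
        · exact hcon.2
      obtain ⟨i, hi⟩ := mm_ne (y := y) hs.1 h2
      intro h3
      rw [h3] at hi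
      simp at hi
  have hcont : Continuous (fun q : (Fin 3 → ℂ) × ((Fin 2 → ℂ) × ℂ) =>
      mm q.1 (q.2.1 0) (q.2.1 1) q.2.2) := by
    refine continuous_pi fun j => ?_
    rcases j with _ | ⟨i, a⟩
    · simp only [mm]; fun_prop
    · simp only [mm]; fun_prop
  obtain ⟨s, hs⟩ := (G_connected h).nonempty
  obtain ⟨⟨p, y⟩, hp, hy⟩ := (fib_connected h hs).nonempty
  rw [h1]
  have hT : IsConnected T := ⟨⟨(s, (p, y)), hs, hp, hy⟩, T_preconnected h⟩
  exact hT.image _ hcont.continuousOn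

end Pool.Agent.W424.DX3
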