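import Pool.Agent.W489.Dem.Stubs

/-!
Cyclic covers of the projective line are connected.
-/

set_option autoImplicit false

open scoped LinearAlgebra.Projectivization Topology ComplexConjugate
open Metric Set Filter

namespace Pool.Agent.W424.DX3a

open W489.Dem

theorem hom_eval {C : MvPolynomial (Fin 2) ℂ} {D : ℕ} (hC : C.IsHomogeneous D) (w : ℂ)
    (p : Fin 2 → ℂ) : MvPolynomial.eval (w • p) C = w ^ D * MvPolynomial.eval p C := by
  rw [MvPolynomial.eval_eq, MvPolynomial.eval_eq, Finset.mul_sum]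
  refine Finset.sum_congr rfl fun d hd => ?_
  have h1 : Finsupp.weight 1 d = D := hC (MvPolynomial.mem_support_iff.1 hd)
  rw [Finsupp.weight_apply, Finsupp.sum] at h1
  simp only [Pi.one_apply, smul_eq_mul, mul_one] at h1
  have h2 : ∏ i ∈ d.support, (w • p) i ^ d i = w ^ D * ∏ i ∈ d.support, p i ^ d i := by
    simp only [Pi.smul_apply, smul_eq_mul, mul_pow]
    rw [Finset.prod_mul_distrib, Finset.prod_pow_eq_pow_sum, h1]
  rw [h2]; ring

/-- a binary form of positive degree has a nontrivial zero -/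
theorem exists_zero {C : MvPolynomial (Fin 2) ℂ} {D : ℕ} (hD : 1 ≤ D) (hC : C.IsHomogeneous D) :
    ∃ p : Fin 2 → ℂ, p ≠ 0 ∧ MvPolynomial.eval p C = 0 := by
  by_contra hcon
  push Not at hcon
  set F : Polynomial ℂ := MvPolynomial.aeval ![(1 : Polynomial ℂ), Polynomial.X] C with hF
  have hFe : ∀ u : ℂ, F.eval u = MvPolynomial.eval ![1, u] C := by
    intro u
    have h1 := MvPolynomial.comp_aeval_apply (f := ![(1 : Polynomial ℂ), Polynomial.X])
      (Polynomial.aeval (R := ℂ) u) C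
    rw [← MvPolynomial.aeval_eq_eval, hF, ← Polynomial.coe_aeval_eq_eval, h1]
    congr 2
    funext i
    fin_cases i <;> simp
  have hdeg : F.degree = 0 := by
    by_contra hne
    obtain ⟨u, hu⟩ := IsAlgClosed.exists_root F hne
    rw [Polynomial.IsRoot, hFe] at hu
    refine hcon ![1, u] ?_ hu
    intro h0
    have := congrFun h0 0
    simp at this
  have hconst : ∀ u : ℂ, MvPolynomial.eval ![1, u] C = F.coeff 0 := by
    intro u
    rw [← hFe, Polynomial.eq_C_of_degree_eq_zero hdeg]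
    simp
  have hw : ∀ w : ℂ, w ≠ 0 → MvPolynomial.eval ![w, 1] C = w ^ D * F.coeff 0 := by
    intro w hw
    rw [← hconst w⁻¹, ← hom_eval hC]
    congr 2
    funext i
    fin_cases i
    · simp
    · simp [hw]
  have hcont : Continuous fun w : ℂ => MvPolynomial.eval ![w, 1] C := by
    refine (MvPolynomial.continuous_eval C).comp ?_
    refine continuous_pi fun i => ?_
    fin_cases i
    · exact continuous_id
    · exact continuous_const
  have h1 : Tendsto (fun w : ℂ => MvPolynomial.eval ![w, 1] C) (𝓝[≠] 0)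
      (𝓝 (MvPolynomial.eval ![0, 1] C)) := (hcont.tendsto 0).mono_left nhdsWithin_le_nhds
  have h2 : Tendsto (fun w : ℂ => w ^ D * F.coeff 0) (𝓝[≠] 0) (𝓝 0) := by
    have : Continuous fun w : ℂ => w ^ D * F.coeff 0 := by fun_prop
    have h3 := (this.tendsto 0).mono_left (nhdsWithin_le_nhds (s := {0}ᶜ))
    simpa [zero_pow (by omega : D ≠ 0)] using h3
  have h3 : (fun w : ℂ => MvPolynomial.eval ![w, 1] C) =ᶠ[𝓝[≠] 0] fun w => w ^ D * F.coeff 0 := by
    filter_upwards [self_mem_nhdsWithin] with w hw'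
    exact hw w hw'
  have h4 := tendsto_nhds_unique (h1.congr' h3) h2
  refine hcon ![0, 1] ?_ h4
  intro h0
  have := congrFun h0 1
  simp at this

/-- the power map is open -/
theorem pow_open {n : ℕ} (hn : 1 ≤ n) (y : ℂ) : 𝓝 (y ^ n) ≤ map (fun z : ℂ => z ^ n) (𝓝 y) := by
  have han : AnalyticAt ℂ (fun z : ℂ => z ^ n) y := analyticAt_id.fun_pow n
  rcases han.eventually_constant_or_nhds_le_map_nhds with h | h
  · exfalso
    have h1 : {z : ℂ | z ^ n = y ^ n}.Infinite := infinite_of_mem_nhds y h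
    apply h1
    refine Set.Finite.subset (Polynomial.nthRoots n (y ^ n)).toFinset.finite_toSet ?_
    intro w hw
    simp only [Finset.mem_coe, Multiset.mem_toFinset]
    exact (Polynomial.mem_nthRoots (by omega)).2 hw
  · exact h

theorem main : S_X3a := by
  intro n D C hn hD hC _
  have hn0 : n ≠ 0 := by omega
  set E : Set ((Fin 2 → ℂ) × ℂ) := {w | w.1 ≠ 0 ∧ w.2 ^ n = MvPolynomial.eval w.1 C} with hE
  obtain ⟨p₀, hp₀, hCp₀⟩ := exists_zero hD hC
  have hcC : Continuous fun p : Fin 2 → ℂ => MvPolynomial.eval p C := MvPolynomial.continuous_eval C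
  refine ⟨⟨(p₀, 0), hp₀, by simp [hn0, hCp₀]⟩, ?_⟩
  rw [isPreconnected_closed_iff]
  intro t t' ht ht' hsub hne hne'
  by_contra hcon
  rw [not_nonempty_iff_eq_empty] at hcon
  have hdisj : ∀ w ∈ E, w ∈ t → w ∈ t' → False := by
    intro w h1 h2 h3
    have : w ∈ E ∩ (t ∩ t') := ⟨h1, h2, h3⟩
    rw [hcon] at this
    exact this
  -- the image of a clopen piece
  have key : ∀ t t' : Set ((Fin 2 → ℂ) × ℂ), IsClosed t → IsClosed t' → E ⊆ t ∪ t' →
      (E ∩ t).Nonempty → (∀ w ∈ E, w ∈ t → w ∈ t' → False) → (p₀, (0 : ℂ)) ∈ t := by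
    intro t t' ht ht' hsub hne hdisj
    set P : Set (Fin 2 → ℂ) := {p | ∃ y, (p, y) ∈ E ∩ t} with hP
    have hPopen : IsOpen P := by
      rw [isOpen_iff_mem_nhds]
      rintro p ⟨y, ⟨hpy1, hpy2⟩, hpy3⟩
      have hnt' : (p, y) ∉ t' := fun h => hdisj _ ⟨hpy1, hpy2⟩ hpy3 h
      have h1 : t'ᶜ ∈ 𝓝 (p, y) := ht'.isOpen_compl.mem_nhds hnt'
      rw [nhds_prod_eq, mem_prod_iff] at h1
      obtain ⟨U, hU, V, hV, hUV⟩ := h1
      have h2 : (fun z : ℂ => z ^ n) '' V ∈ 𝓝 (y ^ n) := pow_open hn y (image_mem_map hV)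
      have hpy2' : y ^ n = MvPolynomial.eval p C := hpy2
      rw [hpy2'] at h2
      have h3 := hcC.continuousAt.preimage_mem_nhds h2
      filter_upwards [hU, h3, isOpen_compl_singleton.mem_nhds hpy1] with q h4 h5 h6
      obtain ⟨y', hy', he⟩ := h5
      have hqE : (q, y') ∈ E := ⟨h6, he⟩
      refine ⟨y', hqE, ?_⟩
      rcases hsub hqE with h | h
      · exact h
      · exact absurd h (hUV (mk_mem_prod h4 hy'))
    have hPclosed : ∀ p, p ≠ 0 → p ∈ closure P → p ∈ P := by
      intro p hp hpc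
      obtain ⟨u, huP, hup⟩ := mem_closure_iff_seq_limit.1 hpc
      choose y hy using huP
      have h1 : Tendsto (fun k => MvPolynomial.eval (u k) C) atTop (𝓝 (MvPolynomial.eval p C)) :=
        (hcC.tendsto p).comp hup
      obtain ⟨M, hM⟩ := (Metric.isBounded_range_of_tendsto _ h1).exists_norm_le
      have hyb : ∀ k, y k ∈ closedBall (0 : ℂ) (max 1 M) := by
        intro k
        rw [mem_closedBall_zero_iff]
        rcases le_or_gt ‖y k‖ 1 with h2 | h2
        · exact h2.trans (le_max_left _ _)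
        · have h3 : ‖y k‖ ≤ ‖y k‖ ^ n := le_self_pow₀ h2.le hn0
          have h4 : (y k) ^ n = MvPolynomial.eval (u k) C := (hy k).1.2
          rw [← norm_pow, h4] at h3
          exact (h3.trans (hM _ ⟨k, rfl⟩)).trans (le_max_right _ _)
      obtain ⟨y₀, -, φ, hφ, hy₀⟩ := tendsto_subseq_of_bounded isBounded_closedBall hyb
      have h2 : Tendsto (fun k => (u (φ k), y (φ k))) atTop (𝓝 (p, y₀)) :=
        (hup.comp hφ.tendsto_atTop).prodMk_nhds hy₀
      have h3 : (p, y₀) ∈ t := ht.mem_of_tendsto h2 (Eventually.of_forall fun k => (hy (φ k)).2)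
      refine ⟨y₀, ⟨hp, ?_⟩, h3⟩
      have h4 : Tendsto (fun k => (y (φ k)) ^ n) atTop (𝓝 (y₀ ^ n)) := hy₀.pow n
      have h5 : (fun k => (y (φ k)) ^ n) = fun k => MvPolynomial.eval (u (φ k)) C := by
        funext k; exact (hy (φ k)).1.2
      rw [h5] at h4
      exact tendsto_nhds_unique h4 (h1.comp hφ.tendsto_atTop)
    have hB : IsPreconnected ({0}ᶜ : Set (Fin 2 → ℂ)) := by
      refine (isConnected_compl_singleton_of_one_lt_rank ?_ 0).isPreconnected
      rw [rank_real_of_complex]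
      simp
      norm_num
    have hsubP : ({0}ᶜ : Set (Fin 2 → ℂ)) ⊆ P := by
      have h1 : ({0}ᶜ : Set (Fin 2 → ℂ)) ⊆ P ∪ (closure P)ᶜ := by
        intro p hp
        by_cases h : p ∈ closure P
        · exact Or.inl (hPclosed p hp h)
        · exact Or.inr h
      refine hB.subset_left_of_subset_union hPopen isClosed_closure.isOpen_compl ?_ h1 ?_
      · exact disjoint_compl_right.mono_left subset_closure
      · obtain ⟨⟨p, y⟩, h2, h3⟩ := hne
        exact ⟨p, h2.1, y, h2, h3⟩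
    obtain ⟨y, ⟨-, h1⟩, h2⟩ := hsubP (show p₀ ∈ ({0}ᶜ : Set (Fin 2 → ℂ)) from hp₀)
    have h1' : y ^ n = MvPolynomial.eval p₀ C := h1
    rw [hCp₀] at h1'
    have hy0 : y = 0 := pow_eq_zero_iff hn0 |>.1 h1'
    rw [hy0] at h2
    exact h2
  have h1 := key t t' ht ht' hsub hne hdisj
  have h2 := key t' t ht' ht (by rwa [union_comm]) hne' (fun w h1 h2 h3 => hdisj w h1 h3 h2)
  exact hdisj (p₀, 0) ⟨hp₀, by simp [hn0, hCp₀]⟩ h1 h2

end Pool.Agent.W424.DX3a
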