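import Pool.Agent.W424.DBase

/-!
The curvature of the metric of the Fermat quartic.
-/

set_option autoImplicit false

open scoped LinearAlgebra.Projectivization Topology ComplexConjugate
open Metric Set Filter

namespace Pool.Agent.W424.DA2

open W489.Dem Pool.Agent.W424.Dem

/-- second derivative along a real line -/
theorem second_deriv {g : ℂ → Fin 3 → ℂ} {t₀ : ℂ} (hg : ∀ k, AnalyticAt ℂ (fun t => g t k) t₀)
    (hN : 0 < ∑ k, ‖g t₀ k‖ ^ 2) (v : ℂ) :
    deriv (deriv fun τ : ℝ => Real.log (∑ k, ‖g (t₀ + τ * v) k‖ ^ 2)) 0 =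
      ((∑ k, 2 * ((conj (g t₀ k) * (deriv (deriv fun t => g t k) t₀ * v ^ 2)).re +
        ‖deriv (fun t => g t k) t₀ * v‖ ^ 2)) * (∑ k, ‖g t₀ k‖ ^ 2) -
        (∑ k, 2 * (conj (g t₀ k) * (deriv (fun t => g t k) t₀ * v)).re) ^ 2) /
        (∑ k, ‖g t₀ k‖ ^ 2) ^ 2 := by
  have hline : ∀ τ : ℝ, HasDerivAt (fun τ : ℝ => t₀ + (τ : ℂ) * v) v τ := by
    intro τ
    have h1 : HasDerivAt (fun τ : ℝ => (τ : ℂ)) 1 τ := Complex.ofRealCLM.hasDerivAt
    simpa using (h1.mul_const v).const_add t₀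
  have hcl : Tendsto (fun τ : ℝ => t₀ + (τ : ℂ) * v) (𝓝 0) (𝓝 t₀) := by
    have := (hline 0).continuousAt.tendsto
    simpa using this
  have hcomp : ∀ {F : ℂ → ℂ} {τ : ℝ}, DifferentiableAt ℂ F (t₀ + τ * v) →
      HasDerivAt (fun τ : ℝ => F (t₀ + τ * v)) (deriv F (t₀ + τ * v) * v) τ := by
    intro F τ hF
    have h1 := (hF.hasDerivAt.hasFDerivAt.restrictScalars ℝ).comp_hasDerivAt τ (hline τ)
    have h2 : ((ContinuousLinearMap.toSpanSingleton ℂ (deriv F (t₀ + τ * v))).restrictScalars ℝ :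
        ℂ →L[ℝ] ℂ) v = deriv F (t₀ + τ * v) * v := by
      simp [mul_comm]
    rw [h2] at h1
    exact h1
  have hev : ∀ᶠ τ : ℝ in 𝓝 0, ∀ k, AnalyticAt ℂ (fun t => g t k) (t₀ + τ * v) :=
    eventually_all.2 fun k => hcl.eventually (hg k).eventually_analyticAt
  set A : ℝ → ℝ := fun τ => ∑ k, ‖g (t₀ + τ * v) k‖ ^ 2 with hA
  set A1 : ℝ → ℝ := fun τ => ∑ k, 2 * inner ℝ (g (t₀ + τ * v) k)
    (deriv (fun t => g t k) (t₀ + τ * v) * v) with hA1
  have hAd : ∀ᶠ τ : ℝ in 𝓝 0, HasDerivAt A (A1 τ) τ := by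
    filter_upwards [hev] with τ hτ
    refine HasDerivAt.fun_sum fun k _ => ?_
    exact (hcomp (hτ k).differentiableAt).norm_sq
  have hAc : ContinuousAt A 0 := (hAd.self_of_nhds).continuousAt
  have hA0 : A 0 = ∑ k, ‖g t₀ k‖ ^ 2 := by simp [hA]
  have hApos : ∀ᶠ τ : ℝ in 𝓝 0, 0 < A τ := by
    apply hAc.eventually (lt_mem_nhds _)
    rw [hA0]; exact hN
  have hlog : deriv (fun τ : ℝ => Real.log (A τ)) =ᶠ[𝓝 0] fun τ => A1 τ / A τ := by
    filter_upwards [hAd, hApos] with τ h1 h2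
    exact (h1.log h2.ne').deriv
  have hA1d : HasDerivAt A1 (∑ k, 2 * (inner ℝ (g t₀ k) (deriv (deriv fun t => g t k) t₀ * v * v) +
      inner ℝ (deriv (fun t => g t k) t₀ * v) (deriv (fun t => g t k) t₀ * v))) 0 := by
    have e0 : t₀ + ((0 : ℝ) : ℂ) * v = t₀ := by simp
    refine HasDerivAt.fun_sum fun k _ => ?_
    have h1 := hcomp (F := fun t => g t k) (τ := 0) (by rw [e0]; exact (hg k).differentiableAt)
    have h2 := hcomp (F := deriv fun t => g t k) (τ := 0) (by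
      rw [e0]; exact (hg k).deriv.differentiableAt)
    have h3 := (h1.inner ℝ (h2.mul_const v)).const_mul 2
    simpa [e0] using h3
  have h4 : deriv (deriv fun τ : ℝ => Real.log (A τ)) 0 = deriv (fun τ => A1 τ / A τ) 0 :=
    hlog.deriv_eq
  have h5 := (hA1d.div (hAd.self_of_nhds) (by rw [hA0]; exact hN.ne')).deriv
  have h6 : deriv (fun τ => A1 τ / A τ) 0 = _ := h5
  change deriv (deriv fun τ : ℝ => Real.log (A τ)) 0 = _
  rw [h4, h6, hA0]
  congr 1
  congr 1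
  · congr 1
    refine Finset.sum_congr rfl fun k _ => ?_
    rw [real_inner_self_eq_norm_sq, Complex.inner]
    ring_nf
  · rw [sq, hA1]
    simp only [Complex.inner, Complex.ofReal_zero, zero_mul, add_zero]
    simp only [mul_comm (conj _)]

/-- the Laplacian of the logarithm of a sum of squares of holomorphic functions -/
theorem lap_log {g : ℂ → Fin 3 → ℂ} {t₀ : ℂ} (hg : ∀ k, AnalyticAt ℂ (fun t => g t k) t₀)
    (hN : 0 < ∑ k, ‖g t₀ k‖ ^ 2) :
    lap (fun t => Real.log (∑ k, ‖g t k‖ ^ 2)) t₀ =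
      4 * (‖g t₀ 0 * deriv (fun t => g t 1) t₀ - g t₀ 1 * deriv (fun t => g t 0) t₀‖ ^ 2 +
        ‖g t₀ 1 * deriv (fun t => g t 2) t₀ - g t₀ 2 * deriv (fun t => g t 1) t₀‖ ^ 2 +
        ‖g t₀ 2 * deriv (fun t => g t 0) t₀ - g t₀ 0 * deriv (fun t => g t 2) t₀‖ ^ 2) /
        (∑ k, ‖g t₀ k‖ ^ 2) ^ 2 := by
  have h1 := second_deriv hg hN 1
  have hI := second_deriv hg hN Complex.I
  unfold lap
  simp only [mul_one] at h1
  rw [h1, hI, ← add_div]
  congr 1
  simp only [Fin.sum_univ_three]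
  generalize g t₀ 0 = a
  generalize g t₀ 1 = b
  generalize g t₀ 2 = c
  generalize deriv (fun t => g t 0) t₀ = a'
  generalize deriv (fun t => g t 1) t₀ = b'
  generalize deriv (fun t => g t 2) t₀ = c'
  generalize deriv (deriv fun t => g t 0) t₀ = a''
  generalize deriv (deriv fun t => g t 1) t₀ = b''
  generalize deriv (deriv fun t => g t 2) t₀ = c''
  simp only [← Complex.normSq_eq_norm_sq, Complex.normSq_apply, Complex.sub_re, Complex.sub_im,
    Complex.mul_re, Complex.mul_im, Complex.conj_re, Complex.conj_im, Complex.I_re, Complex.I_im,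
    Complex.I_sq, Complex.neg_re, Complex.neg_im, Complex.one_re, Complex.one_im, one_pow]
  ring

theorem lap_congr {φ ψ : ℂ → ℝ} {t : ℂ} (h : φ =ᶠ[𝓝 t] ψ) : lap φ t = lap ψ t := by
  unfold lap
  have h1 : (fun τ : ℝ => φ (t + τ)) =ᶠ[𝓝 0] fun τ : ℝ => ψ (t + τ) := by
    have hc : Tendsto (fun τ : ℝ => t + (τ : ℂ)) (𝓝 0) (𝓝 t) := by
      have : Continuous fun τ : ℝ => t + (τ : ℂ) := by fun_prop
      simpa using this.tendsto 0
    exact hc.eventually h
  have h2 : (fun τ : ℝ => φ (t + τ * Complex.I)) =ᶠ[𝓝 0] fun τ : ℝ => ψ (t + τ * Complex.I) := by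
    have hc : Tendsto (fun τ : ℝ => t + (τ : ℂ) * Complex.I) (𝓝 0) (𝓝 t) := by
      have : Continuous fun τ : ℝ => t + (τ : ℂ) * Complex.I := by fun_prop
      simpa using this.tendsto 0
    exact hc.eventually h
  rw [h1.deriv.deriv_eq, h2.deriv.deriv_eq]

/-- the Wronskians are a common multiple of the cubes -/
theorem wronskian {a b c a' b' c' : ℂ} (h1 : a ^ 4 + b ^ 4 + c ^ 4 = 0)
    (h2 : a ^ 3 * a' + b ^ 3 * b' + c ^ 3 * c' = 0) :
    (c * a' - a * c') * a ^ 3 = (b * c' - c * b') * b ^ 3 ∧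
    (a * b' - b * a') * a ^ 3 = (b * c' - c * b') * c ^ 3 ∧
    (a * b' - b * a') * b ^ 3 = (c * a' - a * c') * c ^ 3 :=
  ⟨by linear_combination c * h2 - c' * h1, by linear_combination b' * h1 - b * h2,
    by linear_combination a * h2 - a' * h1⟩

theorem main : S_A2 := by
  intro W s hW hs hsF t₀ ht₀
  have han : ∀ k, ∀ t ∈ W, AnalyticAt ℂ (fun t => s t k) t := by
    intro k t ht
    have : DifferentiableOn ℂ (fun t => s t k) W := fun u hu =>
      (differentiableWithinAt_pi.1 (hs u hu)) k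
    exact this.analyticAt (hW.mem_nhds ht)
  have hF1 : ∀ t ∈ W, s t 0 ^ 4 + s t 1 ^ 4 + s t 2 ^ 4 = 0 := by
    intro t ht
    have := (hsF t ht).2
    rwa [Fin.sum_univ_three] at this
  have hF2 : ∀ t ∈ W, s t 0 ^ 3 * deriv (fun t => s t 0) t + s t 1 ^ 3 * deriv (fun t => s t 1) t +
      s t 2 ^ 3 * deriv (fun t => s t 2) t = 0 := by
    intro t ht
    have h1 := ((((han 0 t ht).differentiableAt.hasDerivAt).fun_pow 4).add
      (((han 1 t ht).differentiableAt.hasDerivAt).fun_pow 4)).add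
      (((han 2 t ht).differentiableAt.hasDerivAt).fun_pow 4)
    have h2 : (((fun t => s t 0 ^ 4) + (fun t => s t 1 ^ 4)) + (fun t => s t 2 ^ 4)) =ᶠ[𝓝 t]
        fun _ => 0 := by
      filter_upwards [hW.mem_nhds ht] with u hu
      simp only [Pi.add_apply]
      exact hF1 u hu
    have h3 := h1.deriv
    rw [h2.deriv_eq, deriv_const] at h3
    norm_num at h3
    linear_combination (-1 / 4 : ℂ) * h3
  -- the local function
  have hloc : ∃ h : ℂ → ℂ, AnalyticAt ℂ h t₀ ∧ ∀ᶠ t in 𝓝 t₀,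
      s t 0 * deriv (fun t => s t 1) t - s t 1 * deriv (fun t => s t 0) t = h t * s t 2 ^ 3 ∧
      s t 1 * deriv (fun t => s t 2) t - s t 2 * deriv (fun t => s t 1) t = h t * s t 0 ^ 3 ∧
      s t 2 * deriv (fun t => s t 0) t - s t 0 * deriv (fun t => s t 2) t = h t * s t 1 ^ 3 := by
    obtain ⟨k, hk⟩ := Function.ne_iff.1 (hsF t₀ ht₀).1
    have hk' : s t₀ k ≠ 0 := hk
    have hkev : ∀ᶠ t in 𝓝 t₀, s t k ≠ 0 ∧ t ∈ W := by
      filter_upwards [(han k t₀ ht₀).continuousAt.eventually_ne hk', hW.mem_nhds ht₀] with t h1 h2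
        using ⟨h1, h2⟩
    have hA : ∀ i j : Fin 3, AnalyticAt ℂ (fun t => s t i * deriv (fun t => s t j) t -
        s t j * deriv (fun t => s t i) t) t₀ := fun i j =>
      ((han i t₀ ht₀).mul (han j t₀ ht₀).deriv).sub ((han j t₀ ht₀).mul (han i t₀ ht₀).deriv)
    have hp3 : AnalyticAt ℂ (fun t => s t k ^ 3) t₀ := (han k t₀ ht₀).fun_pow 3
    fin_cases k
    · refine ⟨fun t => (s t 1 * deriv (fun t => s t 2) t - s t 2 * deriv (fun t => s t 1) t) /
        s t 0 ^ 3, (hA 1 2).div hp3 (pow_ne_zero 3 hk'), ?_⟩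
      filter_upwards [hkev] with t ⟨h1, h2⟩
      obtain ⟨g1, g2, g3⟩ := wronskian (hF1 t h2) (hF2 t h2)
      have h1' : s t 0 ^ 3 ≠ 0 := pow_ne_zero 3 h1
      refine ⟨?_, ?_, ?_⟩
      · rw [div_mul_eq_mul_div, eq_div_iff h1']; exact g2
      · rw [div_mul_cancel₀ _ h1']
      · rw [div_mul_eq_mul_div, eq_div_iff h1']; exact g1
    · refine ⟨fun t => (s t 2 * deriv (fun t => s t 0) t - s t 0 * deriv (fun t => s t 2) t) /
        s t 1 ^ 3, (hA 2 0).div hp3 (pow_ne_zero 3 hk'), ?_⟩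
      filter_upwards [hkev] with t ⟨h1, h2⟩
      obtain ⟨g1, g2, g3⟩ := wronskian (hF1 t h2) (hF2 t h2)
      have h1' : s t 1 ^ 3 ≠ 0 := pow_ne_zero 3 h1
      refine ⟨?_, ?_, ?_⟩
      · rw [div_mul_eq_mul_div, eq_div_iff h1']; exact g3
      · rw [div_mul_eq_mul_div, eq_div_iff h1']; exact g1.symm
      · rw [div_mul_cancel₀ _ h1']
    · refine ⟨fun t => (s t 0 * deriv (fun t => s t 1) t - s t 1 * deriv (fun t => s t 0) t) /
        s t 2 ^ 3, (hA 0 1).div hp3 (pow_ne_zero 3 hk'), ?_⟩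
      filter_upwards [hkev] with t ⟨h1, h2⟩
      obtain ⟨g1, g2, g3⟩ := wronskian (hF1 t h2) (hF2 t h2)
      have h1' : s t 2 ^ 3 ≠ 0 := pow_ne_zero 3 h1
      refine ⟨?_, ?_, ?_⟩
      · rw [div_mul_cancel₀ _ h1']
      · rw [div_mul_eq_mul_div, eq_div_iff h1']; exact g2.symm
      · rw [div_mul_eq_mul_div, eq_div_iff h1']; exact g3.symm
  obtain ⟨h, hh, hrel⟩ := hloc
  obtain ⟨r2, hr2⟩ : ∃ r : ℂ, r ^ 2 = 2 := IsAlgClosed.exists_pow_nat_eq 2 (by norm_num)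
  have hr2n : ‖r2‖ ^ 2 = 2 := by rw [← norm_pow, hr2]; simp
  set g : ℂ → Fin 3 → ℂ := fun t k => r2 * h t * s t k with hg
  have hga : ∀ k, AnalyticAt ℂ (fun t => g t k) t₀ := fun k =>
    (analyticAt_const.mul hh).mul (han k t₀ ht₀)
  have hgn : ∀ t, ∑ k, ‖g t k‖ ^ 2 = 2 * ‖h t‖ ^ 2 * ∑ k, ‖s t k‖ ^ 2 := by
    intro t
    rw [Finset.mul_sum]
    refine Finset.sum_congr rfl fun k _ => ?_
    simp only [hg, norm_mul, mul_pow, hr2n]
  have hE : E4 s =ᶠ[𝓝 t₀] fun t => ∑ k, ‖g t k‖ ^ 2 := by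
    filter_upwards [hrel, hW.mem_nhds ht₀] with t ⟨h1, h2, h3⟩ ht
    rw [hgn]
    have h6 : 0 < ∑ k, ‖s t k‖ ^ 6 := by
      obtain ⟨k, hk⟩ := Function.ne_iff.1 (hsF t ht).1
      have hk' : 0 < ‖s t k‖ := norm_pos_iff.2 hk
      exact Finset.sum_pos' (fun _ _ => by positivity) ⟨k, Finset.mem_univ k, by positivity⟩
    unfold E4
    rw [div_eq_iff h6.ne']
    have e01 := congrArg (fun z => ‖z‖ ^ 2) h1
    have e12 := congrArg (fun z => ‖z‖ ^ 2) h2
    have e20 := congrArg (fun z => ‖z‖ ^ 2) h3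
    simp only [norm_mul, norm_pow, mul_pow] at e01 e12 e20
    have e10 : ‖s t 1 * deriv (fun t => s t 0) t - s t 0 * deriv (fun t => s t 1) t‖ =
      ‖s t 0 * deriv (fun t => s t 1) t - s t 1 * deriv (fun t => s t 0) t‖ := norm_sub_rev _ _
    have e21 : ‖s t 2 * deriv (fun t => s t 1) t - s t 1 * deriv (fun t => s t 2) t‖ =
      ‖s t 1 * deriv (fun t => s t 2) t - s t 2 * deriv (fun t => s t 1) t‖ := norm_sub_rev _ _
    have e02 : ‖s t 0 * deriv (fun t => s t 2) t - s t 2 * deriv (fun t => s t 0) t‖ =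
      ‖s t 2 * deriv (fun t => s t 0) t - s t 0 * deriv (fun t => s t 2) t‖ := norm_sub_rev _ _
    simp only [Fin.sum_univ_three]
    rw [e10, e21, e02, e01, e12, e20]
    simp only [sub_self, norm_zero]
    ring
  have hcont : ContinuousAt (fun t => ∑ k, ‖g t k‖ ^ 2) t₀ :=
    tendsto_finsetSum _ fun k _ => ((hga k).continuousAt.norm).pow 2
  refine ⟨hcont.congr hE.symm, fun hne => ?_⟩
  rw [hE.self_of_nhds] at hne
  have hpos : 0 < ∑ k, ‖g t₀ k‖ ^ 2 := lt_of_le_of_ne (by positivity) (Ne.symm hne)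
  have hlogev : (fun t => Real.log (E4 s t)) =ᶠ[𝓝 t₀] fun t => Real.log (∑ k, ‖g t k‖ ^ 2) := by
    filter_upwards [hE] with t ht
    rw [ht]
  constructor
  · refine ContDiffAt.congr_of_eventuallyEq ?_ hlogev
    refine ContDiffAt.log ?_ hne
    refine ContDiffAt.sum fun k _ => ?_
    exact ((((hga k).contDiffAt).restrict_scalars ℝ).norm_sq ℝ)
  · rw [lap_congr hlogev, lap_log hga hpos, hE.self_of_nhds]
    obtain ⟨h1, h2, h3⟩ := hrel.self_of_nhds
    have hd : ∀ k, deriv (fun t => g t k) t₀ =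
        r2 * (deriv h t₀ * s t₀ k + h t₀ * deriv (fun t => s t k) t₀) := by
      intro k
      have e1 := ((hh.differentiableAt.hasDerivAt).fun_mul
        (han k t₀ ht₀).differentiableAt.hasDerivAt).const_mul r2
      have e2 : (fun t => g t k) = fun t => r2 * (h t * s t k) := by
        funext t; simp only [hg]; ring
      rw [e2]
      exact e1.deriv
    have hw : ∀ i j, g t₀ i * deriv (fun t => g t j) t₀ - g t₀ j * deriv (fun t => g t i) t₀ =
        2 * h t₀ ^ 2 * (s t₀ i * deriv (fun t => s t j) t₀ - s t₀ j * deriv (fun t => s t i) t₀) := by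
      intro i j
      rw [hd, hd]
      simp only [hg]
      linear_combination (h t₀ ^ 2 * (s t₀ i * deriv (fun t => s t j) t₀ -
        s t₀ j * deriv (fun t => s t i) t₀)) * hr2
    change 2 / 9 * (∑ k, ‖g t₀ k‖ ^ 2) ≤ _
    rw [hw, hw, hw, h1, h2, h3, hgn]
    rw [hgn] at hpos
    rw [le_div_iff₀ (pow_pos hpos 2)]
    simp only [norm_mul, norm_pow, mul_pow, Fin.sum_univ_three] at hpos ⊢
    have h2n : ‖(2 : ℂ)‖ = 2 := by simp
    rw [h2n]
    have hH : 0 < ‖h t₀‖ ^ 2 := by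
      rcases (by positivity : (0 : ℝ) ≤ ‖h t₀‖ ^ 2).eq_or_lt with h0 | h0
      · rw [← h0] at hpos; simp at hpos
      · exact h0
    have ha : (0 : ℝ) ≤ ‖s t₀ 0‖ ^ 2 := by positivity
    have hb : (0 : ℝ) ≤ ‖s t₀ 1‖ ^ 2 := by positivity
    have hc : (0 : ℝ) ≤ ‖s t₀ 2‖ ^ 2 := by positivity
    have e1 : ∀ x : ℝ, (x ^ 3) ^ 2 = (x ^ 2) ^ 3 := fun x => by ring
    simp only [e1]
    generalize ‖h t₀‖ ^ 2 = H at *
    generalize ‖s t₀ 0‖ ^ 2 = a at *
    generalize ‖s t₀ 1‖ ^ 2 = b at *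
    generalize ‖s t₀ 2‖ ^ 2 = c at *
    have hcub : (a + b + c) ^ 3 ≤ 9 * (a ^ 3 + b ^ 3 + c ^ 3) := by
      nlinarith [mul_nonneg (add_nonneg ha hb) (sq_nonneg (a - b)),
        mul_nonneg (add_nonneg hb hc) (sq_nonneg (b - c)),
        mul_nonneg (add_nonneg hc ha) (sq_nonneg (c - a)),
        mul_nonneg (add_nonneg (add_nonneg ha hb) hc) (sq_nonneg (a - b)),
        mul_nonneg (add_nonneg (add_nonneg ha hb) hc) (sq_nonneg (b - c)),
        mul_nonneg (add_nonneg (add_nonneg ha hb) hc) (sq_nonneg (c - a))]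
    have hH3 : 0 < H ^ 3 := by positivity
    have : H ^ 3 * (a + b + c) ^ 3 ≤ H ^ 3 * (9 * (a ^ 3 + b ^ 3 + c ^ 3)) :=
      mul_le_mul_of_nonneg_left hcub hH3.le
    nlinarith [this]

end Pool.Agent.W424.DA2
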