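import Pool.Agent.W489.Dem.Stubs

/-!
The metric depends only on the fourth powers.
-/

set_option autoImplicit false

open scoped LinearAlgebra.Projectivization Topology ComplexConjugate
open Metric Set Filter

namespace Pool.Agent.W424.DA3

open W489.Dem

/-- two analytic functions with the same fourth powers -/
theorem fourth {P Q : ℂ → ℂ} {t₀ : ℂ} (hP : AnalyticAt ℂ P t₀) (hQ : AnalyticAt ℂ Q t₀)
    (h : ∀ᶠ t in 𝓝 t₀, P t ^ 4 = Q t ^ 4) : ∃ ζ : ℂ, ζ ^ 4 = 1 ∧ ∀ᶠ t in 𝓝 t₀, P t = ζ * Q t := by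
  by_contra hcon
  push Not at hcon
  have hI4 : Complex.I ^ 4 = 1 := Complex.I_pow_four
  have key : ∀ ζ : ℂ, ζ ^ 4 = 1 → ∀ᶠ t in 𝓝[≠] t₀, P t - ζ * Q t ≠ 0 := by
    intro ζ hζ
    have han : AnalyticAt ℂ (fun t => P t - ζ * Q t) t₀ := hP.sub (analyticAt_const.mul hQ)
    rcases han.eventually_eq_zero_or_eventually_ne_zero with h1 | h1
    · exfalso
      apply hcon ζ hζ
      filter_upwards [h1] with t ht
      rw [not_not]
      linear_combination ht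
    · exact h1
  have h1 := key 1 (by norm_num)
  have h2 := key (-1) (by ring)
  have h3 := key Complex.I hI4
  have h4 := key (-Complex.I) (by rw [neg_pow, hI4]; ring)
  have h5 : ∀ᶠ t in 𝓝[≠] t₀, P t ^ 4 = Q t ^ 4 := h.filter_mono nhdsWithin_le_nhds
  obtain ⟨t, g1, g2, g3, g4, g5⟩ := (h1.and (h2.and (h3.and (h4.and h5)))).exists
  have h6 : (P t - 1 * Q t) * (P t - -1 * Q t) * (P t - Complex.I * Q t) *
      (P t - -Complex.I * Q t) = 0 := by
    have hI2 : Complex.I ^ 2 = -1 := Complex.I_sq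
    linear_combination g5 - (P t ^ 2 - Q t ^ 2) * Q t ^ 2 * hI2
  exact (mul_ne_zero (mul_ne_zero (mul_ne_zero g1 g2) g3) g4) h6

theorem wr {a b a' b' : ℂ → ℂ} {t₀ : ℂ} (ha : AnalyticAt ℂ a t₀) (hb : AnalyticAt ℂ b t₀)
    (ha' : AnalyticAt ℂ a' t₀) (hb' : AnalyticAt ℂ b' t₀) {N N' : ℂ → ℝ}
    (hN : ContinuousAt N t₀) (hN' : ContinuousAt N' t₀)
    (h : ∀ᶠ t in 𝓝 t₀, ∃ r : ℝ, 0 < r ∧ ∃ c : ℂ, c ≠ 0 ∧ a' t ^ 4 = c * a t ^ 4 ∧
      b' t ^ 4 = c * b t ^ 4 ∧ ‖a' t‖ = r * ‖a t‖ ∧ N' t = r ^ 2 * N t) :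
    ‖a' t₀ * deriv b' t₀ - b' t₀ * deriv a' t₀‖ * N t₀ =
      ‖a t₀ * deriv b t₀ - b t₀ * deriv a t₀‖ * N' t₀ := by
  have zero_case : ∀ {u v : ℂ → ℂ}, (∀ᶠ t in 𝓝 t₀, u t = 0) →
      (∀ᶠ t in 𝓝 t₀, ∃ c : ℂ, v t ^ 4 = c * u t ^ 4) →
      (u t₀ = 0 ∧ deriv u t₀ = 0) ∧ (v t₀ = 0 ∧ deriv v t₀ = 0) := by
    intro u v hu hv
    have h1 : ∀ᶠ t in 𝓝 t₀, v t = 0 := by
      filter_upwards [hu, hv] with t h1 ⟨c, h2⟩
      rw [h1] at h2
      have : v t ^ 4 = 0 := by rw [h2]; ring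
      exact pow_eq_zero_iff (by norm_num) |>.1 this
    have h2 : u =ᶠ[𝓝 t₀] fun _ => 0 := hu
    have h3 : v =ᶠ[𝓝 t₀] fun _ => 0 := h1
    refine ⟨⟨hu.self_of_nhds, ?_⟩, ⟨h1.self_of_nhds, ?_⟩⟩
    · rw [h2.deriv_eq]; exact deriv_const _ _
    · rw [h3.deriv_eq]; exact deriv_const _ _
  rcases ha.eventually_eq_zero_or_eventually_ne_zero with hz | hane
  · obtain ⟨⟨h1, h2⟩, h3, h4⟩ := zero_case (v := a') hz (by
      filter_upwards [h] with t ⟨r, _, c, _, h5, _⟩ using ⟨c, h5⟩)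
    rw [h1, h2, h3, h4]; simp
  rcases hb.eventually_eq_zero_or_eventually_ne_zero with hz | hbne
  · obtain ⟨⟨h1, h2⟩, h3, h4⟩ := zero_case (v := b') hz (by
      filter_upwards [h] with t ⟨r, _, c, _, _, h5, _⟩ using ⟨c, h5⟩)
    rw [h1, h2, h3, h4]; simp
  obtain ⟨ζ, hζ, hPQ⟩ := fourth (P := fun t => a' t * b t) (Q := fun t => a t * b' t)
    (ha'.mul hb) (ha.mul hb') (by
      filter_upwards [h] with t ⟨r, _, c, _, h5, h6, _⟩
      simp only [mul_pow, h5, h6]; ring)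
  have hζn : ‖ζ‖ = 1 := by
    have : ‖ζ‖ ^ 4 = 1 := by rw [← norm_pow, hζ, norm_one]
    exact (pow_eq_one_iff_of_nonneg (norm_nonneg _) (by norm_num)).1 this
  have hcont1 : ContinuousAt (fun t => ‖a' t * deriv b' t - b' t * deriv a' t‖ * N t) t₀ :=
    (((ha'.continuousAt.mul hb'.deriv.continuousAt).sub
      (hb'.continuousAt.mul ha'.deriv.continuousAt)).norm).mul hN
  have hcont2 : ContinuousAt (fun t => ‖a t * deriv b t - b t * deriv a t‖ * N' t) t₀ :=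
    (((ha.continuousAt.mul hb.deriv.continuousAt).sub
      (hb.continuousAt.mul ha.deriv.continuousAt)).norm).mul hN'
  have hev : (fun t => ‖a' t * deriv b' t - b' t * deriv a' t‖ * N t) =ᶠ[𝓝[≠] t₀]
      (fun t => ‖a t * deriv b t - b t * deriv a t‖ * N' t) := by
    have e1 : ∀ᶠ t in 𝓝[≠] t₀, ∀ᶠ s in 𝓝 t, a' s * b s = ζ * (a s * b' s) :=
      (eventually_eventually_nhds.2 hPQ).filter_mono nhdsWithin_le_nhds
    have e2 := h.filter_mono (nhdsWithin_le_nhds (s := {t₀}ᶜ))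
    have e3 : ∀ᶠ t in 𝓝[≠] t₀, AnalyticAt ℂ a t ∧ AnalyticAt ℂ b t ∧ AnalyticAt ℂ a' t ∧
        AnalyticAt ℂ b' t :=
      (ha.eventually_analyticAt.and (hb.eventually_analyticAt.and
        (ha'.eventually_analyticAt.and hb'.eventually_analyticAt))).filter_mono nhdsWithin_le_nhds
    filter_upwards [e1, e2, e3, hane, hbne] with t f1 ⟨r, hr, c, hc, f2, f3, f4, f5⟩
      ⟨g1, g2, g3, g4⟩ ga gb
    have d1 : deriv (fun s => a' s * b s) t = deriv (fun s => ζ * (a s * b' s)) t :=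
      Filter.EventuallyEq.deriv_eq f1
    have d2 : deriv (fun s => a' s * b s) t = deriv a' t * b t + a' t * deriv b t :=
      deriv_fun_mul g3.differentiableAt g2.differentiableAt
    have d3 : deriv (fun s => ζ * (a s * b' s)) t = ζ * (deriv a t * b' t + a t * deriv b' t) := by
      have d4 : DifferentiableAt ℂ (fun s => a s * b' s) t :=
        g1.differentiableAt.mul g4.differentiableAt
      rw [deriv_const_mul _ d4, deriv_fun_mul g1.differentiableAt g4.differentiableAt]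
    rw [d2, d3] at d1
    have f0 : a' t * b t = ζ * (a t * b' t) := f1.self_of_nhds
    have main : (a' t * deriv b' t - b' t * deriv a' t) * (ζ * a t ^ 2) =
        a' t ^ 2 * (a t * deriv b t - b t * deriv a t) := by
      have h0 : b t * ((a' t * deriv b' t - b' t * deriv a' t) * (ζ * a t ^ 2)) =
          b t * (a' t ^ 2 * (a t * deriv b t - b t * deriv a t)) := by
        generalize a t = A at *
        generalize b t = B at *
        generalize a' t = A' at *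
        generalize b' t = B' at *
        generalize deriv a t = dA at *
        generalize deriv b t = dB at *
        generalize deriv a' t = dA' at *
        generalize deriv b' t = dB' at *
        linear_combination (-(A' * A * B)) * d1 + (dA' * A * B + dA * A' * B) * f0
      exact mul_left_cancel₀ gb h0
    have main2 : ‖a' t * deriv b' t - b' t * deriv a' t‖ * ‖a t‖ ^ 2 =
        ‖a' t‖ ^ 2 * ‖a t * deriv b t - b t * deriv a t‖ := by
      have := congrArg norm main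
      simpa [norm_mul, norm_pow, hζn] using this
    have ga' : (0 : ℝ) < ‖a t‖ := norm_pos_iff.2 ga
    rw [f4] at main2
    have main3 : ‖a' t * deriv b' t - b' t * deriv a' t‖ =
        r ^ 2 * ‖a t * deriv b t - b t * deriv a t‖ := by
      have : ‖a t‖ ^ 2 ≠ 0 := by positivity
      apply mul_right_cancel₀ this
      rw [main2]; ring
    rw [main3, f5]; ring
  have := (hcont1.eventuallyEq_nhds_iff_eventuallyEq_nhdsNE hcont2).1 hev
  exact this.self_of_nhds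

theorem main : S_A3 := by
  intro W s s' hW hs hs' hss t₀ ht₀
  have hcomp : ∀ i, ∀ t ∈ W, AnalyticAt ℂ (fun t => s t i) t := by
    intro i t ht
    have : DifferentiableOn ℂ (fun t => s t i) W := fun u hu =>
      (differentiableWithinAt_pi.1 (hs u hu)) i
    exact this.analyticAt (hW.mem_nhds ht)
  have hcomp' : ∀ i, ∀ t ∈ W, AnalyticAt ℂ (fun t => s' t i) t := by
    intro i t ht
    have : DifferentiableOn ℂ (fun t => s' t i) W := fun u hu =>
      (differentiableWithinAt_pi.1 (hs' u hu)) i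
    exact this.analyticAt (hW.mem_nhds ht)
  -- the factor
  have hr : ∀ t ∈ W, ∃ r : ℝ, 0 < r ∧ ∃ c : ℂ, c ≠ 0 ∧ (∀ i, s' t i ^ 4 = c * s t i ^ 4) ∧
      ∀ i, ‖s' t i‖ = r * ‖s t i‖ := by
    intro t ht
    obtain ⟨h1, h2, c, hc⟩ := hss t ht
    have hc0 : c ≠ 0 := by
      rintro rfl
      apply h2
      funext i
      have := hc i
      rw [zero_mul] at this
      exact pow_eq_zero_iff (by norm_num) |>.1 this
    have hcn : 0 < ‖c‖ := norm_pos_iff.2 hc0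
    refine ⟨‖c‖ ^ ((4 : ℝ)⁻¹), by positivity, c, hc0, hc, fun i => ?_⟩
    have h3 : (‖c‖ ^ ((4 : ℝ)⁻¹)) ^ 4 = ‖c‖ := by
      rw [← Real.rpow_natCast, ← Real.rpow_mul hcn.le]; norm_num
    have h4 : ‖s' t i‖ ^ 4 = (‖c‖ ^ ((4 : ℝ)⁻¹) * ‖s t i‖) ^ 4 := by
      rw [mul_pow, h3, ← norm_pow, hc i, norm_mul, norm_pow]
    exact (pow_left_inj₀ (norm_nonneg _) (by positivity) (by norm_num)).1 h4
  have hkey : ∀ i j, ‖s' t₀ i * deriv (fun t => s' t j) t₀ - s' t₀ j * deriv (fun t => s' t i) t₀‖ *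
      (∑ k, ‖s t₀ k‖ ^ 2) =
      ‖s t₀ i * deriv (fun t => s t j) t₀ - s t₀ j * deriv (fun t => s t i) t₀‖ *
      (∑ k, ‖s' t₀ k‖ ^ 2) := by
    intro i j
    refine wr (N := fun t => ∑ k, ‖s t k‖ ^ 2) (N' := fun t => ∑ k, ‖s' t k‖ ^ 2)
      (hcomp i t₀ ht₀) (hcomp j t₀ ht₀) (hcomp' i t₀ ht₀) (hcomp' j t₀ ht₀) ?_ ?_ ?_
    · exact tendsto_finsetSum _ fun k _ => ((hcomp k t₀ ht₀).continuousAt.norm).pow 2
    · exact tendsto_finsetSum _ fun k _ => ((hcomp' k t₀ ht₀).continuousAt.norm).pow 2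
    · filter_upwards [hW.mem_nhds ht₀] with t ht
      obtain ⟨r, hr0, c, hc0, hc, hrn⟩ := hr t ht
      refine ⟨r, hr0, c, hc0, hc i, hc j, hrn i, ?_⟩
      rw [Finset.mul_sum]
      exact Finset.sum_congr rfl fun k _ => by rw [hrn k]; ring
  obtain ⟨r, hr0, c, hc0, hc, hrn⟩ := hr t₀ ht₀
  have hs0 : 0 < ∑ k, ‖s t₀ k‖ ^ 2 := nsq_pos (hss t₀ ht₀).1
  have hN' : ∑ k, ‖s' t₀ k‖ ^ 2 = r ^ 2 * ∑ k, ‖s t₀ k‖ ^ 2 := by
    rw [Finset.mul_sum]
    exact Finset.sum_congr rfl fun k _ => by rw [hrn k]; ring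
  have hN6 : ∑ k, ‖s' t₀ k‖ ^ 6 = r ^ 6 * ∑ k, ‖s t₀ k‖ ^ 6 := by
    rw [Finset.mul_sum]
    exact Finset.sum_congr rfl fun k _ => by rw [hrn k]; ring
  have hWr : ∀ i j, ‖s' t₀ i * deriv (fun t => s' t j) t₀ - s' t₀ j * deriv (fun t => s' t i) t₀‖ =
      r ^ 2 * ‖s t₀ i * deriv (fun t => s t j) t₀ - s t₀ j * deriv (fun t => s t i) t₀‖ := by
    intro i j
    apply mul_right_cancel₀ hs0.ne'
    rw [hkey i j, hN']; ring
  have hWs : ∑ i, ∑ j, ‖s' t₀ i * deriv (fun t => s' t j) t₀ -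
      s' t₀ j * deriv (fun t => s' t i) t₀‖ ^ 2 = r ^ 4 * ∑ i, ∑ j,
      ‖s t₀ i * deriv (fun t => s t j) t₀ - s t₀ j * deriv (fun t => s t i) t₀‖ ^ 2 := by
    simp only [Finset.mul_sum]
    refine Finset.sum_congr rfl fun i _ => Finset.sum_congr rfl fun j _ => ?_
    rw [hWr i j]; ring
  unfold E4
  rw [hWs, hN', hN6]
  rw [show ∀ x y z : ℝ, r ^ 4 * x * (r ^ 2 * y) / (r ^ 6 * z) = (r ^ 6 * (x * y)) / (r ^ 6 * z) by
    intro x y z; ring_nf]
  rw [mul_div_mul_left _ _ (by positivity)]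

end Pool.Agent.W424.DA3
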