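import Pool.Agent.W489.Dem.Stubs

/-!
Maps to the Fermat quartic are constant.
-/

set_option autoImplicit false

open scoped LinearAlgebra.Projectivization Topology ComplexConjugate
open Metric Set Filter

namespace Pool.Agent.W424.DA4

open W489.Dem

theorem lap_congr {φ ψ : ℂ → ℝ} {t : ℂ} (h : φ =ᶠ[𝓝 t] ψ) : lap φ t = lap ψ t := by
  unfold lap
  have h1 : (fun τ : ℝ => φ (t + τ)) =ᶠ[𝓝 0] fun τ : ℝ => ψ (t + τ) := by
    have hc : Tendsto (fun τ : ℝ => t + (τ : ℂ)) (𝓝 0) (𝓝 t) := by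
      have : Continuous fun τ : ℝ => t + (τ : ℂ) := by fun_prop
      simpa using this.tendsto 0
    exact hc.eventually h
  have h2 : (fun τ : ℝ => φ (t + τ * Complex.I)) =ᶠ[𝓝 0] fun τ : ℝ => ψ (t + τ * Complex.I) := by
    have hc : Tendsto (fun τ : ℝ => t + (τ : ℂ) * Complex.I) (𝓝 0) (𝓝 t) := by
      have : Continuous fun τ : ℝ => t + (τ : ℂ) * Complex.I := by fun_prop
      simpa using this.tendsto 0
    exact hc.eventually h
  rw [h1.deriv.deriv_eq, h2.deriv.deriv_eq]

theorem main : S_A1 → S_A2 → S_A3 → S_A4 := by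
  intro hA1 hA2 hA3 f hf
  choose W s hWo htW hsd hs using hf
  set H : ℂ → ℝ := fun t => E4 (s t) t with hH
  have hloc : ∀ t₀, ∀ t ∈ W t₀, H t = E4 (s t₀) t := by
    intro t₀ t ht
    have h1 := hA3 (W t₀ ∩ W t) (s t₀) (s t) ((hWo t₀).inter (hWo t))
      ((hsd t₀).mono inter_subset_left) ((hsd t).mono inter_subset_right) (by
        intro u hu
        obtain ⟨g1, -, g2, g3⟩ := hs t₀ u hu.1
        obtain ⟨g4, -, g5, g6⟩ := hs t u hu.2
        refine ⟨g1, g4, ?_⟩
        rw [g6, Projectivization.mk_eq_mk_iff'] at g3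
        obtain ⟨c, hc⟩ := g3
        refine ⟨c, fun i => ?_⟩
        have := congrFun hc i
        simpa using this.symm) t ⟨ht, htW t⟩
    exact h1.symm
  have hev : ∀ t₀, H =ᶠ[𝓝 t₀] E4 (s t₀) := by
    intro t₀
    filter_upwards [(hWo t₀).mem_nhds (htW t₀)] with t ht using hloc t₀ t ht
  have hA2' := fun t₀ => hA2 (W t₀) (s t₀) (hWo t₀) (hsd t₀)
    (fun t ht => ⟨(hs t₀ t ht).1, (hs t₀ t ht).2.1⟩) t₀ (htW t₀)
  have hH0 : ∀ t, H t = 0 := by
    apply hA1 H (2 / 9) (by norm_num)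
    · rw [continuous_iff_continuousAt]
      intro t₀
      exact (hA2' t₀).1.congr (hev t₀).symm
    · intro t
      simp only [hH, E4]
      positivity
    · intro t ht
      have h1 : E4 (s t) t ≠ 0 := ht
      obtain ⟨h2, h3⟩ := (hA2' t).2 h1
      have h4 : (fun t => Real.log (H t)) =ᶠ[𝓝 t] fun u => Real.log (E4 (s t) u) := by
        filter_upwards [hev t] with u hu
        rw [hu]
      refine ⟨h2.congr_of_eventuallyEq h4, ?_⟩
      rw [lap_congr h4]
      exact h3
  -- the Wronskians vanish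
  have hwr : ∀ t₀, ∀ t ∈ W t₀, ∀ i j, s t₀ t i * deriv (fun t => s t₀ t j) t =
      s t₀ t j * deriv (fun t => s t₀ t i) t := by
    intro t₀ t ht i j
    have h1 : E4 (s t₀) t = 0 := by rw [← hloc t₀ t ht, hH0 t]
    have hne := (hs t₀ t ht).1
    have h2 : 0 < ∑ k, ‖s t₀ t k‖ ^ 2 := nsq_pos hne
    have h3 : 0 < ∑ k, ‖s t₀ t k‖ ^ 6 := by
      obtain ⟨k, hk⟩ := Function.ne_iff.1 hne
      have hk' : 0 < ‖s t₀ t k‖ := norm_pos_iff.2 hk
      exact Finset.sum_pos' (fun _ _ => by positivity) ⟨k, Finset.mem_univ k, by positivity⟩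
    unfold E4 at h1
    rw [div_eq_zero_iff] at h1
    rcases h1 with h1 | h1
    · rcases mul_eq_zero.1 h1 with h1 | h1
      · have h4 := (Finset.sum_eq_zero_iff_of_nonneg (fun i _ => by positivity)).1 h1 i
          (Finset.mem_univ i)
        have h5 := (Finset.sum_eq_zero_iff_of_nonneg (fun i _ => by positivity)).1 h4 j
          (Finset.mem_univ j)
        have h6 := norm_eq_zero.1 (pow_eq_zero_iff (by norm_num) |>.1 h5)
        exact sub_eq_zero.1 h6
      · exact absurd h1 h2.ne'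
    · exact absurd h1 h3.ne'
  -- locally constant
  have hlc : IsLocallyConstant f := by
    rw [IsLocallyConstant.iff_eventually_eq]
    intro t₀
    obtain ⟨i, hi⟩ := Function.ne_iff.1 (hs t₀ t₀ (htW t₀)).1
    have hi' : s t₀ t₀ i ≠ 0 := hi
    have hd : ∀ j, ∀ t ∈ W t₀, DifferentiableAt ℂ (fun t => s t₀ t j) t := fun j t ht =>
      differentiableAt_pi.1 ((hsd t₀).differentiableAt ((hWo t₀).mem_nhds ht)) j
    have hn : ∀ᶠ t in 𝓝 t₀, t ∈ W t₀ ∧ s t₀ t i ≠ 0 := by
      filter_upwards [(hWo t₀).mem_nhds (htW t₀),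
        (hd i t₀ (htW t₀)).continuousAt.eventually_ne hi'] with t h1 h2 using ⟨h1, h2⟩
    obtain ⟨r, hr, hball⟩ := Metric.eventually_nhds_iff_ball.1 hn
    have hconst : ∀ j, ∀ t ∈ ball t₀ r, s t₀ t j / s t₀ t i = s t₀ t₀ j / s t₀ t₀ i := by
      intro j t ht
      have h1 : ∀ u ∈ ball t₀ r, HasDerivAt (fun u => s t₀ u j / s t₀ u i) 0 u := by
        intro u hu
        obtain ⟨hu1, hu2⟩ := hball u hu
        have h2 := (hd j u hu1).hasDerivAt.div (hd i u hu1).hasDerivAt hu2
        have h3 : deriv (fun t => s t₀ t j) u * s t₀ u i - s t₀ u j * deriv (fun t => s t₀ t i) u =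
            0 := by
          have := hwr t₀ u hu1 i j
          linear_combination this
        rw [h3, zero_div] at h2
        exact h2
      exact (convex_ball t₀ r).is_const_of_fderivWithin_eq_zero (𝕜 := ℂ)
        (f := fun u => s t₀ u j / s t₀ u i)
        (fun u hu => (h1 u hu).differentiableAt.differentiableWithinAt)
        (fun u hu => by
          rw [fderivWithin_of_isOpen isOpen_ball hu]
          rw [(h1 u hu).hasFDerivAt.fderiv]
          ext; simp) ht (mem_ball_self hr)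
    filter_upwards [ball_mem_nhds t₀ hr] with t ht
    obtain ⟨ht1, ht2⟩ := hball t ht
    obtain ⟨-, -, g2, g3⟩ := hs t₀ t ht1
    obtain ⟨-, -, g5, g6⟩ := hs t₀ t₀ (htW t₀)
    rw [g3, g6, Projectivization.mk_eq_mk_iff']
    refine ⟨(s t₀ t i / s t₀ t₀ i) ^ 4, ?_⟩
    funext j
    have h7 := hconst j t ht
    have h8 : s t₀ t j = s t₀ t i / s t₀ t₀ i * s t₀ t₀ j := by
      field_simp at h7 ⊢
      linear_combination h7
    simp only [Pi.smul_apply, smul_eq_mul]
    rw [h8]; ring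
  intro t
  exact hlc.apply_eq_of_preconnectedSpace t 0

end Pool.Agent.W424.DA4
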