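import Pool.Agent.W424.DBase

/-!
Brody's reparametrization.
-/

set_option autoImplicit false

open scoped LinearAlgebra.Projectivization Topology ComplexConjugate
open Metric Set Filter

namespace Pool.Agent.W424.DB1

open W489.Dem Pool.Agent.W424.Dem

/-- the Moebius map -/
noncomputable def mob (c t : ℂ) : ℂ := (t + c) / (1 + conj c * t)

theorem mob_den {c t : ℂ} (hc : ‖c‖ < 1) (ht : ‖t‖ < 1) : 1 + conj c * t ≠ 0 := by
  intro h
  have h1 : conj c * t = -1 := by linear_combination h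
  have h2 : ‖conj c * t‖ = 1 := by rw [h1]; simp
  rw [norm_mul, RCLike.norm_conj] at h2
  nlinarith [norm_nonneg c, norm_nonneg t]

theorem mob_deriv {c t : ℂ} (hc : ‖c‖ < 1) (ht : ‖t‖ < 1) :
    HasDerivAt (mob c) ((1 - conj c * c) / (1 + conj c * t) ^ 2) t := by
  have hd := mob_den hc ht
  have h1 : HasDerivAt (fun t : ℂ => t + c) 1 t := (hasDerivAt_id t).add_const c
  have h2 : HasDerivAt (fun t : ℂ => 1 + conj c * t) (conj c) t := by
    simpa using ((hasDerivAt_id t).const_mul (conj c)).const_add 1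
  have h3 := h1.div h2 hd
  have h4 : (1 * (1 + conj c * t) - (t + c) * conj c) = 1 - conj c * c := by ring
  rw [h4] at h3
  exact h3

theorem mob_sq {c t : ℂ} (hc : ‖c‖ < 1) (ht : ‖t‖ < 1) :
    1 - ‖mob c t‖ ^ 2 = (1 - ‖c‖ ^ 2) * (1 - ‖t‖ ^ 2) / ‖1 + conj c * t‖ ^ 2 := by
  have hd := mob_den hc ht
  have hd' : ‖1 + conj c * t‖ ^ 2 ≠ 0 := pow_ne_zero _ (norm_ne_zero_iff.2 hd)
  unfold mob
  rw [norm_div, div_pow, eq_div_iff hd', sub_mul, div_mul_cancel₀ _ hd', one_mul]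
  simp only [← Complex.normSq_eq_norm_sq, Complex.normSq_apply, Complex.add_re, Complex.add_im,
    Complex.mul_re, Complex.mul_im, Complex.one_re, Complex.one_im, Complex.conj_re,
    Complex.conj_im]
  ring

theorem mob_lt {c t : ℂ} (hc : ‖c‖ < 1) (ht : ‖t‖ < 1) : ‖mob c t‖ < 1 := by
  have h := mob_sq hc ht
  have hd : 0 < ‖1 + conj c * t‖ ^ 2 := by
    have := norm_pos_iff.2 (mob_den hc ht)
    positivity
  have h1 : 0 < (1 - ‖c‖ ^ 2) * (1 - ‖t‖ ^ 2) / ‖1 + conj c * t‖ ^ 2 := by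
    apply div_pos _ hd
    apply mul_pos <;> nlinarith [norm_nonneg c, norm_nonneg t]
  rw [← h] at h1
  nlinarith [norm_nonneg (mob c t)]

theorem mob_deriv_norm {c t : ℂ} (hc : ‖c‖ < 1) (ht : ‖t‖ < 1) :
    ‖(1 - conj c * c) / (1 + conj c * t) ^ 2‖ * (1 - ‖t‖ ^ 2) = 1 - ‖mob c t‖ ^ 2 := by
  rw [mob_sq hc ht, norm_div, norm_pow]
  have h1 : ‖1 - conj c * c‖ = 1 - ‖c‖ ^ 2 := by
    have : (1 - conj c * c : ℂ) = ((1 - ‖c‖ ^ 2 : ℝ) : ℂ) := by
      rw [mul_comm, Complex.mul_conj, Complex.normSq_eq_norm_sq]; push_cast; rfl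
    rw [this, Complex.norm_real, Real.norm_of_nonneg]
    nlinarith [norm_nonneg c]
  rw [h1]; ring

theorem main : S_B1 := by
  intro ι _ X f M a hM hf hX ha hdist
  set Ψ : ℂ → ι × ι → ℂ := fun t => PhiP (f t) with hΨ
  set e : ℂ → ℝ := fun t => ‖fderiv ℝ Ψ t‖ with he
  have hsm : ∀ t ∈ ball (0 : ℂ) 1, ContDiffAt ℝ (⊤ : ℕ∞) Ψ t := fun t ht => contDiffAt_of_holMap hf ht
  have hdiff : ∀ t ∈ ball (0 : ℂ) 1, DifferentiableAt ℝ Ψ t := fun t ht =>
    (hsm t ht).differentiableAt (by simp)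
  have hecont : ∀ t ∈ ball (0 : ℂ) 1, ContinuousAt e t := fun t ht =>
    (((hsm t ht).fderiv_right (m := 0) (by simp)).continuousAt).norm
  -- a point with a large derivative
  obtain ⟨t1, ht1, hM1⟩ : ∃ t1 ∈ ball (0 : ℂ) (1 / 2), M < e t1 := by
    by_contra hcon
    push Not at hcon
    have h := Convex.norm_image_sub_le_of_norm_fderiv_le (𝕜 := ℝ) (f := Ψ) (C := M)
      (s := ball (0 : ℂ) (1 / 2))
      (fun t ht => hdiff t (ball_subset_ball (by norm_num) ht)) hcon (convex_ball _ _)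
      (mem_ball_self (by norm_num)) ha
    rw [sub_zero] at h
    rw [dist_eq_norm] at hdist
    exact absurd h (not_le.2 hdist)
  -- maximum
  set u : ℂ → ℝ := fun t => 3 / 4 * e (3 / 4 * t) * (1 - ‖t‖ ^ 2) with hu
  have hball : ∀ t ∈ closedBall (0 : ℂ) 1, (3 / 4 * t : ℂ) ∈ ball (0 : ℂ) 1 := by
    intro t ht
    rw [mem_closedBall_zero_iff] at ht
    rw [mem_ball_zero_iff, norm_mul]
    norm_num
    linarith
  have hucont : ContinuousOn u (closedBall 0 1) := by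
    intro t ht
    apply ContinuousAt.continuousWithinAt
    have h1 : ContinuousAt (fun t : ℂ => e (3 / 4 * t)) t :=
      (hecont _ (hball t ht)).comp (f := fun t : ℂ => (3 / 4 * t : ℂ)) (by fun_prop)
    exact (continuousAt_const.mul h1).mul (by fun_prop)
  obtain ⟨t2, ht2, hmax⟩ := (isCompact_closedBall (0 : ℂ) 1).exists_isMaxOn
    ⟨0, by simp⟩ hucont
  set M2 := u t2 with hM2
  have ht1n : ‖t1‖ < 1 / 2 := mem_ball_zero_iff.1 ht1
  have hM2ge : 5 / 12 * M ≤ M2 := by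
    have hn : ‖(4 / 3 * t1 : ℂ)‖ = 4 / 3 * ‖t1‖ := by
      rw [norm_mul]; norm_num
    have hmem : (4 / 3 * t1 : ℂ) ∈ closedBall (0 : ℂ) 1 := by
      rw [mem_closedBall_zero_iff, hn]; linarith
    have h1 := hmax hmem
    simp only [mem_ofPred_eq, hu] at h1
    rw [show (3 / 4 * (4 / 3 * t1) : ℂ) = t1 by ring, hn] at h1
    have h2 : 5 / 9 ≤ 1 - (4 / 3 * ‖t1‖) ^ 2 := by nlinarith [norm_nonneg t1]
    have h3 : M * (5 / 9) ≤ e t1 * (1 - (4 / 3 * ‖t1‖) ^ 2) :=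
      mul_le_mul hM1.le h2 (by norm_num) (by positivity)
    calc 5 / 12 * M = 3 / 4 * (M * (5 / 9)) := by ring
      _ ≤ 3 / 4 * (e t1 * (1 - (4 / 3 * ‖t1‖) ^ 2)) := by linarith
      _ = 3 / 4 * e t1 * (1 - (4 / 3 * ‖t1‖) ^ 2) := by ring
      _ ≤ _ := h1
  have hM2pos : 0 < M2 := by linarith
  have ht2n : ‖t2‖ < 1 := by
    rcases lt_or_eq_of_le (mem_closedBall_zero_iff.1 ht2) with h | h
    · exact h
    · exfalso
      have : M2 = 0 := by simp [hM2, hu, h]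
      linarith
  -- the reparametrization
  have hw : ∀ t ∈ ball (0 : ℂ) (M / 5), ‖t / (M2 : ℂ)‖ ≤ 12 / 25 := by
    intro t ht
    rw [mem_ball_zero_iff] at ht
    rw [norm_div, Complex.norm_real, Real.norm_of_nonneg hM2pos.le, div_le_iff₀ hM2pos]
    linarith
  set φ : ℂ → ℂ := fun t => 3 / 4 * mob t2 (t / M2) with hφ
  have hφball : ∀ t ∈ ball (0 : ℂ) (M / 5), φ t ∈ ball (0 : ℂ) 1 := by
    intro t ht
    apply hball
    rw [mem_closedBall_zero_iff]
    exact (mob_lt ht2n (lt_of_le_of_lt (hw t ht) (by norm_num))).le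
  have hφd : ∀ t ∈ ball (0 : ℂ) (M / 5), HasDerivAt φ
      (3 / 4 * (((1 - conj t2 * t2) / (1 + conj t2 * (t / M2)) ^ 2) * (1 / M2))) t := by
    intro t ht
    have h1 := mob_deriv ht2n (lt_of_le_of_lt (hw t ht) (by norm_num))
    have h2 : HasDerivAt (fun t : ℂ => t / (M2 : ℂ)) (1 / M2) t := (hasDerivAt_id t).div_const _
    exact (HasDerivAt.comp t h1 h2).const_mul _
  have hkey : ∀ t ∈ ball (0 : ℂ) (M / 5), ‖fderiv ℝ (fun t => PhiP (f (φ t))) t‖ =
      u (mob t2 (t / M2)) / (M2 * (1 - ‖t / (M2 : ℂ)‖ ^ 2)) := by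
    intro t ht
    have hlt : ‖t / (M2 : ℂ)‖ < 1 := lt_of_le_of_lt (hw t ht) (by norm_num)
    have h1 := fderiv_comp_norm Ψ φ _ t (hdiff _ (hφball t ht)) (hφd t ht)
    have hpos : 0 < 1 - ‖t / (M2 : ℂ)‖ ^ 2 := by nlinarith [norm_nonneg (t / (M2 : ℂ))]
    rw [eq_div_iff (by positivity)]
    change ‖fderiv ℝ (fun t => Ψ (φ t)) t‖ * _ = _
    rw [h1, norm_mul, norm_mul, norm_div (1 : ℂ), Complex.norm_real, Real.norm_of_nonneg hM2pos.le]
    simp only [hu]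
    rw [← mob_deriv_norm ht2n hlt]
    have h34 : ‖(3 / 4 : ℂ)‖ = 3 / 4 := by norm_num
    rw [h34, norm_one]
    simp only [hφ, he]
    field_simp
  refine ⟨fun t => f (φ t), ?_, fun t ht => hX _ (hφball t ht), ?_, ?_⟩
  · exact HolMap.comp hf φ (fun t ht => (hφd t ht).differentiableAt.differentiableWithinAt)
      isOpen_ball hφball
  · rw [hkey 0 (mem_ball_self (by linarith))]
    simp only [zero_div, norm_zero]
    have : mob t2 0 = t2 := by simp [mob]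
    rw [this, ← hM2]
    field_simp
    norm_num
  · intro t ht
    rw [hkey t ht]
    have hlt : ‖t / (M2 : ℂ)‖ < 1 := lt_of_le_of_lt (hw t ht) (by norm_num)
    have hle : u (mob t2 (t / M2)) ≤ M2 := hmax (mem_closedBall_zero_iff.2 (mob_lt ht2n hlt).le)
    have hsq : 1 / 2 ≤ 1 - ‖t / (M2 : ℂ)‖ ^ 2 := by nlinarith [norm_nonneg (t / (M2 : ℂ)), hw t ht]
    rw [div_le_iff₀ (by positivity)]
    nlinarith

end Pool.Agent.W424.DB1
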