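import Pool.Agent.W424.DBase

/-!
The limit of the reparametrized discs.
-/

set_option autoImplicit false

open scoped LinearAlgebra.Projectivization Topology ComplexConjugate
open Metric Set Filter

namespace Pool.Agent.W424.DB2

open W489.Dem Pool.Agent.W424.Dem

variable {ι : Type} [Fintype ι]

/-- the affine lift with the coordinate `i` equal to one -/
noncomputable def lift (P : ι × ι → ℂ) (i : ι) : ι → ℂ := fun k => P (k, i) / P (i, i)

theorem lift_prj {v : ι → ℂ} {i : ι} (hi : prj v (i, i) ≠ 0) :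
    lift (prj v) i = (v i)⁻¹ • v ∧ v i ≠ 0 := by
  have hv0 : v i ≠ 0 := by
    intro h
    apply hi
    simp [prj, h]
  have hv : v ≠ 0 := by
    rintro rfl; exact hv0 rfl
  have hN : ((∑ k, ‖v k‖ ^ 2 : ℝ) : ℂ) ≠ 0 := by exact_mod_cast (nsq_pos hv).ne'
  have hc : conj (v i) ≠ 0 := by simpa using hv0
  refine ⟨?_, hv0⟩
  funext k
  simp only [lift, prj, Pi.smul_apply, smul_eq_mul]
  field_simp

theorem main : S_B2 := by
  intro ι _ X hX hg
  choose g hhol hgX hone htwo using hg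
  set Ψ : ℕ → ℂ → ι × ι → ℂ := fun n t => PhiP (g n t) with hΨ
  have hdiff : ∀ n : ℕ, ∀ t ∈ ball (0 : ℂ) n, DifferentiableAt ℝ (Ψ n) t := fun n t ht =>
    (contDiffAt_of_holMap (hhol n) ht).differentiableAt (by simp)
  have hlip : ∀ n : ℕ, ∀ s ∈ ball (0 : ℂ) n, ∀ t ∈ ball (0 : ℂ) n, ‖Ψ n s - Ψ n t‖ ≤ 2 * ‖s - t‖ := by
    intro n s hs t ht
    exact Convex.norm_image_sub_le_of_norm_fderiv_le (𝕜 := ℝ) (f := Ψ n) (C := 2)
      (s := ball (0 : ℂ) n) (hdiff n) (htwo n) (convex_ball _ _) ht hs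
  have hbd : ∀ n t, Ψ n t ∈ closedBall (0 : ι × ι → ℂ) 1 := by
    intro n t
    rw [mem_closedBall_zero_iff]
    exact prj_norm_le _
  -- the ultrafilter
  set U : Ultrafilter ℕ := hyperfilter ℕ with hU
  have hUtop : (U : Filter ℕ) ≤ atTop := by
    rw [hU, ← Nat.cofinite_eq_atTop]
    exact hyperfilter_le_cofinite
  have hlim : ∀ t, ∃ P : ι × ι → ℂ, Tendsto (fun n => Ψ n t) U (𝓝 P) := by
    intro t
    obtain ⟨P, -, hP⟩ := (isCompact_closedBall (0 : ι × ι → ℂ) 1).ultrafilter_le_nhds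
      (U.map fun n => Ψ n t) (by
        simp only [Ultrafilter.coe_map, le_principal_iff, mem_map]
        exact Eventually.of_forall fun n => hbd n t)
    exact ⟨P, hP⟩
  choose P hP using hlim
  have hbig : ∀ r : ℝ, ∀ᶠ n : ℕ in (U : Filter ℕ), r < n := fun r =>
    hUtop (tendsto_natCast_atTop_atTop.eventually_gt_atTop r)
  -- continuous convergence
  have hCC : ∀ t, Tendsto (fun q : ℕ × ℂ => Ψ q.1 q.2) ((U : Filter ℕ) ×ˢ 𝓝 t) (𝓝 (P t)) := by
    intro t
    rw [tendsto_iff_norm_sub_tendsto_zero]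
    have h1 : Tendsto (fun q : ℕ × ℂ => 2 * ‖q.2 - t‖ + ‖Ψ q.1 t - P t‖)
        ((U : Filter ℕ) ×ˢ 𝓝 t) (𝓝 0) := by
      have ha : Tendsto (fun q : ℕ × ℂ => 2 * ‖q.2 - t‖) ((U : Filter ℕ) ×ˢ 𝓝 t) (𝓝 0) := by
        have : Tendsto (fun s : ℂ => 2 * ‖s - t‖) (𝓝 t) (𝓝 (2 * ‖t - t‖)) := by
          apply Continuous.tendsto; fun_prop
        rw [sub_self, norm_zero, mul_zero] at this
        exact this.comp tendsto_snd
      have hb : Tendsto (fun q : ℕ × ℂ => ‖Ψ q.1 t - P t‖) ((U : Filter ℕ) ×ˢ 𝓝 t) (𝓝 0) := by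
        have := tendsto_iff_norm_sub_tendsto_zero.1 (hP t)
        exact this.comp tendsto_fst
      simpa using ha.add hb
    refine squeeze_zero' (Eventually.of_forall fun q => norm_nonneg _) ?_ h1
    have h2 : ∀ᶠ q : ℕ × ℂ in (U : Filter ℕ) ×ˢ 𝓝 t, ‖t‖ + 1 < q.1 :=
      tendsto_fst.eventually (hbig (‖t‖ + 1))
    have h3 : ∀ᶠ q : ℕ × ℂ in (U : Filter ℕ) ×ˢ 𝓝 t, q.2 ∈ ball t 1 :=
      tendsto_snd.eventually (ball_mem_nhds t one_pos)
    filter_upwards [h2, h3] with q hq1 hq2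
    have hs : q.2 ∈ ball (0 : ℂ) q.1 := by
      rw [mem_ball_zero_iff]
      rw [mem_ball, dist_eq_norm] at hq2
      calc ‖q.2‖ = ‖(q.2 - t) + t‖ := by ring_nf
        _ ≤ ‖q.2 - t‖ + ‖t‖ := norm_add_le _ _
        _ < _ := by linarith
    have ht : t ∈ ball (0 : ℂ) q.1 := by
      rw [mem_ball_zero_iff]; linarith
    calc ‖Ψ q.1 q.2 - P t‖ = ‖(Ψ q.1 q.2 - Ψ q.1 t) + (Ψ q.1 t - P t)‖ := by ring_nf
      _ ≤ ‖Ψ q.1 q.2 - Ψ q.1 t‖ + ‖Ψ q.1 t - P t‖ := norm_add_le _ _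
      _ ≤ _ := by linarith [hlip q.1 q.2 hs t ht]
  have hPlip : ∀ s t, ‖P s - P t‖ ≤ 2 * ‖s - t‖ := by
    intro s t
    refine le_of_tendsto ((hP s).sub (hP t)).norm ?_
    filter_upwards [hbig (max ‖s‖ ‖t‖)] with n hn
    exact hlip n s (mem_ball_zero_iff.2 (lt_of_le_of_lt (le_max_left _ _) hn)) t
      (mem_ball_zero_iff.2 (lt_of_le_of_lt (le_max_right _ _) hn))
  have hPcont : Continuous P := by
    refine (LipschitzWith.of_dist_le_mul (K := 2) fun s t => ?_).continuous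
    rw [dist_eq_norm, dist_eq_norm]; exact hPlip s t
  -- trace
  have htr : ∀ t, ∃ i, P t (i, i) ≠ 0 := by
    intro t
    by_contra hcon
    push Not at hcon
    have h1 : ∀ n, ∑ i, Ψ n t (i, i) = 1 := by
      intro n
      simp only [hΨ, PhiP, prj]
      rw [← Finset.sum_div]
      have hne := (nsq_pos (g n t).rep_nonzero).ne'
      rw [div_eq_one_iff_eq (by exact_mod_cast hne)]
      push_cast
      refine Finset.sum_congr rfl fun k _ => ?_
      rw [Complex.mul_conj, Complex.normSq_eq_norm_sq]; push_cast; rfl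
    have h2 : Tendsto (fun n => ∑ i, Ψ n t (i, i)) U (𝓝 (∑ i, P t (i, i))) :=
      tendsto_finsetSum _ fun i _ => (tendsto_pi_nhds.1 (hP t)) (i, i)
    simp only [h1, hcon, Finset.sum_const_zero] at h2
    exact one_ne_zero (tendsto_nhds_unique tendsto_const_nhds h2)
  -- local structure
  have hlocal : ∀ t₀, ∃ i, ∃ V : Set ℂ, IsOpen V ∧ t₀ ∈ V ∧
      (∀ t ∈ V, P t (i, i) ≠ 0) ∧
      (∀ᶠ n in (U : Filter ℕ), ∀ t ∈ V, Ψ n t (i, i) ≠ 0 ∧ t ∈ ball (0 : ℂ) n) := by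
    intro t₀
    obtain ⟨i, hi⟩ := htr t₀
    have h1 : ∀ᶠ q : ℕ × ℂ in (U : Filter ℕ) ×ˢ 𝓝 t₀, Ψ q.1 q.2 (i, i) ≠ 0 :=
      ((tendsto_pi_nhds.1 (hCC t₀)) (i, i)).eventually_ne hi
    obtain ⟨pa, hpa, pb, hpb, hab⟩ := eventually_prod_iff.1 h1
    have hcont : ContinuousAt (fun t => P t (i, i)) t₀ :=
      ((continuous_apply (i, i)).comp hPcont).continuousAt
    have h2 : ∀ᶠ t in 𝓝 t₀, P t (i, i) ≠ 0 := hcont.eventually_ne hi
    obtain ⟨V, hV, hVo, htV⟩ :=
      _root_.eventually_nhds_iff.1 ((hpb.and h2).and (ball_mem_nhds t₀ one_pos))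
    refine ⟨i, V, hVo, htV, fun t ht => (hV t ht).1.2, ?_⟩
    filter_upwards [hpa, hbig (‖t₀‖ + 1)] with n hn hn2 t ht
    refine ⟨hab hn (hV t ht).1.1, ?_⟩
    have h3 : t ∈ ball t₀ 1 := (hV t ht).2
    rw [mem_ball, dist_eq_norm] at h3
    rw [mem_ball_zero_iff]
    calc ‖t‖ = ‖(t - t₀) + t₀‖ := by ring_nf
      _ ≤ ‖t - t₀‖ + ‖t₀‖ := norm_add_le _ _
      _ < _ := by linarith
  -- properties of the lifts
  have hGn : ∀ (n : ℕ) (t : ℂ) (i : ι), Ψ n t (i, i) ≠ 0 → t ∈ ball (0 : ℂ) n →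
      (∃ h : lift (Ψ n t) i ≠ 0, g n t = Projectivization.mk ℂ (lift (Ψ n t) i) h) ∧
      DifferentiableAt ℂ (fun t => lift (Ψ n t) i) t := by
    intro n t i hi ht
    obtain ⟨W, v, hW, htW, hv, hgv⟩ := hhol n t ht
    have hloc : ∀ s ∈ W, Ψ n s = prj (v s) := by
      intro s hs
      obtain ⟨h, he⟩ := hgv s hs
      simp only [hΨ]; rw [he, PhiP_mk]
    obtain ⟨hl, hvi⟩ := lift_prj (v := v t) (i := i) (by rw [← hloc t htW]; exact hi)
    constructor
    · obtain ⟨h, he⟩ := hgv t htW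
      have hne : lift (Ψ n t) i ≠ 0 := by
        rw [hloc t htW, hl]
        exact smul_ne_zero (inv_ne_zero hvi) h
      refine ⟨hne, ?_⟩
      rw [he, Projectivization.mk_eq_mk_iff']
      refine ⟨v t i, ?_⟩
      rw [hloc t htW, hl, smul_smul, mul_inv_cancel₀ hvi, one_smul]
    · have hvd : DifferentiableAt ℂ v t := hv.differentiableAt (hW.mem_nhds htW)
      have hvid : DifferentiableAt ℂ (fun s => v s i) t := (differentiableAt_pi.1 hvd) i
      have h1 : (fun s => lift (Ψ n s) i) =ᶠ[𝓝 t] fun s => (v s i)⁻¹ • v s := by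
        have h2 : ∀ᶠ s in 𝓝 t, v s i ≠ 0 := hvid.continuousAt.eventually_ne hvi
        filter_upwards [hW.mem_nhds htW, h2] with s hs hs2
        have h3 : prj (v s) (i, i) ≠ 0 := by
          obtain ⟨h, -⟩ := hgv s hs
          have hN : ((∑ k, ‖v s k‖ ^ 2 : ℝ) : ℂ) ≠ 0 := by exact_mod_cast (nsq_pos h).ne'
          simp only [prj]
          exact div_ne_zero (mul_ne_zero hs2 (by simpa using hs2)) hN
        rw [hloc s hs]
        exact (lift_prj h3).1
      exact ((hvid.inv hvi).smul hvd).congr_of_eventuallyEq h1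
  -- convergence of the lifts
  have hliftcc : ∀ t i, P t (i, i) ≠ 0 → Tendsto (fun q : ℕ × ℂ => lift (Ψ q.1 q.2) i)
      ((U : Filter ℕ) ×ˢ 𝓝 t) (𝓝 (lift (P t) i)) := by
    intro t i hi
    rw [tendsto_pi_nhds]
    intro k
    exact ((tendsto_pi_nhds.1 (hCC t)) (k, i)).div ((tendsto_pi_nhds.1 (hCC t)) (i, i)) hi
  have hliftcont : ∀ t i, P t (i, i) ≠ 0 → ContinuousAt (fun t => lift (P t) i) t := by
    intro t i hi
    rw [continuousAt_pi]
    intro k
    exact (((continuous_apply (k, i)).comp hPcont).continuousAt).div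
      (((continuous_apply (i, i)).comp hPcont).continuousAt) hi
  have hlu : ∀ (i : ι) (V : Set ℂ), IsOpen V → (∀ t ∈ V, P t (i, i) ≠ 0) →
      TendstoLocallyUniformlyOn (fun n t => lift (Ψ n t) i) (fun t => lift (P t) i)
        (U : Filter ℕ) V := by
    intro i V hV hPV
    rw [tendstoLocallyUniformlyOn_iff_forall_tendsto]
    intro t ht
    rw [hV.nhdsWithin_eq ht]
    have h1 : Tendsto (fun q : ℕ × ℂ => lift (P q.2) i) ((U : Filter ℕ) ×ˢ 𝓝 t)
        (𝓝 (lift (P t) i)) :=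
      (hliftcont t i (hPV t ht)).tendsto.comp tendsto_snd
    have h2 := h1.prodMk (hliftcc t i (hPV t ht))
    rw [← nhds_prod_eq] at h2
    exact h2.mono_right (nhds_le_uniformity _)
  -- the limit of the lifts
  have hne1 : ∀ t i, P t (i, i) ≠ 0 → lift (P t) i ≠ 0 := by
    intro t i hi h0
    have := congrFun h0 i
    simp only [lift, Pi.zero_apply] at this
    rw [div_self hi] at this
    exact one_ne_zero this
  have hPprj : ∀ t i, P t (i, i) ≠ 0 → P t = prj (lift (P t) i) := by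
    intro t i hi
    have h1 : Tendsto (fun n => lift (Ψ n t) i) U (𝓝 (lift (P t) i)) := by
      have := (hliftcc t i hi).comp (f := fun n : ℕ => (n, t)) (x := (U : Filter ℕ))
        (tendsto_id.prodMk tendsto_const_nhds)
      exact this
    have h2 : Tendsto (fun n => prj (lift (Ψ n t) i)) U (𝓝 (prj (lift (P t) i))) :=
      (prj_contDiffAt (hne1 t i hi)).continuousAt.tendsto.comp h1
    have h3 : (fun n => prj (lift (Ψ n t) i)) =ᶠ[(U : Filter ℕ)] fun n => Ψ n t := by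
      have h4 : ∀ᶠ n in (U : Filter ℕ), Ψ n t (i, i) ≠ 0 :=
        ((tendsto_pi_nhds.1 (hP t)) (i, i)).eventually_ne hi
      filter_upwards [h4, hbig ‖t‖] with n hn hn2
      obtain ⟨⟨h5, h6⟩, -⟩ := hGn n t i hn (mem_ball_zero_iff.2 hn2)
      rw [← PhiP_mk _ h5, ← h6]
    exact tendsto_nhds_unique ((hP t)) (h2.congr' h3)
  have hex : ∀ t, ∃ p : PS ι, PhiP p = P t := by
    intro t
    obtain ⟨i, hi⟩ := htr t
    exact ⟨Projectivization.mk ℂ _ (hne1 t i hi), by rw [PhiP_mk, ← hPprj t i hi]⟩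
  choose G hG using hex
  have hGmk : ∀ t i, (hi : P t (i, i) ≠ 0) → G t = Projectivization.mk ℂ _ (hne1 t i hi) := by
    intro t i hi
    apply PhiP_injective
    rw [hG, PhiP_mk, ← hPprj t i hi]
  have hGdiff : ∀ t₀, ∃ i, ∃ V : Set ℂ, IsOpen V ∧ t₀ ∈ V ∧ (∀ t ∈ V, P t (i, i) ≠ 0) ∧
      DifferentiableOn ℂ (fun t => lift (P t) i) V ∧
      Tendsto (fun n => deriv (fun t => lift (Ψ n t) i) t₀) U (𝓝 (deriv (fun t => lift (P t) i) t₀)) := by
    intro t₀
    obtain ⟨i, V, hV, htV, h1, h2⟩ := hlocal t₀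
    have h3 : ∀ᶠ n in (U : Filter ℕ), DifferentiableOn ℂ (fun t => lift (Ψ n t) i) V := by
      filter_upwards [h2] with n hn t ht
      exact (hGn n t i (hn t ht).1 (hn t ht).2).2.differentiableWithinAt
    have h4 := hlu i V hV h1
    refine ⟨i, V, hV, htV, h1, h4.differentiableOn h3 hV, ?_⟩
    exact (h4.deriv h3 hV).tendsto_at htV
  refine ⟨G, ?_, ?_, ?_⟩
  · intro t₀ _
    obtain ⟨i, V, hV, htV, h1, h2, -⟩ := hGdiff t₀
    exact ⟨V, fun t => lift (P t) i, hV, htV, h2, fun t ht => ⟨hne1 t i (h1 t ht), hGmk t i (h1 t ht)⟩⟩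
  · intro t
    obtain ⟨i, hi⟩ := htr t
    obtain ⟨S, hS, hSX⟩ := hX
    have h4 : ∀ᶠ n in (U : Filter ℕ), Ψ n t (i, i) ≠ 0 :=
      ((tendsto_pi_nhds.1 (hP t)) (i, i)).eventually_ne hi
    have h1 : Tendsto (fun n => lift (Ψ n t) i) U (𝓝 (lift (P t) i)) := by
      have := (hliftcc t i hi).comp (f := fun n : ℕ => (n, t)) (x := (U : Filter ℕ))
        (tendsto_id.prodMk tendsto_const_nhds)
      exact this
    have h5 : lift (P t) i ∈ Cone X := by
      rw [hSX]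
      refine ⟨hne1 t i hi, fun f hf => ?_⟩
      have h6 : Tendsto (fun n => MvPolynomial.eval (lift (Ψ n t) i) f) U
          (𝓝 (MvPolynomial.eval (lift (P t) i) f)) :=
        (MvPolynomial.continuous_eval f).continuousAt.tendsto.comp h1
      have h7 : (fun n => MvPolynomial.eval (lift (Ψ n t) i) f) =ᶠ[(U : Filter ℕ)] fun _ => 0 := by
        filter_upwards [h4, hbig ‖t‖] with n hn hn2
        obtain ⟨⟨h8, h9⟩, -⟩ := hGn n t i hn (mem_ball_zero_iff.2 hn2)
        have h10 : lift (Ψ n t) i ∈ Cone X := ⟨h8, by rw [← h9]; exact hgX n t (mem_ball_zero_iff.2 hn2)⟩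
        exact ((hSX _).1 h10).2 f hf
      exact tendsto_nhds_unique (h6.congr' h7) tendsto_const_nhds |>.trans rfl
    obtain ⟨h6, h7⟩ := h5
    rw [hGmk t i hi]
    exact h7
  · by_contra hcon
    push Not at hcon
    obtain ⟨i, V, hV, htV, h1, h2, h3⟩ := hGdiff 0
    obtain ⟨i', V', hV', htV', h1', h2'⟩ := hlocal 0
    -- the derivatives at zero
    have hi0 : P 0 (i, i) ≠ 0 := h1 0 htV
    have hconst : deriv (fun t => lift (P t) i) 0 = 0 := by
      have : (fun t => lift (P t) i) = fun _ => lift (P 0) i := by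
        funext t
        rw [← hG t, hcon t, hG 0]
      rw [this]; exact deriv_const _ _
    rw [hconst] at h3
    have h4 : ∀ᶠ n in (U : Filter ℕ), Ψ n 0 (i, i) ≠ 0 :=
      ((tendsto_pi_nhds.1 (hP 0)) (i, i)).eventually_ne hi0
    have h5 : Tendsto (fun n => lift (Ψ n 0) i) U (𝓝 (lift (P 0) i)) := by
      have := (hliftcc 0 i hi0).comp (f := fun n : ℕ => (n, (0 : ℂ))) (x := (U : Filter ℕ))
        (tendsto_id.prodMk tendsto_const_nhds)
      exact this
    have h6 : Tendsto (fun n => fderiv ℝ prj (lift (Ψ n 0) i)) U (𝓝 (fderiv ℝ prj (lift (P 0) i))) :=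
      ((prj_contDiffAt (hne1 0 i hi0)).fderiv_right (m := 0) (by simp)).continuousAt.tendsto.comp h5
    have h7 : Tendsto (fun n => ‖fderiv ℝ prj (lift (Ψ n 0) i)‖ *
        ‖deriv (fun t => lift (Ψ n t) i) 0‖) U (𝓝 0) := by
      have := h6.norm.mul h3.norm
      simpa using this
    have h8 : ∀ᶠ n in (U : Filter ℕ), 1 ≤ ‖fderiv ℝ prj (lift (Ψ n 0) i)‖ *
        ‖deriv (fun t => lift (Ψ n t) i) 0‖ := by
      filter_upwards [h4, hbig 0] with n hn hn2
      have hn3 : (0 : ℂ) ∈ ball (0 : ℂ) n := mem_ball_self hn2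
      obtain ⟨⟨h9, h10⟩, h11⟩ := hGn n 0 i hn hn3
      have h12 : Ψ n =ᶠ[𝓝 0] fun t => prj (lift (Ψ n t) i) := by
        have hc : ContinuousAt (Ψ n) 0 := (hdiff n 0 hn3).continuousAt
        have hc2 : ContinuousAt (fun t => Ψ n t (i, i)) 0 := (continuousAt_pi.1 hc) (i, i)
        filter_upwards [hc2.eventually_ne hn, isOpen_ball.mem_nhds hn3] with t ht ht2
        obtain ⟨⟨h13, h14⟩, -⟩ := hGn n t i ht ht2
        rw [← PhiP_mk _ h13, ← h14]
      have h13 := fderiv_comp_hol prj (fun t => lift (Ψ n t) i) 0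
        ((prj_contDiffAt h9).differentiableAt (by simp)) h11
      have h14 : fderiv ℝ (Ψ n) 0 = _ := h12.fderiv_eq.trans h13
      have h15 : ‖fderiv ℝ (Ψ n) 0‖ = 1 := hone n
      rw [← h15, h14]
      refine (ContinuousLinearMap.opNorm_comp_le _ _).trans ?_
      gcongr
      rw [ContinuousLinearMap.norm_restrictScalars, ← norm_deriv_eq_norm_fderiv]
    have h9 : (1 : ℝ) ≤ 0 := ge_of_tendsto h7 h8
    linarith

end Pool.Agent.W424.DB2
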