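import Pool.Agent.W424.DB1

/-!
Hyperbolicity from a Lipschitz estimate at the origin.
-/

set_option autoImplicit false

open scoped LinearAlgebra.Projectivization Topology ComplexConjugate
open Metric Set Filter

namespace Pool.Agent.W424.DB3

open W489.Dem Pool.Agent.W424.Dem Pool.Agent.W424.DB1

theorem mob_inv {a b : ℂ} (ha : ‖a‖ < 1) (hb : ‖b‖ < 1) : mob a (mob (-a) b) = b := by
  have h1 : ‖-a‖ < 1 := by rwa [norm_neg]
  have hd := mob_den h1 hb
  have hd2 := mob_den ha (mob_lt h1 hb)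
  unfold mob at hd2 ⊢
  rw [map_neg] at hd hd2 ⊢
  rw [div_eq_iff hd2]
  have hq : (b + -a) / (1 + -conj a * b) * (1 + -conj a * b) = b + -a := div_mul_cancel₀ _ hd
  linear_combination hq

theorem arsinh_ge {x : ℝ} (hx : 0 ≤ x) : x / (1 + x) ≤ Real.arsinh x := by
  have h1 : (0 : ℝ) < 1 + x := by linarith
  have h2 := Real.one_sub_inv_le_log_of_pos h1
  have h3 : 1 - (1 + x)⁻¹ = x / (1 + x) := by field_simp; ring
  rw [h3] at h2
  refine h2.trans ?_
  unfold Real.arsinh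
  apply Real.log_le_log h1
  have : 1 ≤ Real.sqrt (1 + x ^ 2) := by
    rw [Real.one_le_sqrt]; nlinarith
  linarith

theorem mob_le_poinc {a b : ℂ} (ha : ‖a‖ < 1) (hb : ‖b‖ < 1) :
    ‖mob (-a) b‖ ≤ 2 * poinc a b := by
  have h1 : ‖-a‖ < 1 := by rwa [norm_neg]
  have hA : 0 < 1 - ‖a‖ ^ 2 := by nlinarith [norm_nonneg a]
  have hB : 0 < 1 - ‖b‖ ^ 2 := by nlinarith [norm_nonneg b]
  set D := (1 - ‖a‖ ^ 2) * (1 - ‖b‖ ^ 2) with hD
  have hDpos : 0 < D := mul_pos hA hB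
  have hs := mob_sq h1 hb
  rw [norm_neg, ← hD] at hs
  have hd := mob_den h1 hb
  have hdpos : 0 < ‖1 + conj (-a) * b‖ ^ 2 := by
    have := norm_pos_iff.2 hd
    positivity
  have hnum : ‖mob (-a) b‖ ^ 2 = ‖a - b‖ ^ 2 / ‖1 + conj (-a) * b‖ ^ 2 := by
    unfold mob
    rw [norm_div, div_pow, show b + -a = -(a - b) by ring, norm_neg]
  set x := ‖a - b‖ / Real.sqrt D with hx
  have hx0 : 0 ≤ x := by positivity
  have hx2 : x ^ 2 = ‖a - b‖ ^ 2 / D := by
    rw [hx, div_pow, Real.sq_sqrt hDpos.le]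
  have hkey : ‖mob (-a) b‖ ^ 2 * (1 + x ^ 2) = x ^ 2 := by
    have h2 : ‖1 + conj (-a) * b‖ ^ 2 = ‖a - b‖ ^ 2 + D := by
      rw [hnum] at hs
      generalize ‖1 + conj (-a) * b‖ ^ 2 = N at hs hdpos
      field_simp at hs
      linarith
    rw [hnum, hx2, h2]
    have : 0 < ‖a - b‖ ^ 2 + D := by positivity
    field_simp
    ring
  have hle : ‖mob (-a) b‖ * (1 + x) ≤ 2 * x := by
    apply le_of_sq_le_sq _ (by positivity)
    have h3 : 0 ≤ ‖mob (-a) b‖ ^ 2 := by positivity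
    nlinarith [mul_nonneg h3 (sq_nonneg (1 - x))]
  have hp : poinc a b = Real.arsinh x := rfl
  rw [hp]
  have h4 := arsinh_ge hx0
  have h5 : (0 : ℝ) < 1 + x := by linarith
  calc ‖mob (-a) b‖ ≤ 2 * x / (1 + x) := by rw [le_div_iff₀ h5]; exact hle
    _ = 2 * (x / (1 + x)) := by ring
    _ ≤ _ := by linarith

theorem disc_le {ι : Type} [Fintype ι] {X : Set (PS ι)} {C : ℝ}
    (hC : ∀ f : ℂ → PS ι, HolMap (ball 0 1) f → (∀ t ∈ ball (0 : ℂ) 1, f t ∈ X) →
      ∀ a ∈ ball (0 : ℂ) (1 / 2), dist (PhiP (f a)) (PhiP (f 0)) ≤ C * ‖a‖)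
    {f : ℂ → PS ι} (hf : HolMap (ball 0 1) f) (hfX : ∀ t ∈ ball (0 : ℂ) 1, f t ∈ X)
    {a b : ℂ} (ha : a ∈ ball (0 : ℂ) 1) (hb : b ∈ ball (0 : ℂ) 1) :
    dist (PhiP (f a)) (PhiP (f b)) ≤ 2 * max C 4 * poinc a b := by
  rw [mem_ball_zero_iff] at ha hb
  have h1 : ‖-a‖ < 1 := by rwa [norm_neg]
  have hp := mob_le_poinc ha hb
  set w := mob (-a) b with hw
  have hwb : mob a w = b := mob_inv ha hb
  have hm0 : mob a 0 = a := by simp [mob]
  have hK : 0 < max C 4 := lt_max_of_lt_right (by norm_num)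
  have hmain : dist (PhiP (f a)) (PhiP (f b)) ≤ max C 4 * ‖w‖ := by
    by_cases hlt : ‖w‖ < 1 / 2
    · have h2 := hC (fun t => f (mob a t))
        (HolMap.comp hf (mob a) (fun t ht => (mob_deriv ha
          (mem_ball_zero_iff.1 ht)).differentiableAt.differentiableWithinAt) isOpen_ball
          (fun t ht => mem_ball_zero_iff.2 (mob_lt ha (mem_ball_zero_iff.1 ht))))
        (fun t ht => hfX _ (mem_ball_zero_iff.2 (mob_lt ha (mem_ball_zero_iff.1 ht)))) w
        (mem_ball_zero_iff.2 hlt)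
      simp only [hwb, hm0] at h2
      rw [dist_comm]
      refine h2.trans ?_
      gcongr
      exact le_max_left _ _
    · push Not at hlt
      have h3 : dist (PhiP (f a)) (PhiP (f b)) ≤ 2 := by
        rw [dist_eq_norm]
        calc ‖PhiP (f a) - PhiP (f b)‖ ≤ ‖PhiP (f a)‖ + ‖PhiP (f b)‖ := norm_sub_le _ _
          _ ≤ 1 + 1 := add_le_add (prj_norm_le _) (prj_norm_le _)
          _ = 2 := by norm_num
      have h4 : (4 : ℝ) ≤ max C 4 := le_max_right _ _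
      nlinarith
  calc dist (PhiP (f a)) (PhiP (f b)) ≤ max C 4 * ‖w‖ := hmain
    _ ≤ max C 4 * (2 * poinc a b) := by gcongr
    _ = _ := by ring

theorem main : S_B3 := by
  intro ι _ X C hC p hp q hq hpq
  have hK : 0 < 2 * max C 4 := by
    have : (4 : ℝ) ≤ max C 4 := le_max_right _ _
    linarith
  have hd : 0 < dist (PhiP p) (PhiP q) := dist_pos.2 fun h => hpq (PhiP_injective h)
  have hlow : ENNReal.ofReal (dist (PhiP p) (PhiP q) / (2 * max C 4)) ≤ kobDist X p q := by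
    unfold kobDist
    refine le_iInf fun L => le_iInf fun hL => ?_
    apply ENNReal.ofReal_le_ofReal
    obtain ⟨n, P, f, a, b, hP0, hPn, hch, hLs⟩ := hL
    rw [div_le_iff₀ hK, hLs, Finset.sum_mul]
    rw [← hP0, ← hPn]
    refine dist_le_range_sum_of_dist_le (f := fun i => PhiP (P i)) n fun {k} hk => ?_
    obtain ⟨h1, h2, h3, h4, h5, h6⟩ := hch k hk
    have h7 := disc_le hC h1 h2 h3 h4
    rw [h5, h6] at h7
    simpa [mul_comm] using h7
  refine lt_of_lt_of_le ?_ hlow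
  rw [ENNReal.ofReal_pos]
  positivity

end Pool.Agent.W424.DB3
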