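import Pool.Agent.W489.Dem.Stubs

/-!
The base component of an entire curve in the surface is constant.
-/

set_option autoImplicit false

open scoped LinearAlgebra.Projectivization Topology ComplexConjugate
open Metric Set Filter

namespace Pool.Agent.W424.DH1

open W489.Dem

/-- `σ` is a base point of `v` -/
def R (v : J → ℂ) (σ : Fin 3 → ℂ) : Prop :=
  σ ≠ 0 ∧ ∑ i, σ i ^ 4 = 0 ∧ ∃ x z y : ℂ, y ^ 4 = GG σ x z ∧ v = mm σ x z y ∧ (x ≠ 0 ∨ z ≠ 0)

/-- a column of coordinates -/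
def col (a : Fin 6) (v : J → ℂ) : Fin 3 → ℂ := fun j => v (some (j, a))

theorem R_of_XC {v : J → ℂ} (hv : v ∈ XC) : ∃ σ, R v σ := by
  obtain ⟨h0, s, x, z, y, hs, hy, rfl⟩ := hv
  obtain ⟨h1, h2⟩ := ne_of_mm_ne hy h0
  exact ⟨s, h1, hs, x, z, y, hy, rfl, h2⟩

theorem R_smul {v : J → ℂ} {σ : Fin 3 → ℂ} (h : R v σ) {c : ℂ} (hc : c ≠ 0) :
    R (c • v) (c • σ) := by
  obtain ⟨h1, h2, x, z, y, hy, rfl, hxz⟩ := h
  refine ⟨smul_ne_zero hc h1, ?_, x, z, c * y, ?_, mm_smul c σ x z y, hxz⟩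
  · simp only [Pi.smul_apply, smul_eq_mul, mul_pow, ← Finset.mul_sum, h2, mul_zero]
  · rw [mul_pow, hy, GG_smul]

theorem R_col {v : J → ℂ} {σ : Fin 3 → ℂ} (h : R v σ) (a : Fin 6) : ∃ c : ℂ, col a v = c • σ := by
  obtain ⟨h1, h2, x, z, y, hy, rfl, hxz⟩ := h
  refine ⟨x ^ (a : ℕ) * z ^ (5 - (a : ℕ)), ?_⟩
  funext j
  simp only [col, mm, Pi.smul_apply, smul_eq_mul]
  ring

theorem R_ne {v : J → ℂ} {σ : Fin 3 → ℂ} (h : R v σ) : ∃ a : Fin 6, col a v ≠ 0 := by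
  obtain ⟨h1, h2, x, z, y, hy, rfl, hxz⟩ := h
  obtain ⟨i, hi⟩ := mm_ne (y := y) h1 hxz
  rcases hi with hi | hi
  · exact ⟨0, Function.ne_iff.2 ⟨i, hi⟩⟩
  · exact ⟨5, Function.ne_iff.2 ⟨i, hi⟩⟩

theorem R_prop {v : J → ℂ} {σ : Fin 3 → ℂ} (h : R v σ) {a : Fin 6} (ha : col a v ≠ 0) :
    ∃ c : ℂ, c ≠ 0 ∧ col a v = c • σ := by
  obtain ⟨c, hc⟩ := R_col h a
  refine ⟨c, ?_, hc⟩
  rintro rfl
  rw [zero_smul] at hc
  exact ha hc

theorem main : S_H1 := by
  intro hA4 f hf hfX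
  have hf' := fun t => hf t (mem_univ t)
  choose W v hWo htW hvd hfv using hf'
  have hvX : ∀ t₀, ∀ t ∈ W t₀, v t₀ t ∈ XC := by
    intro t₀ t ht
    obtain ⟨h, he⟩ := hfv t₀ t ht
    rw [← cone_XX]
    exact ⟨h, by rw [← he]; exact hfX t⟩
  choose σ hσ using fun t => R_of_XC (hvX t t (htW t))
  -- comparison of lifts
  have hcmp : ∀ t₀, ∀ t ∈ W t₀, ∀ a : Fin 6, col a (v t₀ t) ≠ 0 →
      ∃ c : ℂ, c ≠ 0 ∧ col a (v t₀ t) = c • σ t := by
    intro t₀ t ht a ha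
    obtain ⟨h1, h2⟩ := hfv t₀ t ht
    obtain ⟨h3, h4⟩ := hfv t t (htW t)
    rw [h4, Projectivization.mk_eq_mk_iff'] at h2
    obtain ⟨c, hc⟩ := h2
    have hc0 : c ≠ 0 := by
      rintro rfl
      rw [zero_smul] at hc
      exact h3 hc.symm
    have h5 : v t₀ t = c⁻¹ • v t t := by
      rw [← hc, smul_smul, inv_mul_cancel₀ hc0, one_smul]
    have h6 : R (v t₀ t) (c⁻¹ • σ t) := by
      rw [h5]; exact R_smul (hσ t) (inv_ne_zero hc0)
    obtain ⟨d, hd, he⟩ := R_prop h6 ha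
    exact ⟨d * c⁻¹, mul_ne_zero hd (inv_ne_zero hc0), by rw [he, smul_smul]⟩
  have hcol : ∀ t₀ t, t ∈ W t₀ → ∀ a : Fin 6, DifferentiableAt ℂ (fun t => col a (v t₀ t)) t := by
    intro t₀ t ht a
    rw [differentiableAt_pi]
    intro j
    exact differentiableAt_pi.1 ((hvd t₀).differentiableAt ((hWo t₀).mem_nhds ht)) (some (j, a))
  have hloc : ∀ t₀, ∃ (V : Set ℂ) (a : Fin 6), IsOpen V ∧ t₀ ∈ V ∧ V ⊆ W t₀ ∧
      ∀ t ∈ V, col a (v t₀ t) ≠ 0 := by
    intro t₀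
    obtain ⟨a, ha⟩ := R_ne (hσ t₀)
    have h1 : ∀ᶠ t in 𝓝 t₀, col a (v t₀ t) ≠ 0 :=
      (hcol t₀ t₀ (htW t₀) a).continuousAt.eventually_ne ha
    obtain ⟨V, hV, hVo, htV⟩ := _root_.eventually_nhds_iff.1 h1
    exact ⟨V ∩ W t₀, a, hVo.inter (hWo t₀), ⟨htV, htW t₀⟩, inter_subset_right,
      fun t ht => hV t ht.1⟩
  have h4ne : ∀ s : Fin 3 → ℂ, s ≠ 0 → (fun i => s i ^ 4) ≠ 0 := by
    intro s hs
    obtain ⟨i, hi⟩ := Function.ne_iff.1 hs
    exact Function.ne_iff.2 ⟨i, pow_ne_zero 4 hi⟩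
  set F : ℂ → PS (Fin 3) := fun t => Projectivization.mk ℂ (fun i => σ t i ^ 4)
    (h4ne _ (hσ t).1) with hF
  have hFc : ∀ t, F t = F 0 := by
    apply hA4
    intro t₀
    obtain ⟨V, a, hVo, htV, hVW, hne⟩ := hloc t₀
    refine ⟨V, fun t => col a (v t₀ t), hVo, htV, fun t ht =>
      (hcol t₀ t (hVW ht) a).differentiableWithinAt, fun t ht => ?_⟩
    obtain ⟨c, hc0, hc⟩ := hcmp t₀ t (hVW ht) a (hne t ht)
    refine ⟨hne t ht, ?_, h4ne _ (hne t ht), ?_⟩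
    · simp only [hc, Pi.smul_apply, smul_eq_mul, mul_pow, ← Finset.mul_sum, (hσ t).2.1, mul_zero]
    · simp only [hF]
      rw [Projectivization.mk_eq_mk_iff']
      refine ⟨(c ^ 4)⁻¹, ?_⟩
      funext i
      simp only [hc, Pi.smul_apply, smul_eq_mul, mul_pow]
      rw [← mul_assoc, inv_mul_cancel₀ (pow_ne_zero 4 hc0), one_mul]
  -- the base map is locally constant
  set g : ℂ → PS (Fin 3) := fun t => Projectivization.mk ℂ (σ t) (hσ t).1 with hg
  have hlc : IsLocallyConstant g := by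
    rw [IsLocallyConstant.iff_eventually_eq]
    intro t₀
    obtain ⟨V, a, hVo, htV, hVW, hne⟩ := hloc t₀
    obtain ⟨i, hi⟩ := Function.ne_iff.1 (hne t₀ htV)
    have hi' : col a (v t₀ t₀) i ≠ 0 := hi
    have hci : ∀ j, ContinuousAt (fun t => col a (v t₀ t) j) t₀ := fun j =>
      (differentiableAt_pi.1 (hcol t₀ t₀ (htW t₀) a) j).continuousAt
    have h1 : ∀ᶠ t in 𝓝 t₀, col a (v t₀ t) i ≠ 0 := (hci i).eventually_ne hi'
    have h2 : ∀ j, ∀ᶠ t in 𝓝 t₀, col a (v t₀ t) j / col a (v t₀ t) i =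
        col a (v t₀ t₀) j / col a (v t₀ t₀) i := by
      intro j
      set w₀ := col a (v t₀ t₀) j / col a (v t₀ t₀) i with hw₀
      have hcont : ContinuousAt (fun t => col a (v t₀ t) j / col a (v t₀ t) i) t₀ :=
        (hci j).div (hci i) hi'
      have hfin : {w : ℂ | w ^ 4 = w₀ ^ 4 ∧ w ≠ w₀}.Finite := by
        refine Set.Finite.subset (s := {w₀, -w₀, Complex.I * w₀, -Complex.I * w₀})
          (by simp) ?_
        rintro w ⟨hw, -⟩
        have : (w - w₀) * ((w + w₀) * ((w - Complex.I * w₀) * (w + Complex.I * w₀))) = 0 := by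
          have hI2 : Complex.I ^ 2 = -1 := Complex.I_sq
          linear_combination hw - (w ^ 2 - w₀ ^ 2) * w₀ ^ 2 * hI2
        rcases mul_eq_zero.1 this with h | h
        · left; linear_combination h
        rcases mul_eq_zero.1 h with h | h
        · right; left; linear_combination h
        rcases mul_eq_zero.1 h with h | h
        · right; right; left; linear_combination h
        · right; right; right
          rw [mem_singleton_iff]; linear_combination h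
      have hopen : IsOpen {w : ℂ | w ^ 4 = w₀ ^ 4 ∧ w ≠ w₀}ᶜ := hfin.isClosed.isOpen_compl
      have hev : ∀ᶠ t in 𝓝 t₀, col a (v t₀ t) j / col a (v t₀ t) i ∈
          {w : ℂ | w ^ 4 = w₀ ^ 4 ∧ w ≠ w₀}ᶜ :=
        hcont.eventually (hopen.mem_nhds (by simp [hw₀]))
      filter_upwards [hev, h1, hVo.mem_nhds htV] with t g1 g2 g3
      by_contra hcon
      apply g1
      refine ⟨?_, hcon⟩
      -- the fourth power of the ratio is constant
      obtain ⟨c, hc0, hc⟩ := hcmp t₀ t (hVW g3) a (hne t g3)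
      obtain ⟨d, hd0, hd⟩ := hcmp t₀ t₀ (hVW htV) a (hne t₀ htV)
      have h5 : F t = F t₀ := (hFc t).trans (hFc t₀).symm
      simp only [hF] at h5
      rw [Projectivization.mk_eq_mk_iff'] at h5
      obtain ⟨e, he⟩ := h5
      have he' : ∀ k, e * σ t₀ k ^ 4 = σ t k ^ 4 := fun k => by
        simpa using congrFun he k
      have hσi : σ t i ≠ 0 := by
        intro h0
        apply g2
        rw [hc]; simp [h0]
      have hσi0 : σ t₀ i ≠ 0 := by
        intro h0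
        apply hi'
        rw [hd]; simp [h0]
      rw [hw₀, hc, hd]
      simp only [Pi.smul_apply, smul_eq_mul]
      rw [mul_div_mul_left _ _ hc0, mul_div_mul_left _ _ hd0, div_pow, div_pow,
        div_eq_div_iff (pow_ne_zero 4 hσi) (pow_ne_zero 4 hσi0), ← he' i, ← he' j]
      ring
    have h3 : ∀ᶠ t in 𝓝 t₀, ∀ j, col a (v t₀ t) j / col a (v t₀ t) i =
        col a (v t₀ t₀) j / col a (v t₀ t₀) i := eventually_all.2 h2
    filter_upwards [h1, h3, hVo.mem_nhds htV] with t g1 g2 g3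
    obtain ⟨c, hc0, hc⟩ := hcmp t₀ t (hVW g3) a (hne t g3)
    obtain ⟨d, hd0, hd⟩ := hcmp t₀ t₀ (hVW htV) a (hne t₀ htV)
    simp only [hg]
    rw [Projectivization.mk_eq_mk_iff']
    refine ⟨c⁻¹ * (col a (v t₀ t) i / col a (v t₀ t₀) i) * d, ?_⟩
    have h6 : col a (v t₀ t) = (col a (v t₀ t) i / col a (v t₀ t₀) i) • col a (v t₀ t₀) := by
      funext j
      have := g2 j
      simp only [Pi.smul_apply, smul_eq_mul]
      field_simp at this ⊢
      linear_combination this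
    have h7 : σ t = c⁻¹ • col a (v t₀ t) := by
      rw [hc, smul_smul, inv_mul_cancel₀ hc0, one_smul]
    generalize col a (v t₀ t) i / col a (v t₀ t₀) i = q at h6 ⊢
    rw [h7, h6, hd, smul_smul, smul_smul]
  refine ⟨σ 0, (hσ 0).1, (hσ 0).2.1, fun t => ?_⟩
  have h1 : g t = g 0 := hlc.apply_eq_of_preconnectedSpace t 0
  simp only [hg] at h1
  rw [Projectivization.mk_eq_mk_iff'] at h1
  obtain ⟨c, hc⟩ := h1
  have hc0 : c ≠ 0 := by
    rintro rfl
    rw [zero_smul] at hc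
    exact (hσ t).1 hc.symm
  obtain ⟨h2, h3, x, z, y, hy, hv, hxz⟩ := hσ t
  obtain ⟨h4, h5⟩ := hfv t t (htW t)
  refine ⟨x, z, c⁻¹ * y, ?_, ?_⟩
  · rw [mul_pow, hy, ← hc, GG_smul]
    field_simp
  · have h6 : v t t = c • mm (σ 0) x z (c⁻¹ * y) := by
      rw [hv, mm_smul, hc, ← mul_assoc, mul_inv_cancel₀ hc0, one_mul]
    have h7 : mm (σ 0) x z (c⁻¹ * y) ≠ 0 := by
      intro h0
      rw [h0, smul_zero] at h6
      exact h4 h6
    refine ⟨h7, ?_⟩
    rw [h5, Projectivization.mk_eq_mk_iff']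
    exact ⟨c, h6.symm⟩

end Pool.Agent.W424.DH1
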