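import Pool.Agent.W424.DBase

/-!
An entire curve in a fibre of the surface is constant.
-/

set_option autoImplicit false

open scoped LinearAlgebra.Projectivization Topology ComplexConjugate
open Metric Set Filter

namespace Pool.Agent.W424.DH4

open W489.Dem Pool.Agent.W424.Dem

theorem local_rep {s : Fin 3 → ℂ} (hs : s ≠ 0) {f : ℂ → PS J} (hf : HolMap univ f)
    (hfs : ∀ t, ∃ x z y : ℂ, y ^ 4 = GG s x z ∧
      ∃ h : mm s x z y ≠ 0, f t = Projectivization.mk ℂ (mm s x z y) h) (t₀ : ℂ) :
    ∃ (W : Set ℂ) (x z y : ℂ → ℂ), IsOpen W ∧ t₀ ∈ W ∧ DifferentiableOn ℂ x W ∧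
      DifferentiableOn ℂ z W ∧ DifferentiableOn ℂ y W ∧ ∀ t ∈ W, (x t ≠ 0 ∨ z t ≠ 0) ∧
      y t ^ 4 = GG s (x t) (z t) ∧ ∃ h : mm s (x t) (z t) (y t) ≠ 0,
        f t = Projectivization.mk ℂ (mm s (x t) (z t) (y t)) h := by
  obtain ⟨i, hi⟩ := Function.ne_iff.1 hs
  have hi' : s i ≠ 0 := hi
  obtain ⟨W, v, hW, htW, hvd, hfv⟩ := hf t₀ (mem_univ _)
  have hrep : ∀ t ∈ W, ∃ c x z y : ℂ, c ≠ 0 ∧ y ^ 4 = GG s x z ∧ (x ≠ 0 ∨ z ≠ 0) ∧
      v t = c • mm s x z y ∧ ∃ h : mm s x z y ≠ 0, f t = Projectivization.mk ℂ (mm s x z y) h := by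
    intro t ht
    obtain ⟨x, z, y, hy, h, he⟩ := hfs t
    obtain ⟨h1, h2⟩ := hfv t ht
    have h3 := he
    rw [h2, eq_comm, Projectivization.mk_eq_mk_iff'] at h3
    obtain ⟨c, hc⟩ := h3
    have hc0 : c ≠ 0 := by
      rintro rfl
      rw [zero_smul] at hc
      exact h hc.symm
    refine ⟨c⁻¹, x, z, y, inv_ne_zero hc0, hy, (ne_of_mm_ne hy h).2, ?_, h, he⟩
    rw [← hc, smul_smul, inv_mul_cancel₀ hc0, one_smul]
  have hvc : ∀ q, ∀ t ∈ W, DifferentiableAt ℂ (fun t => v t q) t := fun q t ht =>
    differentiableAt_pi.1 (hvd.differentiableAt (hW.mem_nhds ht)) q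
  have hopen : ∀ q, IsOpen (W ∩ {t | v t q ≠ 0}) := by
    intro q
    have hc : ContinuousOn (fun t => v t q) W := fun t ht =>
      (hvc q t ht).continuousAt.continuousWithinAt
    exact hc.isOpen_inter_preimage hW isOpen_compl_singleton
  by_cases hcase : v t₀ (some (i, 0)) ≠ 0
  · refine ⟨W ∩ {t | v t (some (i, 0)) ≠ 0}, fun t => v t (some (i, 1)) / v t (some (i, 0)),
      fun _ => 1, fun t => v t none / (v t (some (i, 0)) / s i), hopen _, ⟨htW, hcase⟩, ?_,
      differentiableOn_const _, ?_, ?_⟩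
    · intro t ht
      exact ((hvc _ t ht.1).div (hvc _ t ht.1) ht.2).differentiableWithinAt
    · intro t ht
      exact ((hvc _ t ht.1).div ((hvc _ t ht.1).div_const _)
        (div_ne_zero ht.2 hi')).differentiableWithinAt
    · intro t ht
      obtain ⟨c, x, z, y, hc0, hy, hxz, hv, h, he⟩ := hrep t ht.1
      have h0 : v t (some (i, 0)) = c * (s i * z ^ 5) := by
        rw [hv]; simp [mm]
      have h1 : v t (some (i, 1)) = c * (s i * x * z ^ 4) := by
        rw [hv]; simp [mm]
      have hn : v t none = c * y := by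
        rw [hv]; simp [mm]
      have hz : z ≠ 0 := by
        rintro rfl
        apply ht.2
        rw [h0]; simp
      have hX : v t (some (i, 1)) / v t (some (i, 0)) = x / z := by
        rw [h0, h1]; field_simp
      have hY : v t none / (v t (some (i, 0)) / s i) = y / z ^ 5 := by
        rw [h0, hn]; field_simp
      have hmm : mm s x z y = z ^ 5 • mm s (x / z) 1 (y / z ^ 5) := by
        rw [← mm_scale]; congr 1 <;> field_simp
      have hGG : GG s x z = z ^ 20 * GG s (x / z) 1 := by
        rw [← GG_scale]; congr 1 <;> field_simp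
      simp only [hX, hY]
      refine ⟨Or.inr one_ne_zero, ?_, ?_⟩
      · rw [div_pow, hy, hGG]; field_simp
      · have hne : mm s (x / z) 1 (y / z ^ 5) ≠ 0 := by
          intro h2
          rw [h2, smul_zero] at hmm
          exact h hmm
        refine ⟨hne, ?_⟩
        rw [he, Projectivization.mk_eq_mk_iff']
        exact ⟨z ^ 5, hmm.symm⟩
  · push Not at hcase
    have hcase5 : v t₀ (some (i, 5)) ≠ 0 := by
      obtain ⟨c, x, z, y, hc0, hy, hxz, hv, h, he⟩ := hrep t₀ htW
      have h0 : v t₀ (some (i, 0)) = c * (s i * z ^ 5) := by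
        rw [hv]; simp [mm]
      have h5 : v t₀ (some (i, 5)) = c * (s i * x ^ 5) := by
        rw [hv]; simp [mm]
      rw [h0] at hcase
      have hz : z = 0 := by
        by_contra hz
        exact (mul_ne_zero hc0 (mul_ne_zero hi' (pow_ne_zero 5 hz))) hcase
      have hx : x ≠ 0 := by
        rcases hxz with h | h
        · exact h
        · exact absurd hz h
      rw [h5]
      exact mul_ne_zero hc0 (mul_ne_zero hi' (pow_ne_zero 5 hx))
    refine ⟨W ∩ {t | v t (some (i, 5)) ≠ 0}, fun _ => 1,
      fun t => v t (some (i, 4)) / v t (some (i, 5)),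
      fun t => v t none / (v t (some (i, 5)) / s i), hopen _, ⟨htW, hcase5⟩,
      differentiableOn_const _, ?_, ?_, ?_⟩
    · intro t ht
      exact ((hvc _ t ht.1).div (hvc _ t ht.1) ht.2).differentiableWithinAt
    · intro t ht
      exact ((hvc _ t ht.1).div ((hvc _ t ht.1).div_const _)
        (div_ne_zero ht.2 hi')).differentiableWithinAt
    · intro t ht
      obtain ⟨c, x, z, y, hc0, hy, hxz, hv, h, he⟩ := hrep t ht.1
      have h0 : v t (some (i, 5)) = c * (s i * x ^ 5) := by
        rw [hv]; simp [mm]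
      have h1 : v t (some (i, 4)) = c * (s i * x ^ 4 * z) := by
        rw [hv]; simp [mm]
      have hn : v t none = c * y := by
        rw [hv]; simp [mm]
      have hx : x ≠ 0 := by
        rintro rfl
        apply ht.2
        rw [h0]; simp
      have hX : v t (some (i, 4)) / v t (some (i, 5)) = z / x := by
        rw [h0, h1]; field_simp
      have hY : v t none / (v t (some (i, 5)) / s i) = y / x ^ 5 := by
        rw [h0, hn]; field_simp
      have hmm : mm s x z y = x ^ 5 • mm s 1 (z / x) (y / x ^ 5) := by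
        rw [← mm_scale]; congr 1 <;> field_simp
      have hGG : GG s x z = x ^ 20 * GG s 1 (z / x) := by
        rw [← GG_scale]; congr 1 <;> field_simp
      simp only [hX, hY]
      refine ⟨Or.inl one_ne_zero, ?_, ?_⟩
      · rw [div_pow, hy, hGG]; field_simp
      · have hne : mm s 1 (z / x) (y / x ^ 5) ≠ 0 := by
          intro h2
          rw [h2, smul_zero] at hmm
          exact h hmm
        refine ⟨hne, ?_⟩
        rw [he, Projectivization.mk_eq_mk_iff']
        exact ⟨x ^ 5, hmm.symm⟩

/-- the base coordinates of a point are determined up to a factor -/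
theorem xz_prop {s : Fin 3 → ℂ} (hs : s ≠ 0) {x z y x' z' y' : ℂ} (hxz : x ≠ 0 ∨ z ≠ 0)
    (h : mm s x z y ≠ 0) (h' : mm s x' z' y' ≠ 0) 
    (he : Projectivization.mk ℂ (mm s x z y) h = Projectivization.mk ℂ (mm s x' z' y') h') :
    ∃ e : ℂ, x' = e * x ∧ z' = e * z := by
  obtain ⟨i, hi⟩ := Function.ne_iff.1 hs
  have hi' : s i ≠ 0 := hi
  rw [eq_comm, Projectivization.mk_eq_mk_iff'] at he
  obtain ⟨c, hc⟩ := he
  have h0 : c * (s i * z ^ 5) = s i * z' ^ 5 := by
    have := congrFun hc (some (i, 0)); simpa [mm] using this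
  have h1 : c * (s i * x * z ^ 4) = s i * x' * z' ^ 4 := by
    have := congrFun hc (some (i, 1)); simpa [mm] using this
  have h5 : c * (s i * x ^ 5) = s i * x' ^ 5 := by
    have := congrFun hc (some (i, 5)); simpa [mm] using this
  have h4 : c * (s i * x ^ 4 * z) = s i * x' ^ 4 * z' := by
    have := congrFun hc (some (i, 4)); simpa [mm] using this
  have hc0 : c ≠ 0 := by
    rintro rfl
    rw [zero_smul] at hc
    exact h' hc.symm
  by_cases hz : z = 0
  · have hx : x ≠ 0 := by
      rcases hxz with h | h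
      · exact h
      · exact absurd hz h
    refine ⟨x' / x, by field_simp, ?_⟩
    subst hz
    have hz' : z' = 0 := by
      have h6 : s i * z' ^ 5 = 0 := by rw [← h0]; simp
      rcases mul_eq_zero.1 h6 with h6 | h6
      · exact absurd h6 hi'
      · exact pow_eq_zero_iff (by norm_num) |>.1 h6
    rw [hz', mul_zero]
  · have hz' : z' ≠ 0 := by
      rintro rfl
      apply mul_ne_zero hc0 (mul_ne_zero hi' (pow_ne_zero 5 hz))
      rw [h0]; simp
    refine ⟨z' / z, ?_, by field_simp⟩
    have h6 : z' ^ 4 * x' * z = z' ^ 4 * (z' * x) := by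
      have h7 : s i * (z ^ 4 * (z' ^ 4 * x' * z)) = s i * (z ^ 4 * (z' ^ 4 * (z' * x))) := by
        linear_combination (x * z ^ 4) * h0 - z ^ 5 * h1
      exact mul_left_cancel₀ (pow_ne_zero 4 hz) (mul_left_cancel₀ hi' h7)
    have h8 : x' * z = z' * x := by
      have : z' ^ 4 * (x' * z) = z' ^ 4 * (z' * x) := by linear_combination h6
      exact mul_left_cancel₀ (pow_ne_zero 4 hz') this
    field_simp
    exact h8

/-- the coefficients -/
noncomputable def cc : Fin 3 → ℂ := ![1 + Complex.I, -2, 1 - Complex.I]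

theorem cc_ne (k : Fin 3) : cc k ≠ 0 := by
  fin_cases k
  · intro h
    have := congrArg Complex.re h
    simp [cc] at this
  · simp [cc]
  · intro h
    have := congrArg Complex.re h
    simp [cc] at this

theorem main : S_H4 := by
  intro hA4 hH2 hH3 s hs hs4 f hf hfs
  obtain ⟨κ, hκ, hfac⟩ := hH2 s hs hs4
  have hI : (1 - Complex.I : ℂ) ≠ 0 := by
    intro h
    have := congrArg Complex.re h
    simp at this
  have hI2 : Complex.I ^ 2 = -1 := Complex.I_sq
  choose X Z Y hY hne he using hfs
  have hXZ : ∀ t, X t ≠ 0 ∨ Z t ≠ 0 := fun t => (ne_of_mm_ne (hY t) (hne t)).2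
  -- the linear forms
  set L : ℂ → ℂ → Fin 3 → ℂ := fun x z k => cc k * (x - Complex.I ^ (k : ℕ) * κ * z) with hL
  have hLne : ∀ x z : ℂ, (x ≠ 0 ∨ z ≠ 0) → L x z ≠ 0 := by
    intro x z hxz h0
    have g0 : x - κ * z = 0 := by
      have h1 := congrFun h0 0
      simp only [hL, Pi.zero_apply] at h1
      have := (mul_eq_zero.1 h1).resolve_left (cc_ne 0)
      simpa using this
    have g1 : x - Complex.I * κ * z = 0 := by
      have h1 := congrFun h0 1
      simp only [hL, Pi.zero_apply] at h1
      have := (mul_eq_zero.1 h1).resolve_left (cc_ne 1)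
      simpa using this
    have g2 : (1 - Complex.I) * κ * z = 0 := by linear_combination g1 - g0
    have hz : z = 0 := by
      rcases mul_eq_zero.1 g2 with h | h
      · exact absurd h (mul_ne_zero hI hκ)
      · exact h
    have hx : x = 0 := by rw [hz] at g0; linear_combination g0
    rcases hxz with h | h
    · exact h hx
    · exact h hz
  have hLmul : ∀ e x z : ℂ, L (e * x) (e * z) = e • L x z := by
    intro e x z
    funext k
    simp only [hL, Pi.smul_apply, smul_eq_mul]; ring
  set F : ℂ → PS (Fin 3) := fun t => Projectivization.mk ℂ (L (X t) (Z t)) (hLne _ _ (hXZ t))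
    with hF
  have hFc : ∀ t, F t = F 0 := by
    apply hA4
    intro t₀
    obtain ⟨W, x, z, y, hW, htW, hx, hz, hy, hxyz⟩ := local_rep hs hf (fun t => ⟨X t, Z t, Y t,
      hY t, hne t, he t⟩) t₀
    have hxa : AnalyticAt ℂ x t₀ := hx.analyticAt (hW.mem_nhds htW)
    have hza : AnalyticAt ℂ z t₀ := hz.analyticAt (hW.mem_nhds htW)
    have hya : AnalyticAt ℂ y t₀ := hy.analyticAt (hW.mem_nhds htW)
    have hroot : ∀ k : Fin 3, ∃ r : ℂ → ℂ, AnalyticAt ℂ r t₀ ∧
        ∀ᶠ t in 𝓝 t₀, r t ^ 4 = x t - Complex.I ^ (k : ℕ) * κ * z t := by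
      intro k
      obtain ⟨m, C, hm, hC, hfk, hCk⟩ := hfac k
      have hu : AnalyticAt ℂ (fun t => x t - Complex.I ^ (k : ℕ) * κ * z t) t₀ :=
        hxa.sub (analyticAt_const.mul hza)
      have hw : AnalyticAt ℂ (fun t => C (x t) (z t)) t₀ := by
        have h1 : DifferentiableOn ℂ (fun t => C (x t) (z t)) W := by
          have h2 : DifferentiableOn ℂ (fun t => (x t, z t)) W := hx.prodMk hz
          exact hC.comp_differentiableOn h2
        exact h1.analyticAt (hW.mem_nhds htW)
      refine hH3 _ y _ t₀ m hu hya hw hm ?_ ?_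
      · filter_upwards [hW.mem_nhds htW] with t ht
        rw [(hxyz t ht).2.1, hfk]
      · intro h0
        have h1 : x t₀ = Complex.I ^ (k : ℕ) * κ * z t₀ := sub_eq_zero.1 h0
        have h2 : z t₀ ≠ 0 := by
          intro h3
          rcases (hxyz t₀ htW).1 with h4 | h4
          · apply h4; rw [h1, h3, mul_zero]
          · exact h4 h3
        have h3 := hCk (z t₀) h2
        rw [← h1] at h3
        exact h3
    choose r hra hr4 using hroot
    have hd : ∀ k : Fin 3, ∃ d : ℂ, d ^ 4 = cc k := fun k =>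
      IsAlgClosed.exists_pow_nat_eq (cc k) (by norm_num)
    choose d hd4 using hd
    have hev : ∀ᶠ t in 𝓝 t₀, (∀ k, AnalyticAt ℂ (r k) t) ∧
        (∀ k : Fin 3, r k t ^ 4 = x t - Complex.I ^ (k : ℕ) * κ * z t) ∧ t ∈ W := by
      have h1 := eventually_all.2 fun k => (hra k).eventually_analyticAt
      have h2 := eventually_all.2 hr4
      filter_upwards [h1, h2, hW.mem_nhds htW] with t g1 g2 g3 using ⟨g1, g2, g3⟩
    obtain ⟨V, hV, hVo, htV⟩ := _root_.eventually_nhds_iff.1 hev
    refine ⟨V, fun t k => d k * r k t, hVo, htV, ?_, ?_⟩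
    · intro t ht
      apply DifferentiableAt.differentiableWithinAt
      rw [differentiableAt_pi]
      intro k
      exact (((hV t ht).1 k).differentiableAt).const_mul _
    · intro t ht
      obtain ⟨-, g2, g3⟩ := hV t ht
      obtain ⟨h1, h2, h3, h4⟩ := hxyz t g3
      have h5 : (fun k => (d k * r k t) ^ 4) = L (x t) (z t) := by
        funext k
        rw [mul_pow, hd4, g2]
      have h6 : (fun k => (d k * r k t) ^ 4) ≠ 0 := by rw [h5]; exact hLne _ _ h1
      refine ⟨?_, ?_, h6, ?_⟩
      · intro h0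
        apply h6
        funext k
        have := congrFun h0 k
        simp only [Pi.zero_apply] at this
        rw [this]; simp
      · have h7 : ∀ k, (d k * r k t) ^ 4 = L (x t) (z t) k := fun k => congrFun h5 k
        simp only [h7, hL, Fin.sum_univ_three, cc]
        simp
        ring
      · obtain ⟨e, he1, he2⟩ := xz_prop hs h1 h3 (hne t) (by rw [← h4, ← he t])
        simp only [hF]
        rw [Projectivization.mk_eq_mk_iff']
        refine ⟨e, ?_⟩
        rw [h5, he1, he2, hLmul]
  -- the base point is constant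
  have hbase : ∀ t, ∃ e : ℂ, e ≠ 0 ∧ X t = e * X 0 ∧ Z t = e * Z 0 := by
    intro t
    have h1 := hFc t
    simp only [hF] at h1
    rw [Projectivization.mk_eq_mk_iff'] at h1
    obtain ⟨e, h1⟩ := h1
    have g0 : e * (X 0 - κ * Z 0) = X t - κ * Z t := by
      have h2 := congrFun h1 0
      simp only [hL, Pi.smul_apply, smul_eq_mul] at h2
      have h3 : cc 0 * (e * (X 0 - κ * Z 0)) = cc 0 * (X t - κ * Z t) := by
        simp only [Fin.val_zero, pow_zero] at h2
        linear_combination h2
      exact mul_left_cancel₀ (cc_ne 0) h3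
    have g1 : e * (X 0 - Complex.I * κ * Z 0) = X t - Complex.I * κ * Z t := by
      have h2 := congrFun h1 1
      simp only [hL, Pi.smul_apply, smul_eq_mul] at h2
      have h3 : cc 1 * (e * (X 0 - Complex.I * κ * Z 0)) = cc 1 * (X t - Complex.I * κ * Z t) := by
        simp only [Fin.val_one, pow_one] at h2
        linear_combination h2
      exact mul_left_cancel₀ (cc_ne 1) h3
    have hz : Z t = e * Z 0 := by
      have h2 : ((1 - Complex.I) * κ) * Z t = ((1 - Complex.I) * κ) * (e * Z 0) := by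
        linear_combination g0 - g1
      exact mul_left_cancel₀ (mul_ne_zero hI hκ) h2
    have hx : X t = e * X 0 := by
      rw [hz] at g0; linear_combination -g0
    refine ⟨e, ?_, hx, hz⟩
    rintro rfl
    rcases hXZ t with h | h
    · apply h; rw [hx, zero_mul]
    · apply h; rw [hz, zero_mul]
  -- the values of `f`
  have hval : ∀ t, ∃ w : ℂ, w ^ 4 = GG s (X 0) (Z 0) ∧ PhiP (f t) = prj (mm s (X 0) (Z 0) w) := by
    intro t
    obtain ⟨e, he0, hx, hz⟩ := hbase t
    have hmm : mm s (X t) (Z t) (Y t) = e ^ 5 • mm s (X 0) (Z 0) (Y t / e ^ 5) := by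
      rw [← mm_scale, ← hx, ← hz]; congr 1; field_simp
    refine ⟨Y t / e ^ 5, ?_, ?_⟩
    · have h1 := hY t
      rw [hx, hz, GG_scale] at h1
      rw [div_pow, h1]; field_simp
    · rw [he t, PhiP_mk, hmm, prj_smul (pow_ne_zero 5 he0)]
  have hfin : {w : ℂ | w ^ 4 = GG s (X 0) (Z 0)}.Finite := by
    refine Set.Finite.subset (Polynomial.nthRoots 4 (GG s (X 0) (Z 0))).toFinset.finite_toSet ?_
    intro w hw
    simp only [Finset.mem_coe, Multiset.mem_toFinset]
    exact (Polynomial.mem_nthRoots (by norm_num)).2 hw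
  have hfin2 : (range fun t => PhiP (f t)).Finite := by
    refine (hfin.image fun w => prj (mm s (X 0) (Z 0) w)).subset ?_
    rintro _ ⟨t, rfl⟩
    obtain ⟨w, hw, he⟩ := hval t
    exact ⟨w, hw, he.symm⟩
  have hcont : Continuous fun t => PhiP (f t) := by
    rw [continuous_iff_continuousAt]
    intro t
    exact (contDiffAt_of_holMap hf (mem_univ t)).continuousAt
  have hlc : IsLocallyConstant f := by
    rw [IsLocallyConstant.iff_eventually_eq]
    intro t₀
    have h1 : ((range fun t => PhiP (f t)) \ {PhiP (f t₀)}).Finite := hfin2.subset sdiff_subset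
    have h2 : IsOpen ((range fun t => PhiP (f t)) \ {PhiP (f t₀)})ᶜ := h1.isClosed.isOpen_compl
    have h3 : ∀ᶠ t in 𝓝 t₀, PhiP (f t) ∈ ((range fun t => PhiP (f t)) \ {PhiP (f t₀)})ᶜ :=
      hcont.continuousAt.eventually (h2.mem_nhds (by simp))
    filter_upwards [h3] with t ht
    by_contra hcon
    exact ht ⟨⟨t, rfl⟩, fun h => hcon (PhiP_injective h)⟩
  intro t
  exact hlc.apply_eq_of_preconnectedSpace t 0

end Pool.Agent.W424.DH4
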