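import Pool.Agent.W259.Nona.Stmts

set_option autoImplicit false

/-! the node inequality -/

open Real

namespace Pool.Agent.W424.NO2

open Pool.Agent.W259.Nona

/-- the algebraic core; `x`, `y`, `z` are the cotangents -/
theorem coreA {x y z Gx Gy : ℝ} (hs : x * y + y * z + z * x = 1) (hxy : x ≤ y)
    (hxy0 : 0 < x + y) (hx8 : -0.8 ≤ x) (hz : 1.19175 ≤ z)
    (hGy : 0.13046 - 0.109472 * y ≤ Gy)
    (hGx : (0.1763 ≤ x ∧ 0.13046 - 0.109472 * x ≤ Gx) ∨
      (x ≤ 0.176332 ∧ 0.234915 - 0.701865 * x - 0.000005 ≤ Gx)) : 0.1778 ≤ Gx + Gy := by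
  have h1 : (x + 1.19175) * (y + 1.19175) ≤ 1 + 1.19175 ^ 2 := by
    nlinarith [mul_nonneg hxy0.le (sub_nonneg.2 hz)]
  rcases hGx with ⟨h2, h3⟩ | ⟨h2, h3⟩
  · have h4 : 0 ≤ (x - 0.1763) * (y - 0.1763) := mul_nonneg (by linarith) (by linarith)
    nlinarith
  · have hpos : 0 < x + 1.19175 := by linarith
    have h5 : 0 ≤ (0.176332 - x) * (x + 0.8) := mul_nonneg (by linarith) (by linarith)
    have key : 0.701865 * x + 0.109472 * y ≤ 0.18757 := by
      have : (0.701865 * x + 0.109472 * y) * (x + 1.19175) ≤ 0.18757 * (x + 1.19175) := by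
        nlinarith
      exact le_of_mul_le_mul_right this hpos
    linarith

theorem coreB {x y z Gx Gy Gz : ℝ} (hs : x * y + y * z + z * x = 1) (hxy : x ≤ y) (hxz : x ≤ z)
    (hx8 : -0.8 ≤ x) (hy : y ≤ 1.19175) (hz : z ≤ 1.19175)
    (hGy : 0.13046 - 0.109472 * y ≤ Gy) (hGz : 0.13046 - 0.109472 * z ≤ Gz)
    (hGx : (0.1763 ≤ x ∧ 0.13046 - 0.109472 * x ≤ Gx) ∨
      (x ≤ 0.176332 ∧ 0.234915 - 0.701865 * x - 0.000005 ≤ Gx)) : 0.1778 ≤ Gx + Gy + Gz := by
  have h1 : (x + 1.19175) * (y + z) ≤ 1 + 1.19175 ^ 2 := by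
    nlinarith [mul_nonneg (sub_nonneg.2 hy) (sub_nonneg.2 hz)]
  have hpos : 0 < x + 1.19175 := by linarith
  rcases hGx with ⟨h2, h3⟩ | ⟨h2, h3⟩
  · have hx0 : 0 ≤ x := by linarith
    have h4 : 3 * x ^ 2 ≤ 1 := by
      nlinarith [mul_nonneg hx0 (sub_nonneg.2 hxy), mul_nonneg hx0 (sub_nonneg.2 hxz),
        mul_nonneg (sub_nonneg.2 hxy) (sub_nonneg.2 hxz)]
    have h5 : x ≤ 0.57736 := by nlinarith
    have h6 : 0 ≤ (0.57736 - x) * (x - 0.1763) := mul_nonneg (by linarith) (by linarith)
    have key : x + (y + z) ≤ 1.951 := by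
      have : (x + (y + z)) * (x + 1.19175) ≤ 1.951 * (x + 1.19175) := by nlinarith
      exact le_of_mul_le_mul_right this hpos
    linarith
  · have h5 : 0 ≤ (0.176332 - x) * (x + 0.8) := mul_nonneg (by linarith) (by linarith)
    have key : 0.701865 * x + 0.109472 * (y + z) ≤ 0.31803 := by
      have : (0.701865 * x + 0.109472 * (y + z)) * (x + 1.19175) ≤ 0.31803 * (x + 1.19175) := by
        nlinarith
      exact le_of_mul_le_mul_right this hpos
    linarith

/-- the first constant -/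
noncomputable def k1 : ℝ := 2 * tan (π / 9) ^ 2 * sin (2 * π / 9)

/-- the second constant -/
noncomputable def k2 : ℝ := 2 * sin (2 * π / 9) ^ 2 * sin (π / 3) / cos (π / 9) ^ 2

theorem k1_pos : 0 < k1 := by
  unfold k1
  have := t9_pos
  have : 0 < sin (2 * π / 9) := by linarith [s29_gt]
  positivity

theorem k2_pos : 0 < k2 := by
  unfold k2
  have := c9_pos
  have : 0 < sin (2 * π / 9) := by linarith [s29_gt]
  have : 0 < sin (π / 3) := by linarith [s39_gt]
  positivity

theorem k1_bd : 0.170305 ≤ k1 ∧ k1 ≤ 0.170307 := by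
  unfold k1
  have h1 := t9_gt; have h2 := t9_lt; have h3 := s29_gt; have h4 := s29_lt
  have e1 : 0.1324741 ≤ tan (π / 9) ^ 2 := by nlinarith
  have e2 : tan (π / 9) ^ 2 ≤ 0.132475 := by nlinarith
  constructor <;> nlinarith

theorem k2_bd : 0.810443 ≤ k2 ∧ k2 ≤ 0.810448 := by
  unfold k2
  have h1 := c9_gt; have h2 := c9_lt; have h3 := s29_gt; have h4 := s29_lt
  have h5 := s39_gt; have h6 := s39_lt; have h7 := c9_pos
  have e1 : 0.413175 ≤ sin (2 * π / 9) ^ 2 := by nlinarith
  have e2 : sin (2 * π / 9) ^ 2 ≤ 0.4131765 := by nlinarith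
  have f1 : 0.8830222 ≤ cos (π / 9) ^ 2 := by nlinarith
  have f2 : cos (π / 9) ^ 2 ≤ 0.88302225 := by nlinarith
  have g1 : 0.71563945 ≤ 2 * sin (2 * π / 9) ^ 2 * sin (π / 3) := by nlinarith
  have g2 : 2 * sin (2 * π / 9) ^ 2 * sin (π / 3) ≤ 0.7156433 := by nlinarith
  constructor
  · rw [le_div_iff₀ (by positivity)]; nlinarith
  · rw [div_le_iff₀ (by positivity)]; nlinarith

/-- the two branches agree at `4 pi / 9` -/
theorem branch : k2 * sin (π / 9) = k1 * (sin (4 * π / 9) + sin (2 * π / 9)) := by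
  unfold k1 k2
  have hc := c9_pos.ne'
  have e1 : sin (4 * π / 9) + sin (2 * π / 9) = 2 * sin (π / 3) * cos (π / 9) := by
    rw [show 4 * π / 9 = π / 3 + π / 9 by ring, show 2 * π / 9 = π / 3 - π / 9 by ring,
      sin_add, sin_sub]
    ring
  rw [e1, tan_eq_sin_div_cos, s29_eq]
  field_simp

theorem sin_sub_div {α c : ℝ} (hs : sin α ≠ 0) :
    sin (α - c) / sin α = cos c - sin c * (cos α / sin α) := by
  rw [sin_sub]; field_simp

theorem GG_nonneg {α : ℝ} (h0 : 0 < α) (h1 : α ≤ 1.93) : 0 ≤ GG α := by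
  have hpi := pi_gt_d6
  have hpi' := pi_lt_d6
  have hs : 0 < sin α := sin_pos_of_pos_of_lt_pi h0 (by linarith)
  unfold GG
  split_ifs with h2 h3
  · exact le_rfl
  · push Not at h2
    have := k1_pos
    have : 0 ≤ sin (α - 2 * π / 9) := sin_nonneg_of_nonneg_of_le_pi (by linarith) (by linarith)
    unfold k1 at *
    positivity
  · push Not at h3
    change 0 ≤ k2 * sin (α - π / 3) / sin α - k1
    have hsub : sin (α - 4 * π / 9) ≥ 0 :=
      sin_nonneg_of_nonneg_of_le_pi (by linarith) (by linarith)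
    -- `sin (α - π/3) / sin α ≥ sin (π/9) / sin (4π/9)`
    have h80 : 0 < sin (4 * π / 9) := by linarith [s49_gt]
    have key : sin (π / 9) / sin (4 * π / 9) ≤ sin (α - π / 3) / sin α := by
      rw [div_le_div_iff₀ h80 hs]
      have e1 : sin (α - π / 3) * sin (4 * π / 9) - sin (π / 9) * sin α =
          sin (π / 3) * sin (α - 4 * π / 9) := by
        rw [sin_sub α (π / 3), sin_sub α (4 * π / 9),
          show π / 9 = 4 * π / 9 - π / 3 by ring, sin_sub (4 * π / 9) (π / 3)]
        ring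
      have : 0 ≤ sin (π / 3) * sin (α - 4 * π / 9) :=
        mul_nonneg (by linarith [s39_gt]) hsub
      linarith
    have h4 : k1 ≤ k2 * (sin (π / 9) / sin (4 * π / 9)) := by
      rw [← mul_div_assoc, le_div_iff₀ h80, branch]
      have := k1_pos
      have : 0 < sin (2 * π / 9) := by linarith [s29_gt]
      nlinarith
    have h5 := mul_le_mul_of_nonneg_left key k2_pos.le
    rw [mul_div_assoc]
    linarith

theorem GG_ge1 {α : ℝ} (h0 : 0 < α) (h1 : α ≤ 1.93) :
    k1 * (cos (2 * π / 9) - sin (2 * π / 9) * (cos α / sin α)) ≤ GG α := by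
  have hpi := pi_gt_d6
  have hpi' := pi_lt_d6
  have hs : 0 < sin α := sin_pos_of_pos_of_lt_pi h0 (by linarith)
  rw [← sin_sub_div hs.ne']
  unfold GG
  split_ifs with h2 h3
  · have : 0 ≤ sin (2 * π / 9 - α) := sin_nonneg_of_nonneg_of_le_pi (by linarith) (by linarith)
    rw [← neg_sub, sin_neg, neg_div, mul_neg]
    have := k1_pos
    have : 0 ≤ k1 * (sin (2 * π / 9 - α) / sin α) := by positivity
    linarith
  · exact le_of_eq (mul_div_assoc _ _ _).symm
  · push Not at h3
    change _ ≤ k2 * sin (α - π / 3) / sin α - k1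
    have hsub : 0 ≤ sin (α - 4 * π / 9) :=
      sin_nonneg_of_nonneg_of_le_pi (by linarith) (by linarith)
    have h80 : 0 < sin (4 * π / 9) := by linarith [s49_gt]
    have e1 : sin (α - π / 3) * sin (4 * π / 9) = sin (π / 9) * sin α +
        sin (π / 3) * sin (α - 4 * π / 9) := by
      rw [sin_sub α (π / 3), sin_sub α (4 * π / 9),
        show π / 9 = 4 * π / 9 - π / 3 by ring, sin_sub (4 * π / 9) (π / 3)]
      ring
    have e2 : sin (α - 2 * π / 9) * sin (4 * π / 9) = sin (2 * π / 9) * sin α +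
        sin (2 * π / 9) * sin (α - 4 * π / 9) := by
      have e3 : sin (4 * π / 9 - 2 * π / 9) = sin (2 * π / 9) := by congr 1; ring
      have e4 : sin (α - 2 * π / 9) * sin (4 * π / 9) = sin (4 * π / 9 - 2 * π / 9) * sin α +
          sin (2 * π / 9) * sin (α - 4 * π / 9) := by
        rw [sin_sub α (2 * π / 9), sin_sub α (4 * π / 9), sin_sub (4 * π / 9) (2 * π / 9)]
        ring
      rw [e4, e3]
    have hb := branch
    rw [le_sub_iff_add_le]
    have goal2 : (k1 * sin (α - 2 * π / 9) + k1 * sin α) * sin (4 * π / 9) ≤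
        (k2 * sin (α - π / 3)) * sin (4 * π / 9) := by
      have l1 : (k1 * sin (α - 2 * π / 9) + k1 * sin α) * sin (4 * π / 9) =
          k1 * (sin (4 * π / 9) + sin (2 * π / 9)) * sin α +
          k1 * sin (2 * π / 9) * sin (α - 4 * π / 9) := by
        linear_combination k1 * e2
      have l2 : (k2 * sin (α - π / 3)) * sin (4 * π / 9) = k2 * sin (π / 9) * sin α +
          k2 * sin (π / 3) * sin (α - 4 * π / 9) := by
        linear_combination k2 * e1
      rw [l1, l2, hb]
      have l3 : k1 * sin (2 * π / 9) ≤ k2 * sin (π / 3) := by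
        have a1 := k1_bd.2
        have a2 := k2_bd.1
        have a3 := s29_lt
        have a4 := s39_gt
        have a5 := k1_pos
        nlinarith
      have := mul_le_mul_of_nonneg_right l3 hsub
      linarith
    have goal3 := le_of_mul_le_mul_right goal2 h80
    calc k1 * (sin (α - 2 * π / 9) / sin α) + k1
        = (k1 * sin (α - 2 * π / 9) + k1 * sin α) / sin α := by field_simp
      _ ≤ (k2 * sin (α - π / 3)) / sin α := div_le_div_of_nonneg_right goal3 hs.le

theorem GG_num1 {α : ℝ} (h0 : 0 < α) (h1 : α ≤ 1.93) (hx : 0 ≤ cos α / sin α) :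
    0.13046 - 0.109472 * (cos α / sin α) ≤ GG α := by
  refine le_trans ?_ (GG_ge1 h0 h1)
  generalize cos α / sin α = x at *
  have h1 := k1_bd.1; have h2 := k1_bd.2; have h3 := c29_gt; have h4 := s29_lt; have h5 := s29_gt
  have e1 : 0.13046 ≤ k1 * cos (2 * π / 9) := by nlinarith
  have e2 : k1 * sin (2 * π / 9) ≤ 0.109472 := by nlinarith
  nlinarith

/-- the facts about the largest angle -/
theorem largest {α : ℝ} (h0 : 0 < α) (h1 : α ≤ 1.93) :
    -0.8 ≤ cos α / sin α ∧ ((0.1763 ≤ cos α / sin α ∧ 0.13046 - 0.109472 * (cos α / sin α) ≤ GG α) ∨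
      (cos α / sin α ≤ 0.176332 ∧ 0.234915 - 0.701865 * (cos α / sin α) - 0.000005 ≤ GG α)) := by
  have hpi := pi_gt_d6
  have hpi' := pi_lt_d6
  have hs : 0 < sin α := sin_pos_of_pos_of_lt_pi h0 (by linarith)
  have h80 : 0 < sin (4 * π / 9) := by linarith [s49_gt]
  have hlow : -0.4 ≤ cos α / sin α := by
    rcases le_or_gt 0 (cos α) with hc | hc
    · have : 0 ≤ cos α / sin α := by positivity
      linarith
    · have hα : π / 2 < α := by
        by_contra hcon
        push Not at hcon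
        exact absurd (cos_nonneg_of_mem_Icc ⟨by linarith, hcon⟩) (not_le.2 hc)
      have e1 : cos α = -sin (α - π / 2) := by rw [sin_sub_pi_div_two]; ring
      have e2 : sin α = cos (α - π / 2) := by rw [cos_sub_pi_div_two]
      have e3 : sin (α - π / 2) ≤ α - π / 2 := sin_le (by linarith)
      have e4 := one_sub_sq_div_two_le_cos (x := α - π / 2)
      have e5 : (α - π / 2) ≤ 0.3593 := by linarith
      have e6 : 0.93 ≤ cos (α - π / 2) := by nlinarith
      rw [le_div_iff₀ hs, e1, e2]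
      linarith
  refine ⟨by linarith, ?_⟩
  rcases le_or_gt α (4 * π / 9) with h2 | h2
  · left
    have hx : 0.1763 ≤ cos α / sin α := by
      have e1 : 0 ≤ sin (4 * π / 9 - α) :=
        sin_nonneg_of_nonneg_of_le_pi (by linarith) (by linarith)
      rw [sin_sub] at e1
      rw [le_div_iff₀ hs]
      have e2 := c49_gt
      have e3 := s49_lt
      have e4 : 0.1763 * sin (4 * π / 9) ≤ cos (4 * π / 9) := by nlinarith
      have e5 : (0.1763 * sin α) * sin (4 * π / 9) ≤ cos α * sin (4 * π / 9) := by nlinarith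
      exact le_of_mul_le_mul_right e5 h80
    exact ⟨hx, GG_num1 h0 h1 (by linarith)⟩
  · right
    have hx : cos α / sin α ≤ 0.176332 := by
      have e1 : 0 ≤ sin (α - 4 * π / 9) :=
        sin_nonneg_of_nonneg_of_le_pi (by linarith) (by linarith)
      rw [sin_sub] at e1
      rw [div_le_iff₀ hs]
      have e2 := c49_lt
      have e3 := s49_gt
      have e4 : cos (4 * π / 9) ≤ 0.176332 * sin (4 * π / 9) := by nlinarith
      have e5 : cos α * sin (4 * π / 9) ≤ (0.176332 * sin α) * sin (4 * π / 9) := by nlinarith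
      exact le_of_mul_le_mul_right e5 h80
    refine ⟨hx, ?_⟩
    have hGG : GG α = k2 * (1 / 2 - sin (π / 3) * (cos α / sin α)) - k1 := by
      unfold GG
      rw [if_neg (by linarith), if_neg (by linarith)]
      change k2 * sin (α - π / 3) / sin α - k1 = _
      rw [mul_div_assoc, sin_sub_div hs.ne', cos_pi_div_three]
    rw [hGG]
    generalize cos α / sin α = x at *
    have a1 := k1_bd.2; have a2 := k2_bd.1; have a3 := k2_bd.2; have a4 := s39_gt; have a5 := s39_lt
    have b1 : 0.70186 ≤ k2 * sin (π / 3) := by nlinarith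
    have b2 : k2 * sin (π / 3) ≤ 0.70187 := by nlinarith
    have b3 : k2 * sin (π / 3) * x ≤ 0.701865 * x + 0.000004 := by
      rcases le_or_gt 0 x with hx0 | hx0
      · nlinarith
      · nlinarith
    nlinarith

theorem cot_rel {α β γ : ℝ} (ha : 0 < sin α) (hb : 0 < sin β) (hc : 0 < sin γ)
    (h : α + β + γ = π) : cos α / sin α * (cos β / sin β) + cos β / sin β * (cos γ / sin γ) +
      cos γ / sin γ * (cos α / sin α) = 1 := by
  have e1 : γ = π - (α + β) := by linarith
  have e2 : sin γ = sin α * cos β + cos α * sin β := by rw [e1, sin_pi_sub, sin_add]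
  have e3 : cos γ = sin α * sin β - cos α * cos β := by rw [e1, cos_pi_sub, cos_add]; ring
  have e4 : sin α * cos β + cos α * sin β ≠ 0 := by rw [← e2]; exact hc.ne'
  rw [e2, e3]
  field_simp
  ring

theorem cot_mono {α β : ℝ} (ha : 0 < sin α) (hb : 0 < sin β) (h : β ≤ α) (h2 : α - β ≤ π) :
    cos α / sin α ≤ cos β / sin β := by
  rw [div_le_div_iff₀ ha hb]
  have := sin_nonneg_of_nonneg_of_le_pi (sub_nonneg.2 h) h2
  rw [sin_sub] at this
  linarith

theorem cot_add_pos {α β : ℝ} (ha : 0 < sin α) (hb : 0 < sin β) (h0 : 0 < α + β) (h1 : α + β < π) :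
    0 < cos α / sin α + cos β / sin β := by
  have : cos α / sin α + cos β / sin β = sin (α + β) / (sin α * sin β) := by
    rw [sin_add]; field_simp; ring
  rw [this]
  have := sin_pos_of_pos_of_lt_pi h0 h1
  positivity

theorem core {α β γ : ℝ} (ha : 0 < α) (hb : 0 < β) (hc : 0 < γ) (ha1 : α ≤ 1.93) (hb1 : β ≤ 1.93)
    (hc1 : γ ≤ 1.93) (h : α + β + γ = π) (hab : β ≤ α) (hac : γ ≤ α) :
    0.1778 ≤ GG α + GG β + GG γ := by
  have hpi := pi_gt_d6
  have sa : 0 < sin α := sin_pos_of_pos_of_lt_pi ha (by linarith)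
  have sb : 0 < sin β := sin_pos_of_pos_of_lt_pi hb (by linarith)
  have sc : 0 < sin γ := sin_pos_of_pos_of_lt_pi hc (by linarith)
  have hrel := cot_rel sa sb sc h
  have hxy := cot_mono sa sb hab (by linarith)
  have hxz := cot_mono sa sc hac (by linarith)
  have pxy := cot_add_pos sa sb (by linarith) (by linarith)
  have pxz := cot_add_pos sa sc (by linarith) (by linarith)
  obtain ⟨h8, hG⟩ := largest ha ha1
  have gb := GG_num1 hb hb1 (by linarith)
  have gc := GG_num1 hc hc1 (by linarith)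
  have nb := GG_nonneg hb hb1
  have nc := GG_nonneg hc hc1
  rcases le_or_gt 1.19175 (cos γ / sin γ) with hz | hz
  · have := coreA hrel hxy pxy h8 hz gb hG
    linarith
  · rcases le_or_gt 1.19175 (cos β / sin β) with hy | hy
    · have := coreA (x := cos α / sin α) (y := cos γ / sin γ) (z := cos β / sin β)
        (by rw [← hrel]; ring) hxz pxz h8 hy gc hG
      linarith
    · exact coreB hrel hxy hxz h8 hy.le hz.le gb gc hG

theorem main : NodeStmt := by
  intro α β γ ha hb hc ha1 hb1 hc1 h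
  rcases le_total β α with h1 | h1
  · rcases le_total γ α with h2 | h2
    · exact core ha hb hc ha1 hb1 hc1 h h1 h2
    · have := core hc ha hb hc1 ha1 hb1 (by linarith) h2 (h1.trans h2)
      linarith
  · rcases le_total γ β with h2 | h2
    · have := core hb ha hc hb1 ha1 hc1 (by linarith) h1 h2
      linarith
    · have := core hc ha hb hc1 ha1 hb1 (by linarith) (h1.trans h2) h2
      linarith

end Pool.Agent.W424.NO2
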