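import Pool.Agent.W259.Nona.Stmts

set_option autoImplicit false

/-! the bound of the edge term -/

open Real

namespace Pool.Agent.W424.NO3

open Pool.Agent.W259.Nona

theorem A_bd : 0.283118 < 1 / (4 * cos (π / 9) ^ 2) ∧ 1 / (4 * cos (π / 9) ^ 2) < 0.28312 := by
  have h1 := c9_gt
  have h2 := c9_lt
  have h3 := c9_pos
  constructor
  · rw [lt_div_iff₀ (by positivity)]; nlinarith
  · rw [div_lt_iff₀ (by positivity)]; nlinarith

theorem B_bd : 0.521345 < 9 * tan (π / 9) / (2 * π) ∧ 9 * tan (π / 9) / (2 * π) < 0.52136 := by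
  have h1 := t9_gt
  have h2 := t9_lt
  have h3 := pi_gt_d6
  have h4 := pi_lt_d6
  constructor
  · rw [lt_div_iff₀ (by positivity)]; nlinarith
  · rw [div_lt_iff₀ (by positivity)]; nlinarith

theorem f_bd {y : ℝ} (h0 : 0 ≤ y) (h1 : y ≤ 0.34907) :
    |sin (2 * y) / (4 * cos (π / 9) ^ 2) - 9 * tan (π / 9) / (2 * π) * y| ≤ 0.0065 := by
  obtain ⟨a1, a2⟩ := A_bd
  obtain ⟨b1, b2⟩ := B_bd
  rw [div_eq_mul_one_div (sin (2 * y))]
  generalize 1 / (4 * cos (π / 9) ^ 2) = A at *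
  generalize 9 * tan (π / 9) / (2 * π) = B at *
  have hs := abs_le.1 (sin_bound (x := 2 * y) (by rw [abs_of_nonneg (by linarith)]; linarith))
  rw [abs_of_nonneg (by linarith : 0 ≤ 2 * y)] at hs
  have hy4 : 0 ≤ y ^ 4 := by positivity
  have hy5 : y ^ 5 ≤ 0.34907 * y ^ 4 := by nlinarith [mul_nonneg hy4 (sub_nonneg.2 h1)]
  have hs1 : sin (2 * y) ≤ 2 * y - 4 / 3 * y ^ 3 + 5 / 6 * y ^ 4 := by
    have := hs.2
    have e1 : (2 * y) ^ 5 / 100 = 0.32 * y ^ 5 := by ring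
    have e2 : (2 * y) ^ 3 / 6 = 4 / 3 * y ^ 3 := by ring
    rw [e1, e2] at this
    linarith
  have hs2 : 2 * y - 4 / 3 * y ^ 3 - 5 / 6 * y ^ 4 ≤ sin (2 * y) := by
    have := hs.1
    have e1 : (2 * y) ^ 5 / 100 = 0.32 * y ^ 5 := by ring
    have e2 : (2 * y) ^ 3 / 6 = 4 / 3 * y ^ 3 := by ring
    rw [e1, e2] at this
    linarith
  have hy2 : y ^ 2 ≤ 0.12185 := by nlinarith
  have hy3 : 0 ≤ y ^ 3 := by positivity
  have hb1 : 0 ≤ 2 * y - 4 / 3 * y ^ 3 + 5 / 6 * y ^ 4 := by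
    have : y ^ 3 = y * y ^ 2 := by ring
    nlinarith [mul_nonneg h0 (sub_nonneg.2 hy2), pow_nonneg h0 4]
  have hb2 : 0 ≤ 2 * y - 4 / 3 * y ^ 3 - 5 / 6 * y ^ 4 := by
    have e3 : y ^ 3 ≤ 0.12185 * y := by nlinarith [mul_nonneg h0 (sub_nonneg.2 hy2)]
    have e4 : y ^ 4 ≤ 0.12185 * y := by nlinarith [mul_nonneg h0 (sub_nonneg.2 hy2), mul_nonneg hy3 (sub_nonneg.2 h1)]
    nlinarith
  rw [abs_le]
  constructor
  · have g1 : 0.283118 * (2 * y - 4 / 3 * y ^ 3 - 5 / 6 * y ^ 4) ≤ sin (2 * y) * A := by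
      have : 0 ≤ sin (2 * y) := hb2.trans hs2
      nlinarith
    have g2 : B * y ≤ 0.52136 * y := mul_le_mul_of_nonneg_right b2.le h0
    have e3 : y ^ 3 ≤ 0.12185 * y := by nlinarith [mul_nonneg h0 (sub_nonneg.2 hy2)]
    have e4 : y ^ 4 ≤ 0.12185 * 0.12185 := by nlinarith [sq_nonneg y]
    nlinarith
  · have g1 : sin (2 * y) * A ≤ 0.28312 * (2 * y - 4 / 3 * y ^ 3 + 5 / 6 * y ^ 4) := by
      nlinarith
    have g2 : 0.521345 * y ≤ B * y := mul_le_mul_of_nonneg_right b1.le h0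
    have g3 : 0 ≤ (y - 0.2204) ^ 2 * (-0.23594 * y ^ 2 + 0.2734 * y + 0.132) := by
      apply mul_nonneg (sq_nonneg _); nlinarith
    nlinarith

theorem psi_bd (t : ℝ) : |psi t| ≤ 0.0065 := by
  have h := off_abs_le t
  have hpi := pi_lt_d6
  have h2 : |off t| ≤ 0.34907 := by linarith
  unfold psi
  rcases le_or_gt 0 (off t) with h3 | h3
  · rw [abs_of_nonneg h3] at h2
    exact f_bd h3 h2
  · rw [abs_of_neg h3] at h2
    have := f_bd (y := -off t) (by linarith) h2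
    rw [show 2 * -off t = -(2 * off t) by ring, sin_neg] at this
    rw [← abs_neg]
    convert this using 2
    ring

theorem main : EboundStmt := by
  intro dx dy φ ωa ωb h
  obtain ⟨h1, h2⟩ := h
  unfold Esh
  have ha := abs_le.1 (psi_bd (φ + π - ωb))
  have hb := abs_le.1 (psi_bd (φ - ωa))
  rcases h2 with h2 | h2
  · have p1 := supp_ge_one (φ - ωa)
    have p2 := supp_lt (φ - ωa)
    have q1 := supp_ge_one (φ + π - ωb)
    have q2 := supp_lt (φ + π - ωb)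
    generalize supp (φ - ωa) = p at *
    generalize supp (φ + π - ωb) = q at *
    obtain ⟨c, hc⟩ : ∃ c, c = dx * cos φ + dy * sin φ := ⟨_, rfl⟩
    obtain ⟨X, hX⟩ : ∃ X, X = dx * sin φ - dy * cos φ := ⟨_, rfl⟩
    rw [← hc] at h1
    rw [← hX]
    have hcX : c ^ 2 + X ^ 2 = dx ^ 2 + dy ^ 2 := by
      rw [hc, hX]
      linear_combination (dx ^ 2 + dy ^ 2) * sin_sq_add_cos_sq φ
    have key : (X * (p - q)) ^ 2 ≤ 0.0338 ^ 2 := by
      have hs : |p - q| ≤ 0.0641778 := by rw [abs_le]; constructor <;> linarith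
      obtain ⟨s, hs'⟩ : ∃ s, s = |p - q| := ⟨_, rfl⟩
      have hs0 : 0 ≤ s := by rw [hs']; exact abs_nonneg _
      have hs2 : (p - q) ^ 2 = s ^ 2 := by rw [hs', sq_abs]
      have hsum : 2 + s ≤ p + q := by
        rw [hs']
        rcases abs_cases (p - q) with ⟨e, _⟩ | ⟨e, _⟩ <;> rw [e] <;> linarith
      rw [← hs'] at hs
      have hc2 : 4 + 4 * s ≤ c ^ 2 := by nlinarith
      have hX2 : X ^ 2 ≤ 0.53009 - 4 * s := by nlinarith
      rw [mul_pow, hs2]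
      have g1 : X ^ 2 * s ^ 2 ≤ (0.53009 - 4 * s) * s ^ 2 :=
        mul_le_mul_of_nonneg_right hX2 (sq_nonneg s)
      have g2 : (0.53009 - 4 * s) * s ^ 2 ≤ 0.0338 ^ 2 := by
        have e1 : 0 ≤ 0.0641778 - s := by linarith
        nlinarith [mul_nonneg e1 hs0, mul_nonneg (mul_nonneg e1 hs0) hs0, mul_nonneg e1 e1, mul_nonneg (mul_nonneg e1 e1) hs0]
      linarith
    have key2 := abs_le_of_sq_le_sq' key (by norm_num)
    rw [abs_le]
    constructor <;> linarith [key2.1, key2.2]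
  · rw [show dx * sin φ - dy * cos φ = 0 by linarith]
    rw [abs_le]
    constructor <;> linarith [ha.1, ha.2, hb.1, hb.2]

end Pool.Agent.W424.NO3
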