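import Pool.Agent.W259.Nona.Stmts

set_option autoImplicit false

/-! an algebraic identity and two inequalities -/

open Real

namespace Pool.Agent.W424.NO4

open Pool.Agent.W259.Nona

theorem poly_id {q1 q2 r1 r2 a b c d e X Y : ℝ} (hq : q1 ^ 2 + q2 ^ 2 = 1)
    (hr : r1 ^ 2 + r2 ^ 2 = 1) {u1 u2 v1 v2 f : ℝ} (hu1 : u1 = a + b) (hu2 : u2 = X)
    (hv1 : v1 = (c + d) * q1 + Y * q2) (hv2 : v2 = (c + d) * q2 - Y * q1)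
    (hf : f = -e - (r1 * (u1 + v1) + r2 * (u2 + v2))) :
    (u1 * v2 - u2 * v1) * r2 * q2 * (q1 * r2 - q2 * r1)
      + (2 * a * f + (a ^ 2 + f ^ 2) * r1) * q2 * (q1 * r2 - q2 * r1)
      - (2 * b * c + (b ^ 2 + c ^ 2) * q1) * r2 * (q1 * r2 - q2 * r1)
      - (2 * d * e + (d ^ 2 + e ^ 2) * (q1 * r1 + q2 * r2)) * r2 * q2
      - (-u2 * (a - b) + (v1 * q2 - v2 * q1) * (c - d)
        - ((u1 + v1) * r2 - (u2 + v2) * r1) * (e - f)) * r2 * q2 * (q1 * r2 - q2 * r1)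
      + (a * (q1 * r2 - q2 * r1) + (q1 * u1 + q2 * u2 + c) * (-r2)
        + (r1 * (u1 + v1) + r2 * (u2 + v2) + e) * q2) ^ 2 = 0 := by
  subst hf
  subst hv1
  subst hv2
  subst hu1
  subst hu2
  linear_combination (1 * q1 * q2 * r1 ^ 3 * r2 * c ^ 2 + 2 * q1 * q2 * r1 ^ 3 * r2 * c * d + 1 * q1 * q2 * r1 ^ 3 * r2 * d ^ 2 + (-1) * q1 * q2 * r1 ^ 2 * r2 ^ 2 * c * Y +
      (-1) * q1 * q2 * r1 ^ 2 * r2 ^ 2 * d * Y + 1 * q1 * q2 * r1 * r2 ^ 3 * c ^ 2 + 2 * q1 * q2 * r1 * r2 ^ 3 * c * d +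
      1 * q1 * q2 * r1 * r2 ^ 3 * d ^ 2 + (-1) * q1 * q2 * r2 ^ 4 * c * Y + (-1) * q1 * q2 * r2 ^ 4 * d * Y +
      (-1) * q1 * q2 * r2 ^ 2 * c * Y + 1 * q1 * q2 * r2 ^ 2 * d * Y + (-1) * q2 ^ 2 * r1 ^ 4 * c ^ 2 + (-2) * q2 ^ 2 * r1 ^ 4 * c * d +
      (-1) * q2 ^ 2 * r1 ^ 4 * d ^ 2 + 3 * q2 ^ 2 * r1 ^ 3 * r2 * c * Y + 3 * q2 ^ 2 * r1 ^ 3 * r2 * d * Y +
      (-1) * q2 ^ 2 * r1 ^ 2 * r2 ^ 2 * Y ^ 2 + 1 * q2 ^ 2 * r1 ^ 2 * c ^ 2 + 2 * q2 ^ 2 * r1 ^ 2 * c * d + 1 * q2 ^ 2 * r1 ^ 2 * d ^ 2 +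
      3 * q2 ^ 2 * r1 * r2 ^ 3 * c * Y + 3 * q2 ^ 2 * r1 * r2 ^ 3 * d * Y + (-1) * q2 ^ 2 * r1 * r2 * c * Y + (-3) * q2 ^ 2 * r1 * r2 * d * Y +
      1 * q2 ^ 2 * r2 ^ 4 * c ^ 2 + 2 * q2 ^ 2 * r2 ^ 4 * c * d + 1 * q2 ^ 2 * r2 ^ 4 * d ^ 2 + (-1) * q2 ^ 2 * r2 ^ 4 * Y ^ 2 +
      1 * q2 ^ 2 * r2 ^ 2 * Y ^ 2 + 2 * q2 * r1 ^ 3 * r2 * a * c + 2 * q2 * r1 ^ 3 * r2 * a * d + 2 * q2 * r1 ^ 3 * r2 * b * c +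
      2 * q2 * r1 ^ 3 * r2 * b * d + (-1) * q2 * r1 ^ 2 * r2 ^ 2 * a * Y + (-1) * q2 * r1 ^ 2 * r2 ^ 2 * b * Y +
      1 * q2 * r1 ^ 2 * r2 ^ 2 * c * u2 + 1 * q2 * r1 ^ 2 * r2 ^ 2 * d * u2 + 2 * q2 * r1 ^ 2 * r2 * c * e + 2 * q2 * r1 ^ 2 * r2 * d * e +
      2 * q2 * r1 * r2 ^ 3 * a * c + 2 * q2 * r1 * r2 ^ 3 * a * d + 2 * q2 * r1 * r2 ^ 3 * b * c + 2 * q2 * r1 * r2 ^ 3 * b * d +
      (-2) * q2 * r1 * r2 * a * c + (-2) * q2 * r1 * r2 * a * d + (-2) * q2 * r1 * r2 * b * c + (-2) * q2 * r1 * r2 * b * d +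
      (-1) * q2 * r2 ^ 4 * a * Y + (-1) * q2 * r2 ^ 4 * b * Y + 1 * q2 * r2 ^ 4 * c * u2 + 1 * q2 * r2 ^ 4 * d * u2 + 2 * q2 * r2 ^ 3 * c * e +
      2 * q2 * r2 ^ 3 * d * e + 1 * q2 * r2 ^ 2 * a * Y + 1 * q2 * r2 ^ 2 * b * Y + (-1) * q2 * r2 ^ 2 * c * u2 + (-1) * q2 * r2 ^ 2 * d * u2 +
      (-1) * r2 ^ 2 * c ^ 2) * hq +
    ((-2) * q1 * q2 ^ 3 * r1 ^ 2 * c * Y + (-2) * q1 * q2 ^ 3 * r1 ^ 2 * d * Y + (-2) * q1 * q2 ^ 3 * r1 * r2 * c ^ 2 +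
      (-4) * q1 * q2 ^ 3 * r1 * r2 * c * d + (-2) * q1 * q2 ^ 3 * r1 * r2 * d ^ 2 + 2 * q1 * q2 ^ 3 * r1 * r2 * Y ^ 2 +
      2 * q1 * q2 ^ 3 * r2 ^ 2 * c * Y + 2 * q1 * q2 ^ 3 * r2 ^ 2 * d * Y + (-2) * q1 * q2 ^ 2 * r1 ^ 2 * a * c +
      (-2) * q1 * q2 ^ 2 * r1 ^ 2 * a * d + (-2) * q1 * q2 ^ 2 * r1 ^ 2 * b * c + (-2) * q1 * q2 ^ 2 * r1 ^ 2 * b * d +
      3 * q1 * q2 ^ 2 * r1 * r2 * a * Y + 3 * q1 * q2 ^ 2 * r1 * r2 * b * Y + (-1) * q1 * q2 ^ 2 * r1 * r2 * c * u2 +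
      (-1) * q1 * q2 ^ 2 * r1 * r2 * d * u2 + (-2) * q1 * q2 ^ 2 * r1 * c * e + (-2) * q1 * q2 ^ 2 * r1 * d * e +
      1 * q1 * q2 ^ 2 * r2 ^ 2 * a * c + 1 * q1 * q2 ^ 2 * r2 ^ 2 * a * d + 1 * q1 * q2 ^ 2 * r2 ^ 2 * b * c + 1 * q1 * q2 ^ 2 * r2 ^ 2 * b * d +
      1 * q1 * q2 ^ 2 * r2 ^ 2 * u2 * Y + 2 * q1 * q2 ^ 2 * r2 * e * Y + 1 * q1 * q2 * r1 * r2 * a ^ 2 + 2 * q1 * q2 * r1 * r2 * a * b +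
      1 * q1 * q2 * r1 * r2 * b ^ 2 + 1 * q1 * q2 * r1 * r2 * c ^ 2 + 2 * q1 * q2 * r1 * r2 * c * d + 1 * q1 * q2 * r1 * r2 * d ^ 2 +
      1 * q1 * q2 * r2 ^ 2 * a * u2 + 1 * q1 * q2 * r2 ^ 2 * b * u2 + (-1) * q1 * q2 * r2 ^ 2 * c * Y + (-1) * q1 * q2 * r2 ^ 2 * d * Y +
      2 * q1 * q2 * r2 * a * e + 2 * q1 * q2 * r2 * b * e + 1 * q2 ^ 4 * r1 ^ 2 * c ^ 2 + 2 * q2 ^ 4 * r1 ^ 2 * c * d +
      1 * q2 ^ 4 * r1 ^ 2 * d ^ 2 + (-1) * q2 ^ 4 * r1 ^ 2 * Y ^ 2 + (-4) * q2 ^ 4 * r1 * r2 * c * Y + (-4) * q2 ^ 4 * r1 * r2 * d * Y +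
      (-1) * q2 ^ 4 * r2 ^ 2 * c ^ 2 + (-2) * q2 ^ 4 * r2 ^ 2 * c * d + (-1) * q2 ^ 4 * r2 ^ 2 * d ^ 2 + 1 * q2 ^ 4 * r2 ^ 2 * Y ^ 2 +
      (-2) * q2 ^ 3 * r1 ^ 2 * a * Y + (-2) * q2 ^ 3 * r1 ^ 2 * b * Y + (-3) * q2 ^ 3 * r1 * r2 * a * c + (-3) * q2 ^ 3 * r1 * r2 * a * d +
      (-3) * q2 ^ 3 * r1 * r2 * b * c + (-3) * q2 ^ 3 * r1 * r2 * b * d + (-1) * q2 ^ 3 * r1 * r2 * u2 * Y + (-2) * q2 ^ 3 * r1 * e * Y +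
      1 * q2 ^ 3 * r2 ^ 2 * a * Y + 1 * q2 ^ 3 * r2 ^ 2 * b * Y + (-1) * q2 ^ 3 * r2 ^ 2 * c * u2 + (-1) * q2 ^ 3 * r2 ^ 2 * d * u2 +
      (-2) * q2 ^ 3 * r2 * c * e + (-2) * q2 ^ 3 * r2 * d * e + (-1) * q2 ^ 2 * r1 ^ 2 * a ^ 2 + (-2) * q2 ^ 2 * r1 ^ 2 * a * b +
      (-1) * q2 ^ 2 * r1 ^ 2 * b ^ 2 + (-1) * q2 ^ 2 * r1 ^ 2 * c ^ 2 + (-2) * q2 ^ 2 * r1 ^ 2 * c * d + (-1) * q2 ^ 2 * r1 ^ 2 * d ^ 2 +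
      (-1) * q2 ^ 2 * r1 * r2 * a * u2 + (-1) * q2 ^ 2 * r1 * r2 * b * u2 + 3 * q2 ^ 2 * r1 * r2 * c * Y + 3 * q2 ^ 2 * r1 * r2 * d * Y +
      (-2) * q2 ^ 2 * r1 * a * e + (-2) * q2 ^ 2 * r1 * b * e + 1 * q2 ^ 2 * r2 ^ 2 * c ^ 2 + 2 * q2 ^ 2 * r2 ^ 2 * c * d +
      1 * q2 ^ 2 * r2 ^ 2 * d ^ 2 + (-1) * q2 ^ 2 * r2 ^ 2 * Y ^ 2 + (-1) * q2 ^ 2 * e ^ 2 + 2 * q2 * r1 * r2 * a * c +
      2 * q2 * r1 * r2 * a * d + 2 * q2 * r1 * r2 * b * c + 2 * q2 * r1 * r2 * b * d + (-1) * q2 * r2 ^ 2 * a * Y +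
      (-1) * q2 * r2 ^ 2 * b * Y + 1 * q2 * r2 ^ 2 * c * u2 + 1 * q2 * r2 ^ 2 * d * u2 + 2 * q2 * r2 * c * e + 2 * q2 * r2 * d * e) * hr

theorem special {q1 q2 r1 r2 u1 u2 v1 v2 a b c d e f : ℝ} (hq : q1 ^ 2 + q2 ^ 2 = 1)
    (hr : r1 ^ 2 + r2 ^ 2 = 1) (hr2 : r2 ≠ 0) (hq2 : q2 ≠ 0) (hS : q1 * r2 - q2 * r1 ≠ 0)
    (h1 : a + b = u1) (h2 : c + d = q1 * v1 + q2 * v2)
    (h3 : e + f = -(r1 * (u1 + v1) + r2 * (u2 + v2))) :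
    (u1 * v2 - u2 * v1) / 2 =
      (2 * a * f + (a ^ 2 + f ^ 2) * r1) / (2 * (-r2)) +
      (2 * b * c + (b ^ 2 + c ^ 2) * q1) / (2 * q2) +
      (2 * d * e + (d ^ 2 + e ^ 2) * (q1 * r1 + q2 * r2)) / (2 * (q1 * r2 - q2 * r1)) +
      ((-u2) * (a - b) + (v1 * q2 - v2 * q1) * (c - d)
        - ((u1 + v1) * r2 - (u2 + v2) * r1) * (e - f)) / 2 +
      (a * (q1 * r2 - q2 * r1) + (q1 * u1 + q2 * u2 + c) * (-r2)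
        + (r1 * (u1 + v1) + r2 * (u2 + v2) + e) * q2) ^ 2
        / (2 * (-r2) * q2 * (q1 * r2 - q2 * r1)) := by
  have key := poly_id (a := a) (b := b) (c := c) (d := d) (e := e) (X := u2)
    (Y := v1 * q2 - v2 * q1) hq hr h1.symm rfl
    (v1 := v1) (v2 := v2) (by rw [h2]; linear_combination (-v1) * hq)
    (by rw [h2]; linear_combination (-v2) * hq) (f := f) (by linear_combination h3)
  have hz : (u1 * v2 - u2 * v1) / 2 -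
      ((2 * a * f + (a ^ 2 + f ^ 2) * r1) / (2 * (-r2)) +
      (2 * b * c + (b ^ 2 + c ^ 2) * q1) / (2 * q2) +
      (2 * d * e + (d ^ 2 + e ^ 2) * (q1 * r1 + q2 * r2)) / (2 * (q1 * r2 - q2 * r1)) +
      ((-u2) * (a - b) + (v1 * q2 - v2 * q1) * (c - d)
        - ((u1 + v1) * r2 - (u2 + v2) * r1) * (e - f)) / 2 +
      (a * (q1 * r2 - q2 * r1) + (q1 * u1 + q2 * u2 + c) * (-r2)
        + (r1 * (u1 + v1) + r2 * (u2 + v2) + e) * q2) ^ 2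
        / (2 * (-r2) * q2 * (q1 * r2 - q2 * r1))) = 
      ((u1 * v2 - u2 * v1) * r2 * q2 * (q1 * r2 - q2 * r1)
      + (2 * a * f + (a ^ 2 + f ^ 2) * r1) * q2 * (q1 * r2 - q2 * r1)
      - (2 * b * c + (b ^ 2 + c ^ 2) * q1) * r2 * (q1 * r2 - q2 * r1)
      - (2 * d * e + (d ^ 2 + e ^ 2) * (q1 * r1 + q2 * r2)) * r2 * q2
      - (-u2 * (a - b) + (v1 * q2 - v2 * q1) * (c - d)
        - ((u1 + v1) * r2 - (u2 + v2) * r1) * (e - f)) * r2 * q2 * (q1 * r2 - q2 * r1)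
      + (a * (q1 * r2 - q2 * r1) + (q1 * u1 + q2 * u2 + c) * (-r2)
        + (r1 * (u1 + v1) + r2 * (u2 + v2) + e) * q2) ^ 2) /
        (2 * r2 * q2 * (q1 * r2 - q2 * r1)) := by
    generalize q1 * r2 - q2 * r1 = S at *
    field_simp
    ring_nf
  rw [key, zero_div] at hz
  linarith

theorem ident : IdentStmt := by
  intro p1 p2 q1 q2 r1 r2 u1 u2 v1 v2 a b c d e f hp hq hr hS2 hS3 hS1 h1 h2 h3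
  obtain ⟨Q1, hQ1⟩ : ∃ x, x = p1 * q1 + p2 * q2 := ⟨_, rfl⟩
  obtain ⟨Q2, hQ2⟩ : ∃ x, x = p1 * q2 - p2 * q1 := ⟨_, rfl⟩
  obtain ⟨R1, hR1⟩ : ∃ x, x = p1 * r1 + p2 * r2 := ⟨_, rfl⟩
  obtain ⟨R2, hR2⟩ : ∃ x, x = p1 * r2 - p2 * r1 := ⟨_, rfl⟩
  obtain ⟨U1, hU1⟩ : ∃ x, x = p1 * u1 + p2 * u2 := ⟨_, rfl⟩
  obtain ⟨U2, hU2⟩ : ∃ x, x = p1 * u2 - p2 * u1 := ⟨_, rfl⟩
  obtain ⟨V1, hV1⟩ : ∃ x, x = p1 * v1 + p2 * v2 := ⟨_, rfl⟩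
  obtain ⟨V2, hV2⟩ : ∃ x, x = p1 * v2 - p2 * v1 := ⟨_, rfl⟩
  have eqq : Q1 ^ 2 + Q2 ^ 2 = 1 := by
    rw [hQ1, hQ2]; linear_combination (q1 ^ 2 + q2 ^ 2) * hp + hq
  have err : R1 ^ 2 + R2 ^ 2 = 1 := by
    rw [hR1, hR2]; linear_combination (r1 ^ 2 + r2 ^ 2) * hp + hr
  have e1 : U1 * V2 - U2 * V1 = u1 * v2 - u2 * v1 := by
    rw [hU1, hU2, hV1, hV2]; linear_combination (u1 * v2 - u2 * v1) * hp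
  have e2 : Q1 * R2 - Q2 * R1 = q1 * r2 - q2 * r1 := by
    rw [hQ1, hQ2, hR1, hR2]; linear_combination (q1 * r2 - q2 * r1) * hp
  have e3 : Q1 * R1 + Q2 * R2 = q1 * r1 + q2 * r2 := by
    rw [hQ1, hQ2, hR1, hR2]; linear_combination (q1 * r1 + q2 * r2) * hp
  have e4 : V1 * Q2 - V2 * Q1 = v1 * q2 - v2 * q1 := by
    rw [hQ1, hQ2, hV1, hV2]; linear_combination (v1 * q2 - v2 * q1) * hp
  have e5 : (U1 + V1) * R2 - (U2 + V2) * R1 = (u1 + v1) * r2 - (u2 + v2) * r1 := by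
    rw [hU1, hU2, hV1, hV2, hR1, hR2]
    linear_combination ((u1 + v1) * r2 - (u2 + v2) * r1) * hp
  have e6 : Q1 * U1 + Q2 * U2 = q1 * u1 + q2 * u2 := by
    rw [hQ1, hQ2, hU1, hU2]; linear_combination (q1 * u1 + q2 * u2) * hp
  have e7 : R1 * (U1 + V1) + R2 * (U2 + V2) = r1 * (u1 + v1) + r2 * (u2 + v2) := by
    rw [hU1, hU2, hV1, hV2, hR1, hR2]
    linear_combination (r1 * (u1 + v1) + r2 * (u2 + v2)) * hp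
  have e8 : Q1 * V1 + Q2 * V2 = q1 * v1 + q2 * v2 := by
    rw [hQ1, hQ2, hV1, hV2]; linear_combination (q1 * v1 + q2 * v2) * hp
  have e9 : -R2 = r1 * p2 - r2 * p1 := by rw [hR2]; ring
  have e10 : -U2 = u1 * p2 - u2 * p1 := by rw [hU2]; ring
  have hR20 : R2 ≠ 0 := by
    intro h
    apply hS2
    rw [← e9, h, neg_zero]
  have hQ20 : Q2 ≠ 0 := by
    rw [hQ2]; exact hS3
  have h := special (a := a) (b := b) (c := c) (d := d) (e := e) (f := f) (u1 := U1) (u2 := U2)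
    (v1 := V1) (v2 := V2) eqq err hR20 hQ20 (by rw [e2]; exact hS1) (by rw [h1, hU1])
    (by rw [e8, h2]) (by rw [e7, h3])
  rw [e1, e2, e3, e4, e5, e6, e7, e9, e10, hQ1, hQ2, hR1] at h
  rw [h]

theorem mono : MonoStmt := by
  intro h k s t α hα hαπ hs ht hsh htk h1 h2
  have hsin : 0 < sin α := sin_pos_of_pos_of_lt_pi hα hαπ
  unfold wed
  apply div_le_div_of_nonneg_right _ (by positivity)
  set C := cos α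
  have g1 : 0 ≤ 2 * k - (h + s) * C := by
    rcases le_or_gt 0 C with hC | hC
    · nlinarith
    · nlinarith
  have g2 : 0 ≤ 2 * s - (k + t) * C := by
    rcases le_or_gt 0 C with hC | hC
    · nlinarith
    · nlinarith
  have := mul_nonneg (sub_nonneg.2 hsh) g1
  have := mul_nonneg (sub_nonneg.2 htk) g2
  nlinarith

theorem hcos_close : ∀ b : ℝ, 0 ≤ b → b ≤ 0.35 → (2.1284 * cos b - 1) * cos (0.628 - b) ≤ 1 := by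
  intro b hb0 hb1
  have h1 : 2 * cos b * cos (0.628 - b) = cos 0.628 + cos (2 * b - 0.628) := by
    have e1 : (0.628 : ℝ) = b + (0.628 - b) := by ring
    have e2 : 2 * b - 0.628 = b - (0.628 - b) := by ring
    rw [e2, cos_sub b (0.628 - b)]
    conv_rhs => rw [e1, cos_add]
    ring
  have c1 := abs_le.1 (cos_bound (x := 0.628) (by rw [abs_of_pos (by norm_num)]; norm_num))
  have c2 := abs_le.1 (cos_bound (x := 2 * b - 0.628) (by rw [abs_le]; constructor <;> linarith))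
  have c3 := one_sub_sq_div_two_le_cos (x := 0.628 - b)
  have hu : |2 * b - 0.628| ^ 4 = (2 * b - 0.628) ^ 4 := by
    rw [show (4 : ℕ) = 2 * 2 by norm_num, pow_mul, pow_mul, sq_abs]
  rw [hu] at c2
  have h628 : |(0.628 : ℝ)| ^ 4 = 0.628 ^ 4 := by rw [abs_of_pos (by norm_num)]
  rw [h628] at c1
  have hu2 : (2 * b - 0.628) ^ 2 ≤ 0.628 ^ 2 := by nlinarith
  have hu4 : (2 * b - 0.628) ^ 4 ≤ 0.628 ^ 2 * (2 * b - 0.628) ^ 2 := by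
    have : (2 * b - 0.628) ^ 4 = (2 * b - 0.628) ^ 2 * (2 * b - 0.628) ^ 2 := by ring
    rw [this]
    apply mul_le_mul_of_nonneg_right hu2 (sq_nonneg _)
  have e : (2.1284 * cos b - 1) * cos (0.628 - b) =
      1.0642 * (cos 0.628 + cos (2 * b - 0.628)) - cos (0.628 - b) := by
    rw [← h1]; ring
  rw [e]
  have d1 : cos 0.628 ≤ 0.81092 := by
    have := c1.2
    norm_num at this ⊢
    linarith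
  have d2 := c2.2
  nlinarith [sq_nonneg (b - 0.21)]

end Pool.Agent.W424.NO4
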