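import Pool.Agent.W259.Nona.Stmts

set_option autoImplicit false

/-! areas of triangles -/

open Real

namespace Pool.Agent.W424.NO5

open Pool.Agent.W259.Nona

theorem fge {x y z : ℝ} (hx : 4 ≤ x) (hy : 4 ≤ y) (hxz : x ≤ z) (hyz : y ≤ z) :
    64 - (8 - z) ^ 2 ≤ 4 * x * y - (x + y - z) ^ 2 := by
  have h1 : 0 ≤ (x - 4) * (2 * y + 2 * z - x - 4) := mul_nonneg (by linarith) (by linarith)
  have h2 : 0 ≤ (y - 4) * (2 * z + 4 - y) := mul_nonneg (by linarith) (by linarith)
  nlinarith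

theorem first {x y z K r : ℝ} (hx : 4 ≤ x) (hy : 4 ≤ y) (hxz : x ≤ z) (hyz : y ≤ z) (hK : 0 < K)
    (h : 16 * K ^ 2 = 4 * x * y - (x + y - z) ^ 2) (hr : 0 ≤ r) (hr2 : r ≤ 2.13)
    (hp : x * y * z = 16 * K ^ 2 * r ^ 2) : 1.65 ≤ K := by
  have hz : 4 ≤ z := hx.trans hxz
  have hr3 : r ^ 2 ≤ 4.5369 := by nlinarith
  have key : 43.56 ≤ 16 * K ^ 2 := by
    rcases le_or_gt z 12.47 with hz2 | hz2
    · have h1 := fge hx hy hxz hyz
      have h2 : (8 - z) ^ 2 ≤ 20.44 := by nlinarith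
      linarith
    · have h1 : 16 ≤ x * y := by nlinarith
      have h2 : 199.52 ≤ x * y * z := by nlinarith
      have h3 : 16 * K ^ 2 * r ^ 2 ≤ 16 * K ^ 2 * 4.5369 := by
        apply mul_le_mul_of_nonneg_left hr3 (by positivity)
      nlinarith
  by_contra hc
  push Not at hc
  nlinarith

theorem main : TypeIIStmt := by
  intro x y z K r hx hy hz hK h hr hr2 hp
  have hr3 : r ^ 2 ≤ 4.5369 := by nlinarith
  have hKr : 16 * K ^ 2 * r ^ 2 ≤ 16 * K ^ 2 * 4.5369 :=
    mul_le_mul_of_nonneg_left hr3 (by positivity)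
  refine ⟨?_, ?_, ?_, ?_, ?_, ?_⟩
  · by_cases h1 : x ≤ z
    · by_cases h2 : y ≤ z
      · exact first hx hy h1 h2 hK h hr hr2 hp
      · push Not at h2
        exact first (x := x) (y := z) (z := y) hx hz (h1.trans h2.le) h2.le hK
          (by rw [h]; ring) hr hr2 (by rw [← hp]; ring)
    · push Not at h1
      by_cases h2 : y ≤ x
      · exact first (x := y) (y := z) (z := x) hy hz h2 h1.le hK
          (by rw [h]; ring) hr hr2 (by rw [← hp]; ring)
      · push Not at h2
        exact first (x := x) (y := z) (z := y) hx hz h2.le (h1.le.trans h2.le) hK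
          (by rw [h]; ring) hr hr2 (by rw [← hp]; ring)
  · intro h1 h2 h3 h4
    have h5 := fge hx hy h1 h2
    have h6 : (8 - z) ^ 2 ≤ 7.3441 := by nlinarith
    by_contra hc
    push Not at hc
    nlinarith
  · intro h1 h2 h3 h4
    have h5 : 16 * (z - 4) ≤ 16 * K ^ 2 := by
      rw [h]
      obtain ⟨a, rfl⟩ : ∃ a, x = 4 + a := ⟨x - 4, by ring⟩
      obtain ⟨b, rfl⟩ : ∃ b, y = 4 + b := ⟨y - 4, by ring⟩
      have ha : 0 ≤ a := by linarith
      have hb : 0 ≤ b := by linarith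
      obtain ⟨w, rfl⟩ : ∃ w, z = 8 + a + b - w := ⟨8 + a + b - z, by ring⟩
      have hw : 0 ≤ w := by linarith
      have key : 0 ≤ 4 * a * b + w * (16 - w) := by
        rcases le_or_gt w 8 with h8 | h8
        · have := mul_nonneg ha hb
          have := mul_nonneg hw (by linarith : (0:ℝ) ≤ 16 - w)
          nlinarith
        · have e1 : w - 8 ≤ 2 * a := by linarith
          have e2 : w - 8 ≤ 2 * b := by linarith
          have e3 : (w - 8) * (w - 8) ≤ (2 * a) * (2 * b) :=
            mul_le_mul e1 e2 (by linarith) (by linarith)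
          nlinarith
      nlinarith
    by_contra hc
    push Not at hc
    nlinarith
  · intro h1 h2 h3
    have e1 : (3.25 ^ 2) * (3.25 ^ 2) ≤ x * y := mul_le_mul h1 h2 (by norm_num) (by linarith)
    have e2 : (3.25 ^ 2) * (3.25 ^ 2) * (3.25 ^ 2) ≤ x * y * z :=
      mul_le_mul e1 h3 (by norm_num) (by nlinarith)
    by_contra hc
    push Not at hc
    have : K ^ 2 < 16 := by nlinarith
    norm_num at e2
    nlinarith
  · intro h1 h2
    have hz2 : 14.5625 ≤ z := by norm_num at h2; linarith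
    have e1 : 4 * (3.25 ^ 2) ≤ x * y := mul_le_mul hx h2 (by norm_num) (by linarith)
    have e2 : 4 * (3.25 ^ 2) * 14.5625 ≤ x * y * z :=
      mul_le_mul e1 hz2 (by norm_num) (by nlinarith)
    by_contra hc
    push Not at hc
    have : K ^ 2 < 2.6 ^ 2 := by nlinarith
    norm_num at e2 this
    nlinarith
  · intro h1 h2 h3
    have hxy : 0 < x * y := by positivity
    have e1 : 16 * K ^ 2 ≤ 4 * x * y := by rw [h]; nlinarith [sq_nonneg (x + y - z)]
    have e2 : x * y * z ≤ x * y * (4 * 4.5369) := by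
      rw [hp]
      calc 16 * K ^ 2 * r ^ 2 ≤ 16 * K ^ 2 * 4.5369 := hKr
        _ ≤ (4 * x * y) * 4.5369 := by nlinarith
        _ = _ := by ring
    have e3 : z ≤ 4 * 4.5369 := le_of_mul_le_mul_left e2 hxy
    norm_num at h2 h3 e3
    linarith

end Pool.Agent.W424.NO5
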