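import Pool.Agent.W489.Stubs

/-!
T5 of the proof of S00329 (problem MP_9bd952_ag): lifts of a line near infinity.
-/

set_option autoImplicit false

open Metric Set Topology Filter

namespace Pool.Agent.W424.T5

open H113G W489

/-- If locally on `X` the fibres of `E ⊆ X × M` are given by finitely many disjoint continuous
sections, then `E → X` is a covering map. -/
theorem cov_of_sections {X M : Type*} [TopologicalSpace X] [TopologicalSpace M] [T2Space M]
    (e : ℕ) (E : Set (X × M))
    (h : ∀ x : X, ∃ U : Set X, IsOpen U ∧ x ∈ U ∧ ∃ s : Fin e → X → M,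
      (∀ i, ContinuousOn (s i) U) ∧ ∀ x' ∈ U, Function.Injective (fun i => s i x') ∧
        {y | (x', y) ∈ E} = Set.range (fun i => s i x')) :
    IsCoveringMap (fun w : E => w.1.1) := by
  intro x
  obtain ⟨U, hU, hxU, s, hs, hfib⟩ := h x
  have hp : Continuous (fun w : E => w.1.1) := continuous_fst.comp continuous_subtype_val
  refine IsEvenlyCovered.to_isEvenlyCovered_preimage (I := Fin e)
    ⟨inferInstance, U, hxU, hU, hU.preimage hp, ?_⟩
  have hidx : ∀ w : (fun w : E => w.1.1) ⁻¹' U, ∃ i, s i w.1.1.1 = w.1.1.2 := by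
    intro w
    have h1 : w.1.1.2 ∈ {y | (w.1.1.1, y) ∈ E} := w.1.2
    rw [(hfib _ w.2).2] at h1
    exact h1
  choose idx hidx using hidx
  have hG : ∀ x' : U, ∀ i, (x'.1, s i x'.1) ∈ E := by
    intro x' i
    have : s i x'.1 ∈ {y | (x'.1, y) ∈ E} := by
      rw [(hfib _ x'.2).2]
      exact ⟨i, rfl⟩
    exact this
  have hidxc : Continuous idx := by
    rw [continuous_iff_isClosed]
    intro S _
    have h1 : idx ⁻¹' S = ⋃ i ∈ S, {w : (fun w : E => w.1.1) ⁻¹' U | s i w.1.1.1 = w.1.1.2} := by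
      ext w
      simp only [mem_preimage, mem_iUnion, mem_ofPred_eq, exists_prop]
      constructor
      · intro h; exact ⟨idx w, h, hidx w⟩
      · rintro ⟨i, hi, h2⟩
        have : idx w = i := (hfib _ w.2).1 (by simp only; rw [hidx w, h2])
        rw [this]; exact hi
    rw [h1]
    refine Set.Finite.isClosed_biUnion (Set.toFinite S) fun i _ => ?_
    refine isClosed_eq ?_ ?_
    · have h2 : Continuous (U.domRestrict (s i)) := continuousOn_iff_continuous_domRestrict.1 (hs i)
      exact h2.comp ((hp.comp continuous_subtype_val).subtype_mk fun w => w.2)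
    · exact continuous_snd.comp (continuous_subtype_val.comp continuous_subtype_val)
  refine ⟨{ toFun := fun w => (⟨w.1.1.1, w.2⟩, idx w)
            invFun := fun q => ⟨⟨(q.1.1, s q.2 q.1.1), hG q.1 q.2⟩, q.1.2⟩
            left_inv := ?_
            right_inv := ?_
            continuous_toFun := ?_
            continuous_invFun := ?_ }, fun _ => rfl⟩
  · intro w
    apply Subtype.ext
    apply Subtype.ext
    exact Prod.ext rfl (hidx w)
  · rintro ⟨x', i⟩
    refine Prod.ext rfl ?_
    simp only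
    exact (hfib _ x'.2).1 (hidx _)
  · exact Continuous.prodMk ((hp.comp continuous_subtype_val).subtype_mk fun w => w.2) hidxc
  · refine Continuous.subtype_mk (Continuous.subtype_mk ?_ _) _
    refine Continuous.prodMk (continuous_subtype_val.comp continuous_fst) ?_
    rw [continuous_iff_continuousAt]
    rintro ⟨x', i⟩
    have h2 : Continuous (U.domRestrict (s i)) := continuousOn_iff_continuous_domRestrict.1 (hs i)
    have h3 : ContinuousAt (fun q : U × Fin e => U.domRestrict (s i) q.1) (x', i) :=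
      (h2.comp continuous_fst).continuousAt
    refine h3.congr ?_
    have h4 : ∀ᶠ q : U × Fin e in 𝓝 (x', i), q.2 = i := by
      have : ContinuousAt (fun q : U × Fin e => q.2) (x', i) := continuous_snd.continuousAt
      exact this.eventually (p := fun j => j = i) ((isOpen_discrete {i}).mem_nhds rfl)
    filter_upwards [h4] with q hq
    rw [Set.domRestrict_apply, hq]

/-- the half plane -/
abbrev HP (c : ℝ) : Type := {s : ℂ // c < s.re}

theorem isOpen_hp (c : ℝ) : IsOpen {s : ℂ | c < s.re} := isOpen_lt continuous_const Complex.continuous_re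

instance (c : ℝ) : SimplyConnectedSpace (HP c) := by
  have : ContractibleSpace (HP c) := by
    have h := (convex_halfSpace_re_gt c).contractibleSpace ⟨((c + 1 : ℝ) : ℂ), by simp⟩
    exact h
  infer_instance

instance (c : ℝ) : LocallyPathConnectedSpace (HP c) := (isOpen_hp c).locallyPathConnectedSpace

theorem exists_bound {k : ℕ} (δ : MvPolynomial (Fin k) ℂ)
    (h0 : MvPolynomial.eval (0 : Fin k → ℂ) δ ≠ 0) (v : Fin k → ℂ) :
    ∃ R : ℝ, ∀ t : ℂ, R < ‖t‖ → MvPolynomial.eval (t • v) δ ≠ 0 := by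
  let P : Polynomial ℂ := MvPolynomial.eval₂ Polynomial.C (fun i => Polynomial.C (v i) * Polynomial.X) δ
  have hP : ∀ t : ℂ, P.eval t = MvPolynomial.eval (t • v) δ := by
    intro t
    have h1 := MvPolynomial.eval₂_comp_left (Polynomial.evalRingHom t) Polynomial.C
      (fun i => Polynomial.C (v i) * Polynomial.X) δ
    rw [Polynomial.coe_evalRingHom] at h1
    rw [h1, MvPolynomial.eval, MvPolynomial.coe_eval₂Hom]
    have h2 : (Polynomial.evalRingHom t).comp Polynomial.C = RingHom.id ℂ :=
      RingHom.ext fun r => Polynomial.eval_C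
    have h3 : (Polynomial.eval t ∘ fun i => Polynomial.C (v i) * Polynomial.X) = t • v := by
      funext i
      rw [Function.comp_apply, Polynomial.eval_mul, Polynomial.eval_C,
        Polynomial.eval_X, Pi.smul_apply, smul_eq_mul, mul_comm]
    rw [h2, h3]
  have hP0 : P ≠ 0 := by
    intro h
    apply h0
    have := hP 0
    rw [h, zero_smul] at this
    rw [← this]; simp
  have hfin : (P.rootSet ℂ).Finite := Polynomial.rootSet_finite P ℂ
  obtain ⟨R, hR⟩ := hfin.isBounded.exists_norm_le
  refine ⟨R, fun t ht hcon => ?_⟩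
  have : t ∈ P.rootSet ℂ := by
    rw [Polynomial.mem_rootSet]
    refine ⟨hP0, ?_⟩
    rw [Polynomial.coe_aeval_eq_eval, hP, hcon]
  exact absurd (hR t this) (not_le.2 ht)

theorem proof : W489.S_T5 := by
  intro m k e Y pr δ hC v
  obtain ⟨R, hR⟩ := exists_bound δ hC.base v
  set c : ℝ := Real.log (max R 1) with hc
  have hne : ∀ s : ℂ, c < s.re → MvPolynomial.eval (Complex.exp s • v) δ ≠ 0 := by
    intro s hs
    apply hR
    rw [Complex.norm_exp]
    have h1 : Real.exp c < Real.exp s.re := Real.exp_lt_exp.2 hs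
    rw [hc, Real.exp_log (lt_max_of_lt_right one_pos)] at h1
    exact lt_of_le_of_lt (le_max_left _ _) h1
  -- the covering
  let E : Set (HP c × (Fin m → ℂ)) := {w | w.2 ∈ Y ∧ pr w.2 = Complex.exp w.1.1 • v}
  have hsec : ∀ z : HP c, ∃ U : Set (HP c), IsOpen U ∧ z ∈ U ∧ ∃ s : Fin e → HP c → (Fin m → ℂ),
      (∀ i, ContinuousOn (s i) U) ∧ (∀ x' ∈ U, Function.Injective (fun i => s i x') ∧
        {y | (x', y) ∈ E} = Set.range (fun i => s i x')) := by
    intro z
    obtain ⟨r, hr, s, hs, hfib⟩ := hC.sections _ (hne z.1 z.2)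
    have hcont : Continuous (fun x : HP c => Complex.exp x.1 • v) :=
      (Complex.continuous_exp.comp continuous_subtype_val).smul continuous_const
    refine ⟨(fun x : HP c => Complex.exp x.1 • v) ⁻¹' ball (Complex.exp z.1 • v) r,
      isOpen_ball.preimage hcont, mem_ball_self hr, fun i x => s i (Complex.exp x.1 • v), ?_, ?_⟩
    · intro i
      exact (hs i).continuousOn.comp hcont.continuousOn fun x hx => hx
    · intro x' hx'
      obtain ⟨_, h2, h3⟩ := hfib _ hx'
      exact ⟨h2, h3⟩
  have hcov : IsCoveringMap (fun w : E => w.1.1) := cov_of_sections e E hsec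
  -- the base point
  let a₀ : HP c := ⟨((c + 1 : ℝ) : ℂ), by simp⟩
  obtain ⟨U₀, _, ha₀, s₀, _, hfib₀⟩ := hsec a₀
  obtain ⟨hinj₀, hrange₀⟩ := hfib₀ a₀ ha₀
  have hlift : ∀ w : E, ∃! F : C(HP c, E), F w.1.1 = w ∧ ∀ x, (F x).1.1 = x := by
    intro w
    obtain ⟨F, ⟨hF1, hF2⟩, hF3⟩ := hcov.existsUnique_continuousMap_lifts (ContinuousMap.id (HP c))
      w.1.1 w rfl
    refine ⟨F, ⟨hF1, fun x => congrFun hF2 x⟩, ?_⟩
    rintro G ⟨hG1, hG2⟩
    exact hF3 G ⟨hG1, funext hG2⟩
  have huniq : ∀ F G : C(HP c, E), (∀ x, (F x).1.1 = x) → (∀ x, (G x).1.1 = x) →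
      ∀ x, (F x).1.2 = (G x).1.2 → F = G := by
    intro F G hF hG x hx
    obtain ⟨L, _, hL⟩ := hlift (F x)
    rw [hL F ⟨by rw [hF x], hF⟩]
    refine (hL G ⟨?_, hG⟩).symm
    rw [hF x]
    apply Subtype.ext
    refine Prod.ext ?_ hx.symm
    rw [hG x, hF x]
  have hmem₀ : ∀ i, (a₀, s₀ i a₀) ∈ E := by
    intro i
    have : s₀ i a₀ ∈ {y | (a₀, y) ∈ E} := by
      rw [hrange₀]; exact ⟨i, rfl⟩
    exact this
  choose F hF using fun i => (hlift ⟨(a₀, s₀ i a₀), hmem₀ i⟩).exists
  have hF1 : ∀ i, F i a₀ = ⟨(a₀, s₀ i a₀), hmem₀ i⟩ := fun i => (hF i).1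
  have hF2 : ∀ i x, (F i x).1.1 = x := fun i => (hF i).2
  -- every lift is one of the `F i`
  have hall : ∀ G : C(HP c, E), (∀ x, (G x).1.1 = x) → ∃ i, G = F i := by
    intro G hG
    have h1 : (G a₀).1.2 ∈ {y | (a₀, y) ∈ E} := by
      have := (G a₀).2
      change ((G a₀).1.1, (G a₀).1.2) ∈ E at this
      rw [hG a₀] at this
      exact this
    rw [hrange₀] at h1
    obtain ⟨i, hi⟩ := h1
    refine ⟨i, huniq G (F i) hG (hF2 i) a₀ ?_⟩
    rw [hF1 i]
    exact hi.symm
  have hFinj : ∀ i j x, (F i x).1.2 = (F j x).1.2 → i = j := by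
    intro i j x hx
    have h1 := huniq (F i) (F j) (hF2 i) (hF2 j) x hx
    have h2 : F i a₀ = F j a₀ := by rw [h1]
    rw [hF1, hF1] at h2
    exact hinj₀ (congrArg (fun w : E => w.1.2) h2)
  classical
  let Λ : Fin e → ℂ → (Fin m → ℂ) := fun i s => if h : c < s.re then (F i ⟨s, h⟩).1.2 else 0
  have hΛ : ∀ i (s : ℂ) (h : c < s.re), Λ i s = (F i ⟨s, h⟩).1.2 := fun i s h => dif_pos h
  have hΛc : ∀ i, ContinuousOn (Λ i) {s : ℂ | c < s.re} := by
    intro i
    rw [continuousOn_iff_continuous_domRestrict]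
    have h1 : Continuous (fun x : HP c => (F i x).1.2) :=
      continuous_snd.comp (continuous_subtype_val.comp (F i).continuous)
    refine h1.congr fun x => ?_
    rw [Set.domRestrict_apply, hΛ i x.1 x.2]
  have hΛY : ∀ i (s : ℂ) (h : c < s.re), Λ i s ∈ Y ∧ pr (Λ i s) = Complex.exp s • v := by
    intro i s h
    rw [hΛ i s h]
    have h1 := (F i ⟨s, h⟩).2
    refine ⟨h1.1, h1.2.trans ?_⟩
    rw [hF2 i]
  -- translation by the period
  have htr : ∀ s : HP c, c < (s.1 + 2 * Real.pi * Complex.I).re := by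
    intro s
    have : (s.1 + 2 * Real.pi * Complex.I).re = s.1.re := by simp
    rw [this]; exact s.2
  have hexp : ∀ s : ℂ, Complex.exp (s + 2 * Real.pi * Complex.I) = Complex.exp s := fun s =>
    Complex.exp_periodic s
  have hσ : ∀ i, ∃ j, ∀ s : HP c, Λ i (s.1 + 2 * Real.pi * Complex.I) = Λ j s.1 := by
    intro i
    let G : C(HP c, E) :=
      ⟨fun s => ⟨(s, (F i ⟨s.1 + 2 * Real.pi * Complex.I, htr s⟩).1.2), by
          have h1 := (F i ⟨s.1 + 2 * Real.pi * Complex.I, htr s⟩).2
          refine ⟨h1.1, h1.2.trans ?_⟩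
          rw [hF2 i]
          simp only
          rw [hexp]⟩, by
        refine Continuous.subtype_mk (continuous_id.prodMk ?_) _
        refine continuous_snd.comp (continuous_subtype_val.comp ((F i).continuous.comp ?_))
        exact Continuous.subtype_mk (continuous_subtype_val.add continuous_const) _⟩
    obtain ⟨j, hj⟩ := hall G fun x => rfl
    refine ⟨j, fun s => ?_⟩
    rw [hΛ i _ (htr s), hΛ j _ s.2, ← hj]
    rfl
  choose σ hσ using hσ
  have hσinj : Function.Injective σ := by
    intro i j hij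
    have h1 := hσ i a₀
    have h2 := hσ j a₀
    rw [← hij, ← h1, hΛ _ _ (htr a₀), hΛ _ _ (htr a₀)] at h2
    exact (hFinj _ _ _ h2).symm
  let τ : Equiv.Perm (Fin e) := Equiv.ofBijective σ ((Finite.injective_iff_bijective).1 hσinj)
  have hτ : ∀ (n : ℕ) i (s : HP c), Λ i (s.1 + 2 * Real.pi * n * Complex.I) = Λ ((τ ^ n) i) s.1 := by
    intro n
    induction n with
    | zero => intro i s; simp
    | succ n ih =>
      intro i s
      have h1 : s.1 + 2 * Real.pi * ((n + 1 : ℕ) : ℂ) * Complex.I =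
          (⟨s.1 + 2 * Real.pi * n * Complex.I, by
            have : (s.1 + 2 * Real.pi * n * Complex.I).re = s.1.re := by simp
            rw [this]; exact s.2⟩ : HP c).1 + 2 * Real.pi * Complex.I := by
        push_cast
        ring
      rw [h1, hσ]
      simp only
      rw [ih, pow_succ]
      rfl
  refine ⟨c, orderOf τ, Λ, ⟨orderOf_pos τ, ?_, hne, ?_, ?_⟩⟩
  · -- differentiability
    intro i s hs
    obtain ⟨r, hr, t, ht, hfib⟩ := hC.sections _ (hne s hs)
    apply DifferentiableAt.differentiableWithinAt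
    have hcont : Continuous (fun x : ℂ => Complex.exp x • v) :=
      Complex.continuous_exp.smul continuous_const
    have hmem : Λ i s ∈ {y | y ∈ Y ∧ pr y = Complex.exp s • v} := hΛY i s hs
    rw [(hfib _ (mem_ball_self hr)).2.2] at hmem
    obtain ⟨j, hj⟩ := hmem
    simp only at hj
    have hΛat : ContinuousAt (Λ i) s := (hΛc i).continuousAt ((isOpen_hp c).mem_nhds hs)
    have htat : ∀ l, ContinuousAt (fun x : ℂ => t l (Complex.exp x • v)) s := by
      intro l
      have h1 : ContinuousAt (t l) (Complex.exp s • v) :=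
        (ht l).continuousOn.continuousAt (ball_mem_nhds _ hr)
      exact ContinuousAt.comp (f := fun x : ℂ => Complex.exp x • v) h1 hcont.continuousAt
    have hev1 : ∀ᶠ x in 𝓝 s, ∀ l, l ≠ j → t l (Complex.exp x • v) ≠ Λ i x := by
      rw [eventually_all]
      intro l
      by_cases hl : l = j
      · exact Eventually.of_forall fun x h => absurd hl h
      · have h1 : t l (Complex.exp s • v) ≠ Λ i s := by
          rw [← hj]
          intro h
          exact hl ((hfib _ (mem_ball_self hr)).2.1 h)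
        filter_upwards [((htat l).ne_iff_eventually_ne hΛat).1 h1] with x hx _
        exact hx
    have hev2 : ∀ᶠ x in 𝓝 s, Complex.exp x • v ∈ ball (Complex.exp s • v) r :=
      hcont.continuousAt.eventually (ball_mem_nhds _ hr)
    have hev3 : ∀ᶠ x in 𝓝 s, c < x.re := (isOpen_hp c).mem_nhds hs
    have hev : (fun x => t j (Complex.exp x • v)) =ᶠ[𝓝 s] Λ i := by
      filter_upwards [hev1, hev2, hev3] with x h1 h2 h3
      have hmem : Λ i x ∈ {y | y ∈ Y ∧ pr y = Complex.exp x • v} := hΛY i x h3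
      rw [(hfib _ h2).2.2] at hmem
      obtain ⟨l, hl⟩ := hmem
      by_cases hlj : l = j
      · rw [← hlj]; exact hl
      · exact absurd hl (h1 l hlj)
    refine DifferentiableAt.congr_of_eventuallyEq ?_ hev.symm
    have h1 : DifferentiableAt ℂ (t j) (Complex.exp s • v) :=
      (ht j).differentiableAt (ball_mem_nhds _ hr)
    have h2 : DifferentiableAt ℂ (fun x : ℂ => Complex.exp x • v) s :=
      (Complex.differentiable_exp s).smul_const v
    exact DifferentiableAt.comp (f := fun x : ℂ => Complex.exp x • v) s h1 h2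
  · -- the fibres
    intro s hs
    apply Subset.antisymm
    · intro y hy
      obtain ⟨G, ⟨hG1, hG2⟩, _⟩ := hlift ⟨(⟨s, hs⟩, y), hy⟩
      obtain ⟨i, hi⟩ := hall G hG2
      refine ⟨i, ?_⟩
      simp only
      rw [hΛ i s hs, ← hi, hG1]
    · rintro y ⟨i, rfl⟩
      exact hΛY i s hs
  · intro i s hs
    have h1 := hτ (orderOf τ) i ⟨s, hs⟩
    rw [pow_orderOf_eq_one] at h1
    exact h1

end Pool.Agent.W424.T5
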