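import Mathlib
import Pool.Agent.H677R3.AbFinal
import Pool.Agent.H255R3.STC.Chordal

/-!
Co-chordal covers: the independence complex of a union of `t` co-chordal graphs is `t`-Leray.
-/

set_option autoImplicit false
set_option linter.unusedSectionVars false

namespace Pool.Agent.W424

open Finset Pool.Agent.H677R3 Pool.Agent.H677R3.Ab

universe u

variable {n : ℕ} {k : Type u} [Field k]

lemma hv_empty (H : Fin n → Fin n → Prop) (j : ℕ) (hj : 1 ≤ j) : HV k (Ind H ∅) j := by
  intro a ha _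
  have ha0 : ∀ F, a F = 0 := by
    intro F
    by_contra hF
    obtain ⟨g1, g2⟩ := ha F hF
    have := Finset.card_le_card g1.1
    simp at this
    rw [this] at g2
    simp at g2
    omega
  exact ⟨fun _ => 0, fun F h => absurd rfl h, fun F => by rw [bd_zero, ha0]⟩

lemma hv_noedge {H : Fin n → Fin n → Prop} (hH : ∀ x y, ¬ H x y) (U : Finset (Fin n)) (j : ℕ)
    (hj : 1 ≤ j) : HV k (Ind H U) j := by
  rcases U.eq_empty_or_nonempty with h0 | ⟨p, hp⟩
  · subst h0
    exact hv_empty H j hj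
  · apply HV.cone p
    rintro F ⟨g1, _⟩
    exact ⟨Finset.insert_subset hp g1, fun a _ b _ _ => hH a b⟩

/-- adding the edges of a co-chordal graph -/
lemma leray_step (G G1 H : SimpleGraph (Fin n)) (hG : ∀ x y, G.Adj x y ↔ G1.Adj x y ∨ H.Adj x y)
    (hH : Pool.Agent.H255R3.STC.IsChordal Hᶜ) (t : ℕ)
    (h1 : ∀ (U : Finset (Fin n)) (j : ℕ), t + 1 ≤ j → HV k (Ind G1.Adj U) j) :
    ∀ (m : ℕ) (U : Finset (Fin n)), U.card ≤ m → ∀ j : ℕ, t + 2 ≤ j → HV k (Ind G.Adj U) j := by
  classical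
  intro m
  induction m with
  | zero =>
    intro U hU j hj
    have : U = ∅ := Finset.card_eq_zero.mp (Nat.le_zero.mp hU)
    subst this
    exact hv_empty _ j (by omega)
  | succ m ih =>
    intro U hU j hj
    rcases U.eq_empty_or_nonempty with h0 | hne
    · subst h0
      exact hv_empty _ j (by omega)
    obtain ⟨v, hvU, hv⟩ : ∃ v ∈ U,
        (∀ a ∈ U, ∀ b ∈ U, Hᶜ.Adj v a → Hᶜ.Adj v b → a ≠ b → Hᶜ.Adj a b) := by
      by_cases h : ∃ x ∈ U, ∃ y ∈ U, y ≠ x ∧ ¬ Hᶜ.Adj x y
      · obtain ⟨x, hx, y, hy, hyx, hxy⟩ := h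
        obtain ⟨z, hz1, _, _, hz2⟩ :=
          Pool.Agent.H255R3.STC.exists_simplicial hH U.card U le_rfl x hx y hy hyx hxy
        exact ⟨z, hz1, hz2⟩
      · obtain ⟨z, hz⟩ := hne
        refine ⟨z, hz, fun a ha b hb _ _ hab => ?_⟩
        by_contra hnab
        exact h ⟨a, ha, b, hb, hab.symm, hnab⟩
    obtain ⟨j', rfl⟩ : ∃ j', j = j' + 1 := ⟨j - 1, by omega⟩
    refine HV.vertex (fun x y (h : G.Adj x y) => h.symm) hvU ?_ ?_
    · exact ih (U.erase v) (by
        rw [Finset.card_erase_of_mem hvU]; omega) (j' + 1) hj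
    · intro R hR
      refine HV.congr ?_ (h1 R j' (by omega))
      intro F
      constructor
      · rintro ⟨g1, g2⟩
        refine ⟨g1, fun x hx y hy hxy hadj => ?_⟩
        rcases (hG x y).mp hadj with h | h
        · exact g2 x hx y hy hxy h
        · obtain ⟨a1, a2, a3⟩ := (hR x).mp (g1 hx)
          obtain ⟨b1, b2, b3⟩ := (hR y).mp (g1 hy)
          have c1 : Hᶜ.Adj v x := by
            rw [SimpleGraph.compl_adj]
            exact ⟨a2.symm, fun h' => a3 ((hG v x).mpr (Or.inr h'))⟩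
          have c2 : Hᶜ.Adj v y := by
            rw [SimpleGraph.compl_adj]
            exact ⟨b2.symm, fun h' => b3 ((hG v y).mpr (Or.inr h'))⟩
          have c3 := hv x a1 y b1 c1 c2 hxy
          rw [SimpleGraph.compl_adj] at c3
          exact c3.2 h
      · rintro ⟨g1, g2⟩
        exact ⟨g1, fun x hx y hy hxy hadj => g2 x hx y hy hxy ((hG x y).mpr (Or.inl hadj))⟩

/-- the independence complex of a union of `t` co-chordal graphs has no homology in degrees `≥ t` -/
theorem leray (t : ℕ) : ∀ (G : SimpleGraph (Fin n)) (H : Fin t → SimpleGraph (Fin n)),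
    (∀ x y, G.Adj x y ↔ ∃ i, (H i).Adj x y) →
    (∀ i, Pool.Agent.H255R3.STC.IsChordal (H i)ᶜ) →
    ∀ (U : Finset (Fin n)) (j : ℕ), t + 1 ≤ j → HV k (Ind G.Adj U) j := by
  induction t with
  | zero =>
    intro G H hG _ U j hj
    refine hv_noedge (fun x y h => ?_) U j hj
    obtain ⟨i, _⟩ := (hG x y).mp h
    exact i.elim0
  | succ t ih =>
    intro G H hG hH U j hj
    let G1 : SimpleGraph (Fin n) := ⨆ i : Fin t, H i.castSucc
    refine leray_step G G1 (H (Fin.last t)) ?_ (hH _) t (ih G1 (fun i => H i.castSucc) ?_ (fun i => hH _))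
      U.card U le_rfl j hj
    · intro x y
      rw [hG x y]
      simp only [G1, SimpleGraph.iSup_adj]
      constructor
      · rintro ⟨i, hi⟩
        induction i using Fin.lastCases with
        | last => exact Or.inr hi
        | cast i => exact Or.inl ⟨i, hi⟩
      · rintro (⟨i, hi⟩ | hi)
        · exact ⟨_, hi⟩
        · exact ⟨_, hi⟩
    · intro x y
      simp only [G1, SimpleGraph.iSup_adj]

/-- the bound on powers -/
theorem cochord_bound (G : SimpleGraph (Fin n)) (hE : ∃ u v, G.Adj u v) (t : ℕ)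
    (H : Fin t → SimpleGraph (Fin n)) (hG : ∀ x y, G.Adj x y ↔ ∃ i, (H i).Adj x y)
    (hH : ∀ i, Pool.Agent.H255R3.STC.IsChordal (H i)ᶜ) (q : ℕ) (hq : 1 ≤ q) :
    ∃ s : ℕ, EdgeReg.IsReg ((EdgeReg.edgeIdeal k G) ^ q) s ∧ s + 1 ≤ 2 * q + t := by
  obtain ⟨u, v, huv⟩ := hE
  obtain ⟨s, hs, hsB⟩ := reg_exists ((EdgeReg.edgeIdeal k G) ^ q) (2 * q + (t + 1) - 2) (by
    intro i e he
    exact ab_upper G (t + 1) q (by omega) hq (fun U0 j hj => leray t G H hG hH U0 j hj) i e (by omega))
    ⟨0, 2 * q, tor_gen G huv q⟩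
  exact ⟨s, hs, by omega⟩

/-- a subgraph with co-chordal `coe` has co-chordal spanning graph -/
lemma chordal_spanning {G : SimpleGraph (Fin n)} (S : G.Subgraph)
    (h : Pool.Agent.H255R3.STC.IsChordal (S.coe)ᶜ) :
    Pool.Agent.H255R3.STC.IsChordal (S.spanningCoe)ᶜ := by
  intro m hm
  refine ⟨fun f => ?_⟩
  obtain ⟨l, rfl⟩ : ∃ l, m = l + 2 := ⟨m - 2, by omega⟩
  have hmem : ∀ i, f i ∈ S.verts := by
    intro i
    by_contra hi
    obtain ⟨j, hji, hj⟩ : ∃ j : Fin (l + 2), j ≠ i ∧ ¬ (SimpleGraph.cycleGraph (l + 2)).Adj i j := by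
      have hil := i.isLt
      by_cases h2 : 2 ≤ i.val
      · refine ⟨⟨i.val - 2, by omega⟩, ?_, ?_⟩
        · intro h3
          have := congrArg Fin.val h3
          simp only at this
          omega
        · rw [Pool.Agent.H255R3.STC.cycle_adj]
          simp only
          omega
      · refine ⟨⟨i.val + 2, by omega⟩, ?_, ?_⟩
        · intro h3
          have := congrArg Fin.val h3
          simp only at this
          omega
        · rw [Pool.Agent.H255R3.STC.cycle_adj]
          simp only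
          omega
    apply hj
    rw [← f.map_adj_iff, SimpleGraph.compl_adj]
    refine ⟨fun h => hji (f.injective h).symm, fun h3 => hi ?_⟩
    rw [SimpleGraph.Subgraph.spanningCoe_adj] at h3
    exact S.edge_vert h3
  let g : Fin (l + 2) → S.verts := fun i => ⟨f i, hmem i⟩
  have hg : Function.Injective g := fun a b hab => f.injective (congrArg Subtype.val hab)
  have hgadj : ∀ a b, (S.coe)ᶜ.Adj (g a) (g b) ↔ (SimpleGraph.cycleGraph (l + 2)).Adj a b := by
    intro a b
    rw [SimpleGraph.compl_adj, ← f.map_adj_iff, SimpleGraph.compl_adj, SimpleGraph.Subgraph.coe_adj,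
      SimpleGraph.Subgraph.spanningCoe_adj]
    have h1 : g a ≠ g b ↔ f a ≠ f b := by
      rw [hg.ne_iff, f.injective.ne_iff]
    rw [h1]
  exact (h (l + 2) hm).false ⟨⟨g, hg⟩, fun {a b} => hgadj a b⟩

end Pool.Agent.W424
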