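import Pool.Agent.W489.Dem.Stubs

/-!
Smoothness of the matrix embedding along holomorphic maps.
-/

set_option autoImplicit false

open scoped LinearAlgebra.Projectivization Topology
open Metric Set Filter

namespace Pool.Agent.W424.Dem

open W489.Dem

variable {ι : Type} [Fintype ι]

theorem prj_contDiffAt {v : ι → ℂ} (hv : v ≠ 0) : ContDiffAt ℝ (⊤ : ℕ∞) (prj : (ι → ℂ) → ι × ι → ℂ) v := by
  rw [contDiffAt_pi]
  intro q
  unfold prj
  have hp : ∀ i : ι, ContDiffAt ℝ (⊤ : ℕ∞) (fun v : ι → ℂ => v i) v := fun i =>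
    ((ContinuousLinearMap.proj (R := ℝ) (φ := fun _ : ι => ℂ) i).contDiff).contDiffAt
  have hc : ContDiff ℝ (⊤ : ℕ∞) (fun z : ℂ => (starRingEnd ℂ) z) :=
    Complex.conjCLE.contDiff
  have hnum : ContDiffAt ℝ (⊤ : ℕ∞) (fun v : ι → ℂ => v q.1 * (starRingEnd ℂ) (v q.2)) v :=
    (hp q.1).mul (hc.contDiffAt.comp v (hp q.2))
  have hden : ContDiffAt ℝ (⊤ : ℕ∞) (fun v : ι → ℂ => ((∑ k, ‖v k‖ ^ 2 : ℝ) : ℂ)) v := by
    have h1 : (fun v : ι → ℂ => ((∑ k, ‖v k‖ ^ 2 : ℝ) : ℂ)) =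
        fun v : ι → ℂ => ∑ k, v k * (starRingEnd ℂ) (v k) := by
      funext v
      push_cast
      refine Finset.sum_congr rfl fun k _ => ?_
      rw [Complex.mul_conj, Complex.normSq_eq_norm_sq]; push_cast; rfl
    rw [h1]
    exact ContDiffAt.sum fun k _ => (hp k).mul (hc.contDiffAt.comp v (hp k))
  have hne : ((∑ k, ‖v k‖ ^ 2 : ℝ) : ℂ) ≠ 0 := by exact_mod_cast (nsq_pos hv).ne'
  have := hnum.mul (hden.inv hne)
  simp only [div_eq_mul_inv]
  exact this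

theorem prj_norm_le (v : ι → ℂ) : ‖prj v‖ ≤ 1 := by
  rw [pi_norm_le_iff_of_nonneg zero_le_one]
  intro q
  by_cases hv : v = 0
  · subst hv; simp [prj]
  have hN := nsq_pos hv
  unfold prj
  rw [norm_div, norm_mul, RCLike.norm_conj, Complex.norm_real, Real.norm_of_nonneg hN.le,
    div_le_one hN]
  have h1 : ‖v q.1‖ ^ 2 ≤ ∑ k, ‖v k‖ ^ 2 :=
    Finset.single_le_sum (f := fun k => ‖v k‖ ^ 2) (fun _ _ => by positivity) (Finset.mem_univ _)
  have h2 : ‖v q.2‖ ^ 2 ≤ ∑ k, ‖v k‖ ^ 2 :=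
    Finset.single_le_sum (f := fun k => ‖v k‖ ^ 2) (fun _ _ => by positivity) (Finset.mem_univ _)
  nlinarith [sq_nonneg (‖v q.1‖ - ‖v q.2‖)]

/-- the composition of a real-differentiable function with a holomorphic function -/
theorem fderiv_comp_hol {E F : Type*} [NormedAddCommGroup E] [NormedSpace ℂ E]
    [NormedAddCommGroup F] [NormedSpace ℝ F] (P : E → F) (g : ℂ → E) (t : ℂ)
    (hP : DifferentiableAt ℝ P (g t)) (hg : DifferentiableAt ℂ g t) :
    fderiv ℝ (fun t => P (g t)) t =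
      (fderiv ℝ P (g t)).comp ((fderiv ℂ g t).restrictScalars ℝ) := by
  have h1 : HasFDerivAt g ((fderiv ℂ g t).restrictScalars ℝ) t :=
    hg.hasFDerivAt.restrictScalars ℝ
  exact (hP.hasFDerivAt.comp t h1).fderiv

theorem contDiffAt_of_holMap {U : Set ℂ} {f : ℂ → PS ι} (hf : HolMap U f) {t : ℂ} (ht : t ∈ U) :
    ContDiffAt ℝ (⊤ : ℕ∞) (fun t => PhiP (f t)) t := by
  obtain ⟨W, g, hW, htW, hg, hfg⟩ := hf t ht
  have h1 : (fun t => PhiP (f t)) =ᶠ[𝓝 t] fun t => prj (g t) := by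
    filter_upwards [hW.mem_nhds htW] with s hs
    obtain ⟨h, he⟩ := hfg s hs
    rw [he, PhiP_mk]
  refine ContDiffAt.congr_of_eventuallyEq ?_ h1
  have h2 : ContDiffAt ℂ (⊤ : ℕ∞) g t :=
    ((hg.analyticAt (hW.mem_nhds htW)).contDiffAt)
  exact (prj_contDiffAt (hfg t htW).choose).comp t (h2.restrict_scalars ℝ)

/-- the norm of the composition of a real-linear map with the multiplication by a complex
number -/
theorem norm_comp_mul {F : Type*} [NormedAddCommGroup F] [NormedSpace ℝ F] (L : ℂ →L[ℝ] F) (c : ℂ) :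
    ‖L.comp ((ContinuousLinearMap.toSpanSingleton ℂ c).restrictScalars ℝ : ℂ →L[ℝ] ℂ)‖ = ‖L‖ * ‖c‖ := by
  by_cases hc : c = 0
  · subst hc
    have : (L.comp ((ContinuousLinearMap.toSpanSingleton ℂ (0 : ℂ)).restrictScalars ℝ : ℂ →L[ℝ] ℂ)) = 0 := by
      ext; simp
    rw [this]; simp
  apply le_antisymm
  · refine ContinuousLinearMap.opNorm_le_bound _ (by positivity) fun z => ?_
    simp only [ContinuousLinearMap.coe_comp, Function.comp_apply,
      ContinuousLinearMap.coe_restrictScalars', ContinuousLinearMap.toSpanSingleton_apply, smul_eq_mul]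
    calc ‖L (z * c)‖ ≤ ‖L‖ * ‖z * c‖ := L.le_opNorm _
      _ = ‖L‖ * ‖c‖ * ‖z‖ := by rw [norm_mul]; ring
  · have hc' : 0 < ‖c‖ := norm_pos_iff.2 hc
    rw [← le_div_iff₀ hc']
    refine ContinuousLinearMap.opNorm_le_bound _ (by positivity) fun z => ?_
    have h := (L.comp ((ContinuousLinearMap.toSpanSingleton ℂ c).restrictScalars ℝ : ℂ →L[ℝ] ℂ)).le_opNorm (z / c)
    simp only [ContinuousLinearMap.coe_comp, Function.comp_apply,
      ContinuousLinearMap.coe_restrictScalars', ContinuousLinearMap.toSpanSingleton_apply, smul_eq_mul] at h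
    rw [div_mul_cancel₀ _ hc, norm_div] at h
    calc ‖L z‖ ≤ _ := h
      _ = _ := by ring

theorem fderiv_comp_norm {F : Type*} [NormedAddCommGroup F] [NormedSpace ℝ F] (P : ℂ → F)
    (φ : ℂ → ℂ) (c t : ℂ) (hP : DifferentiableAt ℝ P (φ t)) (hφ : HasDerivAt φ c t) :
    ‖fderiv ℝ (fun t => P (φ t)) t‖ = ‖fderiv ℝ P (φ t)‖ * ‖c‖ := by
  rw [fderiv_comp_hol P φ t hP hφ.differentiableAt]
  have : fderiv ℂ φ t = ContinuousLinearMap.toSpanSingleton ℂ c := by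
    rw [hφ.hasFDerivAt.fderiv]
  rw [this]
  exact norm_comp_mul _ _

theorem HolMap.comp {U V : Set ℂ} {f : ℂ → PS ι} (hf : HolMap U f) (φ : ℂ → ℂ)
    (hφ : DifferentiableOn ℂ φ V) (hV : IsOpen V) (hUV : ∀ t ∈ V, φ t ∈ U) :
    HolMap V (fun t => f (φ t)) := by
  intro t ht
  obtain ⟨W, g, hW, htW, hg, hfg⟩ := hf (φ t) (hUV t ht)
  refine ⟨V ∩ φ ⁻¹' W, fun t => g (φ t), hφ.continuousOn.isOpen_inter_preimage hV hW, ⟨ht, htW⟩,
    ?_, fun t' ht' => hfg _ ht'.2⟩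
  exact hg.comp (hφ.mono inter_subset_left) fun s hs => hs.2

end Pool.Agent.W424.Dem
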