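import Pool.Agent.W805.ER.Defs

/-!
Parseval for continuous Hilbert space valued functions.
-/

set_option autoImplicit false

open MeasureTheory Complex Filter Topology Set
open scoped ENNReal Real

namespace Pool.Agent.W424.ER1

open Pool.Agent.W805.ER

theorem scalar {L : ℝ} (hL : 0 < L) {f : ℝ → ℂ} (hf : ContinuousOn f (Icc 0 L)) :
    HasSum (fun n : ℤ => ‖∫ t in (0 : ℝ)..L, cexp (-((2 * π * n / L : ℝ) * I) * t) * f t‖ ^ 2)
      (L * ∫ t in (0 : ℝ)..L, ‖f t‖ ^ 2) := by
  have hmem : MemLp f 2 (volume.restrict (Ioc 0 L)) := by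
    have hm : AEStronglyMeasurable f (volume.restrict (Ioc 0 L)) :=
      (hf.mono Ioc_subset_Icc_self).aestronglyMeasurable measurableSet_Ioc
    obtain ⟨C, hC⟩ := isCompact_Icc.exists_bound_of_continuousOn hf
    refine MemLp.of_bound hm C ?_
    rw [ae_restrict_iff' measurableSet_Ioc]
    exact Eventually.of_forall fun x hx => hC x (Ioc_subset_Icc_self hx)
  have h := (hasSum_sq_fourierCoeffOn hL hmem).mul_left (L ^ 2)
  have e1 : L ^ 2 * ((L - 0)⁻¹ • ∫ x in (0 : ℝ)..L, ‖f x‖ ^ 2) = L * ∫ t in (0 : ℝ)..L, ‖f t‖ ^ 2 := by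
    rw [smul_eq_mul, sub_zero]; field_simp
  rw [e1] at h
  have e2 : (fun i : ℤ => L ^ 2 * ‖fourierCoeffOn hL f i‖ ^ 2) =
      fun n : ℤ => ‖∫ t in (0 : ℝ)..L, cexp (-((2 * π * n / L : ℝ) * I) * t) * f t‖ ^ 2 := by
    funext n
    rw [fourierCoeffOn_eq_integral]
    have e3 : (∫ x in (0 : ℝ)..L, (fourier (-n)) (x : AddCircle (L - 0)) • f x) =
        ∫ t in (0 : ℝ)..L, cexp (-((2 * π * n / L : ℝ) * I) * t) * f t := by
      congr 1
      funext x
      rw [fourier_coe_apply, smul_eq_mul]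
      congr 2
      push_cast
      rw [sub_zero]
      ring
    rw [e3, norm_smul, mul_pow]
    rw [show ‖(1 / (L - 0) : ℝ)‖ = 1 / L by
      rw [sub_zero, Real.norm_of_nonneg (by positivity)]]
    field_simp
  rw [e2] at h
  exact h

theorem norm_sq_repr {ι H : Type} [NormedAddCommGroup H] [InnerProductSpace ℂ H] [CompleteSpace H]
    (e : HilbertBasis ι ℂ H) (x : H) :
    ∑' k, ENNReal.ofReal (‖inner ℂ (e k) x‖ ^ 2) = ENNReal.ofReal (‖x‖ ^ 2) := by
  have h := e.hasSum_inner_mul_inner x x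
  have h2 : HasSum (fun k => ‖inner ℂ (e k) x‖ ^ 2) (‖x‖ ^ 2) := by
    have h3 := Complex.hasSum_re h
    have e1 : (inner ℂ x x).re = ‖x‖ ^ 2 := by
      rw [inner_self_eq_norm_sq_to_K]
      norm_cast
    rw [e1] at h3
    convert h3 using 2 with k
    rw [← inner_conj_symm x (e k), mul_comm, Complex.mul_conj, Complex.normSq_eq_norm_sq]
    norm_cast
  rw [← h2.tsum_eq, ENNReal.ofReal_tsum_of_nonneg (fun _ => by positivity) h2.summable]

theorem main : TaskParseval := by
  intro ι H _ _ _ _ e L f hL hf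
  -- the coordinates
  have hfk : ∀ k, ContinuousOn (fun t => inner ℂ (e k) (f t)) (Icc 0 L) := fun k =>
    ContinuousOn.inner (𝕜 := ℂ) continuousOn_const hf
  set g : ℤ → H := fun n => ∫ t in (0 : ℝ)..L, cexp (-((2 * π * n / L : ℝ) * I) * t) • f t with hg
  have hexp : ∀ n : ℤ, Continuous fun t : ℝ => cexp (-((2 * π * n / L : ℝ) * I) * t) := by
    intro n; fun_prop
  have hgk : ∀ n k, inner ℂ (e k) (g n) =
      ∫ t in (0 : ℝ)..L, cexp (-((2 * π * n / L : ℝ) * I) * t) * inner ℂ (e k) (f t) := by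
    intro n k
    have hint : IntervalIntegrable (fun t : ℝ => cexp (-((2 * π * n / L : ℝ) * I) * t) • f t)
        volume 0 L := by
      apply ContinuousOn.intervalIntegrable
      rw [uIcc_of_le hL.le]
      exact (hexp n).continuousOn.smul hf
    have h1 := ContinuousLinearMap.intervalIntegral_comp_comm (innerSL ℂ (e k)) hint
    simp only [innerSL_apply_apply, inner_smul_right] at h1
    exact h1.symm
  have hsc := fun k => scalar hL (hfk k)
  have hE : ∑' n : ℤ, ENNReal.ofReal (‖g n‖ ^ 2) =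
      ENNReal.ofReal (L * ∫ t in (0 : ℝ)..L, ‖f t‖ ^ 2) := by
    calc ∑' n : ℤ, ENNReal.ofReal (‖g n‖ ^ 2)
        = ∑' n : ℤ, ∑' k, ENNReal.ofReal (‖inner ℂ (e k) (g n)‖ ^ 2) := by
          simp only [norm_sq_repr e]
      _ = ∑' k, ∑' n : ℤ, ENNReal.ofReal (‖inner ℂ (e k) (g n)‖ ^ 2) := ENNReal.tsum_comm
      _ = ∑' k, ENNReal.ofReal (L * ∫ t in (0 : ℝ)..L, ‖inner ℂ (e k) (f t)‖ ^ 2) := by
          congr 1
          funext k
          rw [← (hsc k).tsum_eq, ENNReal.ofReal_tsum_of_nonneg (fun _ => by positivity)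
            (hsc k).summable]
          simp only [hgk]
      _ = ∑' k, ENNReal.ofReal L * ∫⁻ t in Ioc 0 L, ENNReal.ofReal (‖inner ℂ (e k) (f t)‖ ^ 2) := by
          congr 1
          funext k
          rw [ENNReal.ofReal_mul hL.le, intervalIntegral.integral_of_le hL.le,
            ofReal_integral_eq_lintegral_ofReal]
          · have : ContinuousOn (fun t => ‖inner ℂ (e k) (f t)‖ ^ 2) (Icc 0 L) := (hfk k).norm.pow 2
            exact (this.integrableOn_Icc).mono_set Ioc_subset_Icc_self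
          · exact Eventually.of_forall fun _ => by positivity
      _ = ENNReal.ofReal L * ∫⁻ t in Ioc 0 L, ∑' k, ENNReal.ofReal (‖inner ℂ (e k) (f t)‖ ^ 2) := by
          rw [ENNReal.tsum_mul_left, lintegral_tsum]
          intro k
          have : ContinuousOn (fun t => ‖inner ℂ (e k) (f t)‖ ^ 2) (Ioc 0 L) :=
            ((hfk k).norm.pow 2).mono Ioc_subset_Icc_self
          exact (this.aemeasurable measurableSet_Ioc).ennreal_ofReal
      _ = ENNReal.ofReal L * ∫⁻ t in Ioc 0 L, ENNReal.ofReal (‖f t‖ ^ 2) := by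
          simp only [norm_sq_repr e]
      _ = ENNReal.ofReal (L * ∫ t in (0 : ℝ)..L, ‖f t‖ ^ 2) := by
          rw [ENNReal.ofReal_mul hL.le, intervalIntegral.integral_of_le hL.le,
            ofReal_integral_eq_lintegral_ofReal]
          · have : ContinuousOn (fun t => ‖f t‖ ^ 2) (Icc 0 L) := hf.norm.pow 2
            exact (this.integrableOn_Icc).mono_set Ioc_subset_Icc_self
          · exact Eventually.of_forall fun _ => by positivity
  have hne : ∑' n : ℤ, ENNReal.ofReal (‖g n‖ ^ 2) ≠ ∞ := by rw [hE]; exact ENNReal.ofReal_ne_top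
  have h1 := ENNReal.hasSum_toReal hne
  rw [← ENNReal.tsum_toReal_eq (fun _ => ENNReal.ofReal_ne_top), hE] at h1
  rw [ENNReal.toReal_ofReal (by
    apply mul_nonneg hL.le
    exact intervalIntegral.integral_nonneg hL.le fun _ _ => by positivity)] at h1
  convert h1 using 2 with n
  rw [ENNReal.toReal_ofReal (by positivity)]

end Pool.Agent.W424.ER1
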