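import Pool.Agent.W805.ER.Defs

/-!
Energy estimates for the abstract damped wave system.
-/

set_option autoImplicit false

open MeasureTheory Complex Filter Topology Set
open scoped ENNReal Real

namespace Pool.Agent.W424.ER2

open Pool.Agent.W805.ER

section
variable {ι H : Type} [NormedAddCommGroup H] [InnerProductSpace ℂ H] [CompleteSpace H]

omit [CompleteSpace H] in
theorem mult_sym {e : HilbertBasis ι ℂ H} {d : ι → ℝ} {w h a g : H} (h1 : Mult e d w h)
    (h2 : Mult e d a g) : inner ℂ a h = inner ℂ g w := by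
  have s1 := e.hasSum_inner_mul_inner a h
  have s2 := e.hasSum_inner_mul_inner g w
  have : (fun i => inner ℂ a (e i) * inner ℂ (e i) h) =
      fun i => inner ℂ g (e i) * inner ℂ (e i) w := by
    funext i
    have e1 := h1 i
    have e2 := h2 i
    rw [e.repr_apply_apply, e.repr_apply_apply] at e1 e2
    rw [← inner_conj_symm g (e i), e2, e1, map_mul, inner_conj_symm, Complex.conj_ofReal]
    ring
  rw [this] at s1
  exact s1.unique s2

omit [CompleteSpace H] in
theorem mult_sub {e : HilbertBasis ι ℂ H} {d : ι → ℝ} {w h w' h' : H} (h1 : Mult e d w h)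
    (h2 : Mult e d w' h') : Mult e d (w - w') (h - h') := by
  intro k
  have := h1 k; have := h2 k
  rw [map_sub, map_sub]
  simp only [lp.coeFn_sub, Pi.sub_apply]
  rw [h1 k, h2 k]; ring

omit [CompleteSpace H] in
theorem mult_smul {e : HilbertBasis ι ℂ H} {d : ι → ℝ} {w h : H} (h1 : Mult e d w h) (c : ℂ) :
    Mult e d (c • w) (c • h) := by
  intro k
  rw [map_smul, map_smul]
  simp only [lp.coeFn_smul, Pi.smul_apply, smul_eq_mul]
  rw [h1 k]; ring

omit [CompleteSpace H] in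
theorem sol_sub {e : HilbertBasis ι ℂ H} {d : ι → ℝ} {D : H →L[ℂ] H} {a w a₁ w₁ b v b₁ v₁ : ℝ → H}
    (h : Sol e d D a w a₁ w₁) (h' : Sol e d D b v b₁ v₁) :
    Sol e d D (fun t => a t - b t) (fun t => w t - v t) (fun t => a₁ t - b₁ t)
      (fun t => w₁ t - v₁ t) where
  ha := fun t ht => (h.ha t ht).fun_sub (h'.ha t ht)
  hw := fun t ht => (h.hw t ht).fun_sub (h'.hw t ht)
  ca := h.ca.fun_sub h'.ca
  cw := h.cw.fun_sub h'.cw
  ga := fun t ht => mult_sub (h.ga t ht) (h'.ga t ht)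
  gw := fun t ht => by
    have := mult_sub (h.gw t ht) (h'.gw t ht)
    convert this using 1
    rw [map_sub]; abel

omit [CompleteSpace H] in
theorem sol_shift {e : HilbertBasis ι ℂ H} {d : ι → ℝ} {D : H →L[ℂ] H} {a w a₁ w₁ : ℝ → H}
    (h : Sol e d D a w a₁ w₁) {s : ℝ} (hs : 0 ≤ s) :
    Sol e d D (fun t => a (t + s)) (fun t => w (t + s)) (fun t => a₁ (t + s))
      (fun t => w₁ (t + s)) := by
  have hmap : MapsTo (fun t : ℝ => t + s) (Ici 0) (Ici 0) := fun t ht => by
    simp only [mem_Ici] at ht ⊢; linarith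
  have hd : ∀ t : ℝ, HasDerivWithinAt (fun t : ℝ => t + s) 1 (Ici 0) t := fun t =>
    ((hasDerivAt_id t).add_const s).hasDerivWithinAt
  refine ⟨fun t ht => ?_, fun t ht => ?_, ?_, ?_, fun t ht => h.ga _ (hmap ht),
    fun t ht => h.gw _ (hmap ht)⟩
  · have := HasDerivWithinAt.scomp t (h.ha (t + s) (hmap ht)) (hd t) hmap
    simpa [Function.comp_def] using this
  · have := HasDerivWithinAt.scomp t (h.hw (t + s) (hmap ht)) (hd t) hmap
    simpa [Function.comp_def] using this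
  · exact h.ca.comp (by fun_prop) hmap
  · exact h.cw.comp (by fun_prop) hmap

omit [CompleteSpace H] in
theorem norm_sq_deriv {a : ℝ → H} {v : H} {s : Set ℝ} {t : ℝ} (h : HasDerivWithinAt a v s t) :
    HasDerivWithinAt (fun x => ‖a x‖ ^ 2) (2 * (inner ℂ (a t) v).re) s t := by
  let _ : InnerProductSpace ℝ H := InnerProductSpace.rclikeToReal ℂ H
  exact HasDerivWithinAt.norm_sq (F := H) h

omit [CompleteSpace H] in
theorem energy_deriv {e : HilbertBasis ι ℂ H} {d : ι → ℝ} {D : H →L[ℂ] H} {a w a₁ w₁ : ℝ → H}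
    (h : Sol e d D a w a₁ w₁) {t : ℝ} (ht : 0 ≤ t) :
    HasDerivWithinAt (fun t => ‖a t‖ ^ 2 + ‖w t‖ ^ 2) (-2 * (inner ℂ (w t) (D (w t))).re)
      (Ici 0) t := by
  have h3 := (norm_sq_deriv (h.ha t ht)).fun_add (norm_sq_deriv (h.hw t ht))
  have h4 := mult_sym (h.ga t ht) (h.gw t ht)
  rw [inner_sub_left, inner_neg_left] at h4
  have h5 := congrArg Complex.re h4
  rw [Complex.sub_re, Complex.neg_re] at h5
  have e3 : (inner ℂ (w₁ t) (w t)).re = (inner ℂ (w t) (w₁ t)).re := by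
    rw [← inner_conj_symm, Complex.conj_re]
  have e4 : (inner ℂ (D (w t)) (w t)).re = (inner ℂ (w t) (D (w t))).re := by
    rw [← inner_conj_symm, Complex.conj_re]
  have e5 : 2 * (inner ℂ (a t) (a₁ t)).re + 2 * (inner ℂ (w t) (w₁ t)).re =
      -2 * (inner ℂ (w t) (D (w t))).re := by
    rw [h5, e3, e4]; ring
  rw [e5] at h3
  exact h3

omit [CompleteSpace H] in
theorem energy_antitone {e : HilbertBasis ι ℂ H} {d : ι → ℝ} {D : H →L[ℂ] H}
    (hD : ∀ w : H, 0 ≤ (inner ℂ w (D w)).re) {a w a₁ w₁ : ℝ → H}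
    (h : Sol e d D a w a₁ w₁) : AntitoneOn (fun t => ‖a t‖ ^ 2 + ‖w t‖ ^ 2) (Ici 0) := by
  refine antitoneOn_of_hasDerivWithinAt_nonpos (convex_Ici 0)
    (f' := fun t => -2 * (inner ℂ (w t) (D (w t))).re) ?_ ?_ ?_
  · intro t ht
    exact (energy_deriv h ht).continuousWithinAt
  · intro t ht
    exact (energy_deriv h (interior_subset ht)).mono interior_subset
  · intro t ht
    linarith [hD (w t)]

omit [CompleteSpace H] in
theorem slope_right {a : ℝ → H} {v : H} {t : ℝ} (ht : 0 ≤ t) (h : HasDerivWithinAt a v (Ici 0) t) :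
    Tendsto (fun s : ℝ => s⁻¹ • (a (t + s) - a t)) (𝓝[>] 0) (𝓝 v) := by
  have h1 : HasDerivWithinAt a v (Ioi t) t := h.mono fun s hs => by
    simp only [mem_Ioi] at hs; simp only [mem_Ici]; linarith
  rw [hasDerivWithinAt_iff_tendsto_slope' (by simp)] at h1
  have h2 : Tendsto (fun s : ℝ => t + s) (𝓝[>] 0) (𝓝[>] t) := by
    refine tendsto_nhdsWithin_iff.2 ⟨?_, ?_⟩
    · have : Continuous fun s : ℝ => t + s := by fun_prop
      have h3 := (this.tendsto 0).mono_left (nhdsWithin_le_nhds (s := Ioi 0))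
      simpa using h3
    · filter_upwards [self_mem_nhdsWithin] with s hs
      simp only [mem_Ioi] at hs ⊢; linarith
  have h3 := h1.comp h2
  refine h3.congr fun s => ?_
  simp [slope_def_module]

end

theorem main : TaskEnergy := by
  intro ι H _ _ _ e d D hD a w a₁ w₁ h
  refine ⟨energy_antitone hD h, fun t ht => ?_⟩
  have key : ∀ s : ℝ, 0 < s → ‖s⁻¹ • (a (t + s) - a t)‖ ^ 2 + ‖s⁻¹ • (w (t + s) - w t)‖ ^ 2 ≤
      ‖s⁻¹ • (a (0 + s) - a 0)‖ ^ 2 + ‖s⁻¹ • (w (0 + s) - w 0)‖ ^ 2 := by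
    intro s hs
    have h1 := energy_antitone hD (sol_sub (sol_shift h hs.le) h) (mem_Ici.2 le_rfl) (mem_Ici.2 ht) ht
    simp only at h1
    simp only [norm_smul, mul_pow, ← mul_add]
    exact mul_le_mul_of_nonneg_left h1 (by positivity)
  have l1 := ((slope_right ht (h.ha t ht)).norm.pow 2).add ((slope_right ht (h.hw t ht)).norm.pow 2)
  have l2 := ((slope_right le_rfl (h.ha 0 le_rfl)).norm.pow 2).add
    ((slope_right le_rfl (h.hw 0 le_rfl)).norm.pow 2)
  refine le_of_tendsto_of_tendsto l1 l2 ?_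
  filter_upwards [self_mem_nhdsWithin] with s hs
  exact key s hs

end Pool.Agent.W424.ER2
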