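import Pool.Agent.W805.ER.Defs

/-!
Existence of classical solutions for the abstract damped wave system.
-/

set_option autoImplicit false
set_option linter.unusedSectionVars false

open MeasureTheory Complex Filter Topology Set
open scoped ENNReal Real

namespace Pool.Agent.W424.ER4

open Pool.Agent.W805.ER

section diag
variable {ι H : Type} [NormedAddCommGroup H] [InnerProductSpace ℂ H] [CompleteSpace H]

omit [CompleteSpace H] in
theorem hs_norm (e : HilbertBasis ι ℂ H) (x : H) :
    HasSum (fun k => ‖e.repr x k‖ ^ 2) (‖x‖ ^ 2) := by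
  have h := e.hasSum_inner_mul_inner x x
  have h2 : HasSum (fun k => ((‖e.repr x k‖ ^ 2 : ℝ) : ℂ)) ((‖x‖ ^ 2 : ℝ) : ℂ) := by
    have h3 : (inner ℂ x x : ℂ) = ((‖x‖ ^ 2 : ℝ) : ℂ) := by
      rw [inner_self_eq_norm_sq_to_K]
      norm_cast
    rw [h3] at h
    have h4 : (fun k => inner ℂ x (e k) * inner ℂ (e k) x) =
        fun k => ((‖e.repr x k‖ ^ 2 : ℝ) : ℂ) := by
      funext k
      rw [e.repr_apply_apply, ← inner_conj_symm x (e k), mul_comm, Complex.mul_conj,
        Complex.normSq_eq_norm_sq]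
    rw [h4] at h
    exact h
  exact_mod_cast h2

omit [CompleteSpace H] in
theorem mem_diag (e : HilbertBasis ι ℂ H) (m : ι → ℂ) (hm : ∀ k, ‖m k‖ = 1) (x : H) :
    Memℓp (fun k => m k * e.repr x k) 2 := by
  have h := (lp.memℓp (e.repr x))
  rw [memℓp_gen_iff (by norm_num)] at h ⊢
  refine h.congr fun k => ?_
  rw [norm_mul, hm k, one_mul]

/-- diagonal operator with unimodular entries -/
noncomputable def dg (e : HilbertBasis ι ℂ H) (m : ι → ℂ) (hm : ∀ k, ‖m k‖ = 1) (x : H) : H :=
  e.repr.symm ⟨fun k => m k * e.repr x k, mem_diag e m hm x⟩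

omit [CompleteSpace H] in
theorem dg_repr (e : HilbertBasis ι ℂ H) (m : ι → ℂ) (hm : ∀ k, ‖m k‖ = 1) (x : H) (k : ι) :
    e.repr (dg e m hm x) k = m k * e.repr x k := by
  unfold dg
  rw [LinearIsometryEquiv.apply_symm_apply]

omit [CompleteSpace H] in
theorem ext_repr (e : HilbertBasis ι ℂ H) {x y : H} (h : ∀ k, e.repr x k = e.repr y k) :
    x = y := by
  apply e.repr.injective
  ext k
  exact h k

theorem dg_sub (e : HilbertBasis ι ℂ H) (m : ι → ℂ) (hm : ∀ k, ‖m k‖ = 1) (x y : H) :
    dg e m hm (x - y) = dg e m hm x - dg e m hm y := by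
  apply ext_repr e
  intro k
  rw [map_sub, lp.coeFn_sub, Pi.sub_apply, dg_repr, dg_repr, dg_repr, map_sub, lp.coeFn_sub,
    Pi.sub_apply]
  ring

theorem dg_norm (e : HilbertBasis ι ℂ H) (m : ι → ℂ) (hm : ∀ k, ‖m k‖ = 1) (x : H) :
    ‖dg e m hm x‖ = ‖x‖ := by
  have h1 := hs_norm e (dg e m hm x)
  have h2 := hs_norm e x
  have : (fun k => ‖e.repr (dg e m hm x) k‖ ^ 2) = fun k => ‖e.repr x k‖ ^ 2 := by
    funext k; rw [dg_repr, norm_mul, hm k, one_mul]
  rw [this] at h1
  have := h1.unique h2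
  exact (pow_left_inj₀ (norm_nonneg _) (norm_nonneg _) two_ne_zero).1 this

theorem um (d : ι → ℝ) (s : ℝ) (k : ι) : ‖cexp ((s * d k : ℝ) * I)‖ = 1 :=
  Complex.norm_exp_ofReal_mul_I _

/-- the unitary group generated by the diagonal operator -/
noncomputable def V (e : HilbertBasis ι ℂ H) (d : ι → ℝ) (s : ℝ) (x : H) : H :=
  dg e (fun k => cexp ((s * d k : ℝ) * I)) (um d s) x

theorem V_repr (e : HilbertBasis ι ℂ H) (d : ι → ℝ) (s : ℝ) (x : H) (k : ι) :
    e.repr (V e d s x) k = cexp ((s * d k : ℝ) * I) * e.repr x k := dg_repr _ _ _ _ _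

theorem V_cont (e : HilbertBasis ι ℂ H) (d : ι → ℝ) :
    Continuous (fun p : ℝ × H => V e d p.1 p.2) := by
  rw [continuous_iff_continuousAt]
  rintro ⟨s, y⟩
  have key : Continuous (fun s' : ℝ => ‖V e d s' y - V e d s y‖ ^ 2) := by
    have : (fun s' : ℝ => ‖V e d s' y - V e d s y‖ ^ 2) =
        fun s' => ∑' k, ‖(cexp ((s' * d k : ℝ) * I) - cexp ((s * d k : ℝ) * I)) *
          e.repr y k‖ ^ 2 := by
      funext s'
      rw [← (hs_norm e _).tsum_eq]
      congr 1
      funext k
      rw [map_sub, lp.coeFn_sub, Pi.sub_apply, V_repr, V_repr, sub_mul]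
    rw [this]
    refine continuous_tsum (u := fun k => 4 * ‖e.repr y k‖ ^ 2) (fun k => ?_)
      ((hs_norm e y).summable.mul_left 4) (fun k s' => ?_)
    · fun_prop
    · rw [Real.norm_of_nonneg (by positivity), norm_mul, mul_pow]
      have : ‖cexp ((s' * d k : ℝ) * I) - cexp ((s * d k : ℝ) * I)‖ ≤ 2 := by
        refine (norm_sub_le _ _).trans ?_
        rw [um, um]; norm_num
      have h0 := norm_nonneg (cexp ((s' * d k : ℝ) * I) - cexp ((s * d k : ℝ) * I))
      have : ‖cexp ((s' * d k : ℝ) * I) - cexp ((s * d k : ℝ) * I)‖ ^ 2 ≤ 4 := by nlinarith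
      exact mul_le_mul_of_nonneg_right this (by positivity)
  have h0 : Tendsto (fun s' : ℝ => ‖V e d s' y - V e d s y‖) (𝓝 s) (𝓝 0) := by
    have h1 := (key.tendsto s)
    simp only [sub_self, norm_zero, ne_eq, OfNat.ofNat_ne_zero, not_false_eq_true,
      zero_pow] at h1
    have h2 := (Real.continuous_sqrt.tendsto 0).comp h1
    rw [Real.sqrt_zero] at h2
    refine h2.congr fun s' => ?_
    simp only [Function.comp_apply]
    rw [Real.sqrt_sq (norm_nonneg _)]
  unfold ContinuousAt
  rw [tendsto_iff_norm_sub_tendsto_zero]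
  have h1 : Tendsto (fun p : ℝ × H => ‖p.2 - y‖ + ‖V e d p.1 y - V e d s y‖) (𝓝 (s, y))
      (𝓝 (0 + 0)) := by
    refine Tendsto.add ?_ ?_
    · have : Continuous fun p : ℝ × H => ‖p.2 - y‖ := by fun_prop
      simpa using this.tendsto (s, y)
    · exact h0.comp (continuous_fst.tendsto (s, y))
  rw [add_zero] at h1
  refine squeeze_zero (fun _ => norm_nonneg _) (fun p => ?_) h1
  have : V e d p.1 p.2 - V e d s y = (V e d p.1 p.2 - V e d p.1 y) + (V e d p.1 y - V e d s y) := by
    abel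
  rw [this]
  refine (norm_add_le _ _).trans ?_
  have h3 : V e d p.1 p.2 - V e d p.1 y = V e d p.1 (p.2 - y) := (dg_sub _ _ _ _ _).symm
  rw [h3]
  have h4 : ‖V e d p.1 (p.2 - y)‖ = ‖p.2 - y‖ := dg_norm _ _ _ _
  rw [h4]

end diag

section ode
variable {X : Type} [NormedAddCommGroup X] [NormedSpace ℝ X] [CompleteSpace X]

/-- global solutions of a linear integral equation on the half line -/
theorem glob (K : ℝ → X → X) (M : ℝ) (hM : 0 ≤ M) (hK0 : ∀ s, K s 0 = 0)
    (hL : ∀ s x y, ‖K s x - K s y‖ ≤ M * ‖x - y‖)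
    (hc : Continuous (fun p : ℝ × X => K p.1 p.2)) (x0 : X) :
    ∃ Y : ℝ → X, Continuous Y ∧ Y 0 = x0 ∧ ∀ t, 0 ≤ t → HasDerivWithinAt Y (K t (Y t)) (Ici 0) t := by
  set L : ℝ := 2 * M + 1 with hLdef
  have hL0 : 0 < L := by positivity
  have hn : ∀ s x, ‖K s x‖ ≤ M * ‖x‖ := fun s x => by
    have := hL s x 0
    rwa [hK0, sub_zero, sub_zero] at this
  -- integral of the exponential
  have hexp : ∀ τ : ℝ, ∫ s in (0 : ℝ)..τ, Real.exp (L * s) = (Real.exp (L * τ) - 1) / L := by
    intro τ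
    rw [intervalIntegral.integral_comp_mul_left (fun x => Real.exp x) hL0.ne', integral_exp]
    simp only [mul_zero, Real.exp_zero, smul_eq_mul]
    field_simp
  let Gf : (ℝ → X) → ℝ → X := fun Z t => x0 + ∫ s in (0 : ℝ)..(max t 0),
    K s (Real.exp (L * s) • Z s)
  have hint : ∀ Z : ℝ → X, Continuous Z → Continuous fun s => K s (Real.exp (L * s) • Z s) := by
    intro Z hZ
    have h1 : Continuous fun s : ℝ => ((s, Real.exp (L * s) • Z s) : ℝ × X) := by fun_prop
    exact hc.comp h1
  have hGc : ∀ Z : ℝ → X, Continuous Z → Continuous (Gf Z) := by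
    intro Z hZ
    have h1 : Continuous fun t => ∫ s in (0 : ℝ)..t, K s (Real.exp (L * s) • Z s) :=
      intervalIntegral.continuous_primitive (fun a b => (hint Z hZ).intervalIntegrable a b) 0
    exact continuous_const.add (h1.comp (by fun_prop))
  have hbd : ∀ (Z W : ℝ → X) (C : ℝ), Continuous Z → Continuous W → (∀ s, ‖Z s - W s‖ ≤ C) →
      ∀ t, ‖Real.exp (-(L * max t 0)) • Gf Z t - Real.exp (-(L * max t 0)) • Gf W t‖ ≤ 1 / 2 * C := by
    intro Z W C hZ hW hC t
    have hC0 : 0 ≤ C := (norm_nonneg _).trans (hC 0)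
    have hτ : (0 : ℝ) ≤ max t 0 := le_max_right _ _
    rw [← smul_sub, norm_smul, Real.norm_of_nonneg (Real.exp_nonneg _)]
    have e1 : Gf Z t - Gf W t = ∫ s in (0 : ℝ)..(max t 0),
        (K s (Real.exp (L * s) • Z s) - K s (Real.exp (L * s) • W s)) := by
      rw [intervalIntegral.integral_sub ((hint Z hZ).intervalIntegrable _ _)
        ((hint W hW).intervalIntegrable _ _)]
      simp only [Gf]
      abel
    rw [e1]
    have e2 : ‖∫ s in (0 : ℝ)..(max t 0),
        (K s (Real.exp (L * s) • Z s) - K s (Real.exp (L * s) • W s))‖ ≤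
        ∫ s in (0 : ℝ)..(max t 0), M * C * Real.exp (L * s) := by
      refine intervalIntegral.norm_integral_le_of_norm_le hτ ?_ ?_
      · refine Filter.Eventually.of_forall fun s _ => ?_
        refine (hL _ _ _).trans ?_
        rw [← smul_sub, norm_smul, Real.norm_of_nonneg (Real.exp_nonneg _)]
        have := mul_le_mul_of_nonneg_left (hC s) (mul_nonneg hM (Real.exp_nonneg (L * s)))
        linarith
      · exact (by fun_prop : Continuous fun s : ℝ => M * C * Real.exp (L * s)).intervalIntegrable _ _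
    rw [intervalIntegral.integral_const_mul, hexp] at e2
    calc Real.exp (-(L * max t 0)) * ‖∫ s in (0 : ℝ)..(max t 0),
          (K s (Real.exp (L * s) • Z s) - K s (Real.exp (L * s) • W s))‖
        ≤ Real.exp (-(L * max t 0)) * (M * C * ((Real.exp (L * max t 0) - 1) / L)) :=
          mul_le_mul_of_nonneg_left e2 (Real.exp_nonneg _)
      _ = M * C * ((1 - Real.exp (-(L * max t 0))) / L) := by
          have : Real.exp (-(L * max t 0)) * Real.exp (L * max t 0) = 1 := by
            rw [← Real.exp_add]; simp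
          field_simp
          linear_combination M * C * this
      _ ≤ M * C * (1 / L) := by
          have : (1 - Real.exp (-(L * max t 0))) / L ≤ 1 / L := by
            apply div_le_div_of_nonneg_right _ hL0.le
            have := Real.exp_nonneg (-(L * max t 0))
            linarith
          exact mul_le_mul_of_nonneg_left this (by positivity)
      _ ≤ 1 / 2 * C := by
          have : M * (1 / L) ≤ 1 / 2 := by
            rw [mul_one_div, div_le_div_iff₀ hL0 two_pos]; linarith
          nlinarith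
  have hzero : ∀ t, Gf 0 t = x0 := by
    intro t
    simp only [Gf, Pi.zero_apply, smul_zero, hK0, intervalIntegral.integral_zero, add_zero]
  have hexp1 : ∀ t : ℝ, Real.exp (-(L * max t 0)) ≤ 1 := fun t => by
    rw [Real.exp_le_one_iff]
    have : (0 : ℝ) ≤ max t 0 := le_max_right _ _
    nlinarith
  have hb : ∀ (Z : BoundedContinuousFunction ℝ X) (t : ℝ),
      ‖Real.exp (-(L * max t 0)) • Gf Z t‖ ≤ ‖x0‖ + 1 / 2 * ‖Z‖ := by
    intro Z t
    have h1 := hbd Z 0 ‖Z‖ Z.continuous continuous_zero (fun s => by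
      simpa using Z.norm_coe_le_norm s) t
    rw [hzero] at h1
    have h2 : ‖Real.exp (-(L * max t 0)) • x0‖ ≤ ‖x0‖ := by
      rw [norm_smul, Real.norm_of_nonneg (Real.exp_nonneg _)]
      have := mul_le_mul_of_nonneg_right (hexp1 t) (norm_nonneg x0)
      linarith
    have h3 : ‖Real.exp (-(L * max t 0)) • Gf Z t‖ ≤
        ‖Real.exp (-(L * max t 0)) • x0‖ +
        ‖Real.exp (-(L * max t 0)) • Gf Z t - Real.exp (-(L * max t 0)) • x0‖ := by
      have := norm_add_le (Real.exp (-(L * max t 0)) • x0)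
        (Real.exp (-(L * max t 0)) • Gf Z t - Real.exp (-(L * max t 0)) • x0)
      rwa [add_sub_cancel] at this
    linarith
  let Φ : BoundedContinuousFunction ℝ X → BoundedContinuousFunction ℝ X := fun Z =>
    BoundedContinuousFunction.ofNormedAddCommGroup (fun t => Real.exp (-(L * max t 0)) • Gf Z t)
      (by have := hGc Z Z.continuous; fun_prop) (‖x0‖ + 1 / 2 * ‖Z‖) (hb Z)
  have hΦ : ContractingWith (1 / 2) Φ := by
    refine ⟨by
      rw [← NNReal.coe_lt_coe]; norm_num, LipschitzWith.of_dist_le_mul fun Z W => ?_⟩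
    rw [BoundedContinuousFunction.dist_le (by positivity)]
    intro t
    rw [dist_eq_norm]
    have := hbd Z W (dist Z W) Z.continuous W.continuous (fun s => by
      rw [← dist_eq_norm]; exact BoundedContinuousFunction.dist_coe_le_dist s) t
    simpa [Φ] using this
  obtain ⟨Z, hZ⟩ : ∃ Z, Φ Z = Z := ⟨_, hΦ.fixedPoint_isFixedPt⟩
  have hZt : ∀ t, Z t = Real.exp (-(L * max t 0)) • Gf Z t := fun t => by
    conv_lhs => rw [← hZ]
    rfl
  have hGZ : ∀ t, 0 ≤ t → Real.exp (L * t) • Z t = Gf Z t := fun t ht => by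
    rw [hZt t, max_eq_left ht, smul_smul, ← Real.exp_add]
    simp
  refine ⟨Gf Z, hGc Z Z.continuous, ?_, ?_⟩
  · simp only [Gf, max_self, intervalIntegral.integral_same, add_zero]
  · intro t ht
    have h1 : HasDerivAt (fun t => x0 + ∫ s in (0 : ℝ)..t, K s (Real.exp (L * s) • Z s))
        (K t (Real.exp (L * t) • Z t)) t := by
      have := (hint Z Z.continuous).integral_hasStrictDerivAt 0 t
      exact (this.hasDerivAt).const_add x0
    rw [hGZ t ht] at h1
    refine h1.hasDerivWithinAt.congr (fun s hs => ?_) ?_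
    · simp only [Gf]
      rw [max_eq_left hs]
    · simp only [Gf]
      rw [max_eq_left ht]

end ode

section main
variable {ι H : Type} [NormedAddCommGroup H] [InnerProductSpace ℂ H] [CompleteSpace H]

/-- coordinate functional as a real-linear continuous map -/
noncomputable def crd (e : HilbertBasis ι ℂ H) (k : ι) : H →L[ℝ] ℂ :=
  (innerSL ℂ (e k)).restrictScalars ℝ

omit [CompleteSpace H] in
theorem crd_apply (e : HilbertBasis ι ℂ H) (k : ι) (x : H) : crd e k x = e.repr x k := by
  rw [e.repr_apply_apply]; rfl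

theorem V_norm (e : HilbertBasis ι ℂ H) (d : ι → ℝ) (s : ℝ) (x : H) : ‖V e d s x‖ = ‖x‖ :=
  dg_norm _ _ _ _

theorem V_sub (e : HilbertBasis ι ℂ H) (d : ι → ℝ) (s : ℝ) (x y : H) :
    V e d s (x - y) = V e d s x - V e d s y := dg_sub _ _ _ _ _

theorem V_zero (e : HilbertBasis ι ℂ H) (d : ι → ℝ) (s : ℝ) : V e d s 0 = 0 := by
  rw [← norm_eq_zero, V_norm, norm_zero]

/-- weak solutions -/
theorem weak (e : HilbertBasis ι ℂ H) (d : ι → ℝ) (D : H →L[ℂ] H) (a0 w0 : H) :
    ∃ a w : ℝ → H, Continuous a ∧ Continuous w ∧ a 0 = a0 ∧ w 0 = w0 ∧ ∀ t, 0 ≤ t → ∀ k,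
      HasDerivWithinAt (fun t => e.repr (a t) k) ((d k : ℂ) * e.repr (w t) k) (Ici 0) t ∧
      HasDerivWithinAt (fun t => e.repr (w t) k)
        (-((d k : ℂ) * e.repr (a t) k) - e.repr (D (w t)) k) (Ici 0) t := by
  let K : ℝ → H × H → H × H := fun s y =>
    (V e d s ((-(1 / 2 : ℂ)) • D (V e d (-s) y.1 - V e d s y.2)),
      V e d (-s) ((1 / 2 : ℂ) • D (V e d (-s) y.1 - V e d s y.2)))
  have hVc : ∀ {Y : Type} [TopologicalSpace Y] (f : Y → ℝ) (g : Y → H), Continuous f →
      Continuous g → Continuous fun y => V e d (f y) (g y) := by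
    intro Y _ f g hf hg
    exact (V_cont e d).comp (hf.prodMk hg)
  have hKc : Continuous fun p : ℝ × (H × H) => K p.1 p.2 := by
    have h1 : Continuous fun p : ℝ × (H × H) => V e d (-p.1) p.2.1 - V e d p.1 p.2.2 :=
      (hVc _ _ (by fun_prop) (by fun_prop)).sub (hVc _ _ (by fun_prop) (by fun_prop))
    have h2 : Continuous fun p : ℝ × (H × H) => D (V e d (-p.1) p.2.1 - V e d p.1 p.2.2) :=
      D.continuous.comp h1
    exact (hVc _ _ (by fun_prop) (h2.const_smul _)).prodMk
      (hVc _ _ (by fun_prop) (h2.const_smul _))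
  have hK0 : ∀ s, K s 0 = 0 := by
    intro s
    simp only [K, Prod.fst_zero, Prod.snd_zero, V_zero, sub_zero, map_zero, smul_zero]
    rfl
  have hKL : ∀ s x y, ‖K s x - K s y‖ ≤ ‖D‖ * ‖x - y‖ := by
    intro s x y
    have e0 : V e d (-s) x.1 - V e d s x.2 - (V e d (-s) y.1 - V e d s y.2) =
        V e d (-s) (x.1 - y.1) - V e d s (x.2 - y.2) := by
      rw [V_sub, V_sub]; abel
    have e1 : ‖D (V e d (-s) x.1 - V e d s x.2) - D (V e d (-s) y.1 - V e d s y.2)‖ ≤
        2 * (‖D‖ * ‖x - y‖) := by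
      rw [← map_sub, e0]
      refine (D.le_opNorm _).trans ?_
      have h1 : ‖V e d (-s) (x.1 - y.1) - V e d s (x.2 - y.2)‖ ≤ 2 * ‖x - y‖ := by
        refine (norm_sub_le _ _).trans ?_
        rw [V_norm, V_norm]
        have := norm_fst_le (x - y)
        have := norm_snd_le (x - y)
        simp only [Prod.fst_sub, Prod.snd_sub] at *
        linarith
      have := mul_le_mul_of_nonneg_left h1 (norm_nonneg D)
      linarith
    rw [Prod.norm_def]
    apply max_le
    · simp only [K, Prod.fst_sub]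
      rw [← V_sub, V_norm, ← smul_sub, norm_smul]
      have : ‖(-(1 / 2 : ℂ))‖ = 1 / 2 := by rw [norm_neg]; norm_num
      rw [this]
      linarith
    · simp only [K, Prod.snd_sub]
      rw [← V_sub, V_norm, ← smul_sub, norm_smul]
      have : ‖((1 / 2 : ℂ))‖ = 1 / 2 := by norm_num
      rw [this]
      linarith
  obtain ⟨Y, hYc, hY0, hYd⟩ := glob K ‖D‖ (norm_nonneg _) hK0 hKL hKc
    ((a0 + I • w0, a0 - I • w0) : H × H)
  have hc1 : Continuous fun t => V e d (-t) (Y t).1 := hVc _ _ (by fun_prop) (by fun_prop)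
  have hc2 : Continuous fun t => V e d t (Y t).2 := hVc _ _ (by fun_prop) (by fun_prop)
  have hV0 : ∀ x, V e d 0 x = x := by
    intro x
    apply ext_repr e
    intro k
    rw [V_repr]
    simp
  refine ⟨fun t => (1 / 2 : ℂ) • (V e d (-t) (Y t).1 + V e d t (Y t).2),
    fun t => (-(1 / 2) * I : ℂ) • (V e d (-t) (Y t).1 - V e d t (Y t).2),
    (hc1.add hc2).const_smul _, (hc1.sub hc2).const_smul _, ?_, ?_, ?_⟩
  · simp only [neg_zero, hV0, hY0]
    module
  · simp only [neg_zero, hV0, hY0]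
    have : a0 + I • w0 - (a0 - I • w0) = (2 * I) • w0 := by module
    rw [this, smul_smul]
    have : (-(1 / 2) * I * (2 * I) : ℂ) = 1 := by
      linear_combination -Complex.I_sq
    rw [this, one_smul]
  · intro t ht k
    have hd := hYd t ht
    have hP : HasDerivWithinAt (fun t => e.repr (Y t).1 k) (e.repr (K t (Y t)).1 k) (Ici 0) t := by
      have h1 : HasDerivWithinAt (fun t => (Y t).1) (K t (Y t)).1 (Ici 0) t := hd.fst
      have := (crd e k).hasFDerivAt.comp_hasDerivWithinAt t h1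
      simpa only [Function.comp_def, crd_apply] using this
    have hQ : HasDerivWithinAt (fun t => e.repr (Y t).2 k) (e.repr (K t (Y t)).2 k) (Ici 0) t := by
      have h1 : HasDerivWithinAt (fun t => (Y t).2) (K t (Y t)).2 (Ici 0) t := hd.snd
      have := (crd e k).hasFDerivAt.comp_hasDerivWithinAt t h1
      simpa only [Function.comp_def, crd_apply] using this
    have hE : ∀ s : ℝ, HasDerivAt (fun t : ℝ => cexp ((t * d k : ℝ) * I))
        (cexp ((s * d k : ℝ) * I) * ((d k : ℝ) * I)) s := by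
      intro s
      have h1 : HasDerivAt (fun t : ℝ => ((t * d k : ℝ) : ℂ) * I) ((d k : ℝ) * I) s := by
        have : HasDerivAt (fun t : ℝ => t * d k) (d k) s := by
          simpa using (hasDerivAt_id s).mul_const (d k)
        exact (this.ofReal_comp).mul_const I
      exact h1.cexp
    have hE' : ∀ s : ℝ, HasDerivAt (fun t : ℝ => cexp ((-t * d k : ℝ) * I))
        (-(cexp ((-s * d k : ℝ) * I) * ((d k : ℝ) * I))) s := by
      intro s
      have := (hE (-s)).scomp s (hasDerivAt_neg s)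
      simpa [Function.comp_def] using this
    have hp : HasDerivWithinAt (fun t => e.repr (V e d (-t) (Y t).1) k)
        (-(cexp ((-t * d k : ℝ) * I) * ((d k : ℝ) * I)) * e.repr (Y t).1 k +
          cexp ((-t * d k : ℝ) * I) * e.repr (K t (Y t)).1 k) (Ici 0) t := by
      have := ((hE' t).hasDerivWithinAt (s := Ici 0)).fun_mul hP
      refine this.congr_deriv rfl |>.congr (fun s _ => V_repr _ _ _ _ _) (V_repr _ _ _ _ _)
    have hq : HasDerivWithinAt (fun t => e.repr (V e d t (Y t).2) k)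
        ((cexp ((t * d k : ℝ) * I) * ((d k : ℝ) * I)) * e.repr (Y t).2 k +
          cexp ((t * d k : ℝ) * I) * e.repr (K t (Y t)).2 k) (Ici 0) t := by
      have := ((hE t).hasDerivWithinAt (s := Ici 0)).fun_mul hQ
      refine this.congr_deriv rfl |>.congr (fun s _ => V_repr _ _ _ _ _) (V_repr _ _ _ _ _)
    have hee : cexp ((-t * d k : ℝ) * I) * cexp ((t * d k : ℝ) * I) = 1 := by
      rw [← Complex.exp_add]
      have : ((-t * d k : ℝ) : ℂ) * I + ((t * d k : ℝ) : ℂ) * I = 0 := by push_cast; ring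
      rw [this, Complex.exp_zero]
    set δ := e.repr (D (V e d (-t) (Y t).1 - V e d t (Y t).2)) k with hδ
    have hK1 : cexp ((-t * d k : ℝ) * I) * e.repr (K t (Y t)).1 k = -(1 / 2) * δ := by
      simp only [K]
      rw [V_repr, map_smul, lp.coeFn_smul, Pi.smul_apply, smul_eq_mul, ← hδ]
      linear_combination (-(1 / 2) * δ) * hee
    have hK2 : cexp ((t * d k : ℝ) * I) * e.repr (K t (Y t)).2 k = (1 / 2) * δ := by
      simp only [K]
      rw [V_repr, map_smul, lp.coeFn_smul, Pi.smul_apply, smul_eq_mul, ← hδ]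
      linear_combination ((1 / 2) * δ) * hee
    rw [hK1] at hp
    rw [hK2] at hq
    have hvp : e.repr (V e d (-t) (Y t).1) k = cexp ((-t * d k : ℝ) * I) * e.repr (Y t).1 k :=
      V_repr _ _ _ _ _
    have hvq : e.repr (V e d t (Y t).2) k = cexp ((t * d k : ℝ) * I) * e.repr (Y t).2 k :=
      V_repr _ _ _ _ _
    constructor
    · have := (hp.fun_add hq).const_mul (1 / 2 : ℂ)
      refine (this.congr_deriv ?_).congr (fun s _ => ?_) ?_
      · rw [map_smul, map_sub, lp.coeFn_smul, Pi.smul_apply, lp.coeFn_sub, Pi.sub_apply,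
          hvp, hvq, smul_eq_mul]
        ring
      · rw [map_smul, map_add, lp.coeFn_smul, Pi.smul_apply, lp.coeFn_add, Pi.add_apply,
          smul_eq_mul]
      · rw [map_smul, map_add, lp.coeFn_smul, Pi.smul_apply, lp.coeFn_add, Pi.add_apply,
          smul_eq_mul]
    · have := (hp.fun_sub hq).const_mul (-(1 / 2) * I : ℂ)
      refine (this.congr_deriv ?_).congr (fun s _ => ?_) ?_
      · rw [map_smul, map_smul, map_smul, map_add, lp.coeFn_smul, Pi.smul_apply, lp.coeFn_smul,
          Pi.smul_apply, lp.coeFn_add, Pi.add_apply, hvp, hvq, smul_eq_mul, smul_eq_mul, ← hδ]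
        linear_combination (1 / 2 * (d k : ℂ) * (cexp ((-t * d k : ℝ) * I) * e.repr (Y t).1 k +
          cexp ((t * d k : ℝ) * I) * e.repr (Y t).2 k)) * Complex.I_sq
      · rw [map_smul, map_sub, lp.coeFn_smul, Pi.smul_apply, lp.coeFn_sub, Pi.sub_apply,
          smul_eq_mul]
      · rw [map_smul, map_sub, lp.coeFn_smul, Pi.smul_apply, lp.coeFn_sub, Pi.sub_apply,
          smul_eq_mul]

end main

theorem main : TaskExist := by
  intro ι H _ _ _ e d D a0 w0 g h hh hg
  obtain ⟨a₁, w₁, ca, cw, ha0, hw0, hd⟩ := weak e d D h (-g - D w0)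
  have hFa : ∀ t, HasDerivAt (fun t => a0 + ∫ s in (0 : ℝ)..t, a₁ s) (a₁ t) t := fun t =>
    ((ca.integral_hasStrictDerivAt 0 t).hasDerivAt).const_add a0
  have hFw : ∀ t, HasDerivAt (fun t => w0 + ∫ s in (0 : ℝ)..t, w₁ s) (w₁ t) t := fun t =>
    ((cw.integral_hasStrictDerivAt 0 t).hasDerivAt).const_add w0
  set a : ℝ → H := fun t => a0 + ∫ s in (0 : ℝ)..t, a₁ s with ha
  set w : ℝ → H := fun t => w0 + ∫ s in (0 : ℝ)..t, w₁ s with hw
  have ha_0 : a 0 = a0 := by simp [ha]
  have hw_0 : w 0 = w0 := by simp [hw]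
  have hconst : ∀ f : ℝ → ℂ, (∀ t, 0 ≤ t → HasDerivWithinAt f 0 (Ici 0) t) → ∀ t, 0 ≤ t →
      f t = f 0 := by
    intro f hf t ht
    refine constant_of_has_deriv_right_zero (a := 0) (b := t) ?_ ?_ t ⟨ht, le_rfl⟩
    · intro s hs
      exact ((hf s hs.1).continuousWithinAt).mono Icc_subset_Ici_self
    · intro s hs
      exact (hf s hs.1).mono (Ici_subset_Ici.2 hs.1)
  have hck : ∀ (f : ℝ → H) (f' : H) (t : ℝ) (k : ι), HasDerivAt f f' t →
      HasDerivWithinAt (fun t => e.repr (f t) k) (e.repr f' k) (Ici 0) t := by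
    intro f f' t k hf
    have := (crd e k).hasFDerivAt.comp_hasDerivWithinAt t (hf.hasDerivWithinAt (s := Ici 0))
    simpa only [Function.comp_def, crd_apply] using this
  have hDw : ∀ t, HasDerivAt (fun t => D (w t)) (D (w₁ t)) t := fun t =>
    (D.restrictScalars ℝ).hasFDerivAt.comp_hasDerivAt t (hFw t)
  refine ⟨a, w, a₁, w₁, ⟨fun t _ => (hFa t).hasDerivWithinAt, fun t _ =>
    (hFw t).hasDerivWithinAt, ca.continuousOn, cw.continuousOn, fun t ht k => ?_,
    fun t ht k => ?_⟩, ha_0, hw_0⟩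
  · have h1 := hconst (fun t => e.repr (a₁ t) k - (d k : ℂ) * e.repr (w t) k) (fun s hs => by
      have := ((hd s hs k).1).fun_sub ((hck w _ s k (hFw s)).const_mul (d k : ℂ))
      refine this.congr_deriv ?_
      ring) t ht
    have h2 := hh k
    simp only [ha0, hw_0] at h1
    rw [h2, sub_self] at h1
    linear_combination h1
  · have h1 := hconst (fun t => e.repr (w₁ t) k + e.repr (D (w t)) k +
        (d k : ℂ) * e.repr (a t) k) (fun s hs => by
      have := (((hd s hs k).2).fun_add (hck _ _ s k (hDw s))).fun_add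
        ((hck a _ s k (hFa s)).const_mul (d k : ℂ))
      refine this.congr_deriv ?_
      ring) t ht
    have h2 := hg k
    simp only [ha_0, hw_0, hw0] at h1
    rw [map_sub, map_neg, lp.coeFn_sub, Pi.sub_apply, lp.coeFn_neg, Pi.neg_apply, h2] at h1
    rw [map_sub, map_neg, lp.coeFn_sub, Pi.sub_apply, lp.coeFn_neg, Pi.neg_apply]
    linear_combination -h1

end Pool.Agent.W424.ER4
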