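import Pool.Agent.W424.ER2

/-!
Solutions starting at a quasi-mode stay large for a long time.
-/

set_option autoImplicit false

open MeasureTheory Complex Filter Topology Set
open scoped ENNReal Real

namespace Pool.Agent.W424.ER6

open Pool.Agent.W805.ER Pool.Agent.W424.ER2

theorem main : TaskLower := by
  intro ι H _ _ _ e d D hD a w a₁ w₁ h τ u su g hsu hg ha0 hw0 t ht
  set f : H := g - ((τ ^ 2 : ℝ) : ℂ) • u + ((τ : ℂ) * I) • D u with hf
  -- the exponential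
  set E : ℝ → ℂ := fun t => cexp (((τ : ℂ) * I) * t) with hE
  have hEn : ∀ t, ‖E t‖ = 1 := by
    intro t
    simp only [hE]
    rw [show ((τ : ℂ) * I) * (t : ℂ) = ((τ * t : ℝ) : ℂ) * I by push_cast; ring,
      Complex.norm_exp_ofReal_mul_I]
  have hEd : ∀ t (s : Set ℝ), HasDerivWithinAt E (((τ : ℂ) * I) * E t) s t := by
    intro t s
    have h1 : HasDerivAt (fun t : ℝ => ((τ : ℂ) * I) * (t : ℂ)) ((τ : ℂ) * I) t := by
      have := (Complex.ofRealCLM.hasDerivAt (x := t)).const_mul ((τ : ℂ) * I)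
      simpa using this
    have h2 := h1.cexp
    have h3 : cexp (((τ : ℂ) * I) * t) * ((τ : ℂ) * I) = ((τ : ℂ) * I) * E t := by
      simp only [hE]; ring
    rw [h3] at h2
    exact h2.hasDerivWithinAt
  have hE0 : E 0 = 1 := by simp [hE]
  have hsug : Mult e d su g := by
    intro k
    rw [hg k, hsu k]; push_cast; ring
  set R1 : ℝ → H := fun t => a t - E t • su with hR1
  set R2 : ℝ → H := fun t => w t - E t • (((τ : ℂ) * I) • u) with hR2
  have hR1d : ∀ t, 0 ≤ t → HasDerivWithinAt R1 (a₁ t - (((τ : ℂ) * I) * E t) • su) (Ici 0) t :=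
    fun t ht => (h.ha t ht).fun_sub ((hEd t _).smul_const su)
  have hR2d : ∀ t, 0 ≤ t → HasDerivWithinAt R2
      (w₁ t - (((τ : ℂ) * I) * E t) • (((τ : ℂ) * I) • u)) (Ici 0) t :=
    fun t ht => (h.hw t ht).fun_sub ((hEd t _).smul_const _)
  have hI : (τ : ℂ) * I * ((τ : ℂ) * I) = -((τ ^ 2 : ℝ) : ℂ) := by
    push_cast
    linear_combination (τ : ℂ) ^ 2 * Complex.I_sq
  have hN : ∀ t, 0 ≤ t → HasDerivWithinAt (fun t => ‖R1 t‖ ^ 2 + ‖R2 t‖ ^ 2)
      (-2 * (inner ℂ (R2 t) (D (R2 t))).re - 2 * (inner ℂ (R2 t) (E t • f)).re) (Ici 0) t := by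
    intro t ht
    have h3 := (norm_sq_deriv (hR1d t ht)).fun_add (norm_sq_deriv (hR2d t ht))
    set S : H := (-(w₁ t) - D (w t)) - E t • g with hS
    have m1 : Mult e d (R2 t) (a₁ t - (((τ : ℂ) * I) * E t) • su) := by
      refine mult_sub (h.ga t ht) ?_
      have e : E t • (((τ : ℂ) * I) • u) = (((τ : ℂ) * I) * E t) • u := by
        rw [smul_smul, mul_comm]
      rw [e]
      exact mult_smul hsu ((((τ : ℂ) * I) * E t))
    have m2 : Mult e d (R1 t) S := mult_sub (h.gw t ht) (mult_smul hsug (E t))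
    have h4 := mult_sym m1 m2
    have h5 : w₁ t - (((τ : ℂ) * I) * E t) • (((τ : ℂ) * I) • u) =
        -S - D (R2 t) - E t • f := by
      simp only [hS, hR2, hf, map_sub, map_smul, smul_add, smul_sub, smul_smul]
      rw [show (τ : ℂ) * I * E t * ((τ : ℂ) * I) = -(E t * ((τ ^ 2 : ℝ) : ℂ)) by
        rw [show (τ : ℂ) * I * E t * ((τ : ℂ) * I) = E t * ((τ : ℂ) * I * ((τ : ℂ) * I)) by ring,
          hI]; ring]
      rw [neg_smul]
      abel
    have e4 : (inner ℂ S (R2 t)).re = (inner ℂ (R2 t) S).re := by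
      rw [← inner_conj_symm, Complex.conj_re]
    have e6 : 2 * (inner ℂ (R1 t) (a₁ t - (((τ : ℂ) * I) * E t) • su)).re +
        2 * (inner ℂ (R2 t) (w₁ t - (((τ : ℂ) * I) * E t) • (((τ : ℂ) * I) • u))).re =
        -2 * (inner ℂ (R2 t) (D (R2 t))).re - 2 * (inner ℂ (R2 t) (E t • f)).re := by
      rw [h4, h5, inner_sub_right (R2 t) (-S - D (R2 t)), inner_sub_right (R2 t) (-S),
        inner_neg_right (R2 t) S, Complex.sub_re, Complex.sub_re, Complex.neg_re, e4]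
      ring
    rw [e6] at h3
    exact h3
  have hf0 : 0 ≤ ‖f‖ := norm_nonneg f
  -- the bound of the remainder
  have key : ∀ ε : ℝ, 0 < ε → ∀ t, 0 ≤ t →
      Real.sqrt (‖R1 t‖ ^ 2 + ‖R2 t‖ ^ 2 + ε) ≤ Real.sqrt ε + t * ‖f‖ := by
    intro ε hε
    have hpos : ∀ t, 0 < ‖R1 t‖ ^ 2 + ‖R2 t‖ ^ 2 + ε := fun t => by positivity
    have hd : ∀ t, 0 ≤ t → HasDerivWithinAt
        (fun t => Real.sqrt (‖R1 t‖ ^ 2 + ‖R2 t‖ ^ 2 + ε) - t * ‖f‖)
        ((-2 * (inner ℂ (R2 t) (D (R2 t))).re - 2 * (inner ℂ (R2 t) (E t • f)).re) /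
          (2 * Real.sqrt (‖R1 t‖ ^ 2 + ‖R2 t‖ ^ 2 + ε)) - 1 * ‖f‖) (Ici 0) t := by
      intro t ht
      exact (((hN t ht).add_const ε).sqrt (hpos t).ne').fun_sub
        (((hasDerivAt_id t).mul_const ‖f‖).hasDerivWithinAt)
    have hanti : AntitoneOn (fun t => Real.sqrt (‖R1 t‖ ^ 2 + ‖R2 t‖ ^ 2 + ε) - t * ‖f‖) (Ici 0) := by
      refine antitoneOn_of_hasDerivWithinAt_nonpos (convex_Ici 0)
        (f' := fun t => (-2 * (inner ℂ (R2 t) (D (R2 t))).re - 2 * (inner ℂ (R2 t) (E t • f)).re) /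
          (2 * Real.sqrt (‖R1 t‖ ^ 2 + ‖R2 t‖ ^ 2 + ε)) - 1 * ‖f‖) ?_ ?_ ?_
      · exact fun t ht => (hd t ht).continuousWithinAt
      · exact fun t ht => (hd t (interior_subset ht)).mono interior_subset
      · intro t _
        have hs : 0 < Real.sqrt (‖R1 t‖ ^ 2 + ‖R2 t‖ ^ 2 + ε) := Real.sqrt_pos.2 (hpos t)
        have h1 := hD (R2 t)
        have h2 : |(inner ℂ (R2 t) (E t • f)).re| ≤ ‖R2 t‖ * ‖f‖ := by
          refine (Complex.abs_re_le_norm _).trans ((norm_inner_le_norm _ _).trans ?_)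
          rw [norm_smul, hEn, one_mul]
        have h3 : ‖R2 t‖ ≤ Real.sqrt (‖R1 t‖ ^ 2 + ‖R2 t‖ ^ 2 + ε) := by
          apply Real.le_sqrt_of_sq_le
          nlinarith [sq_nonneg ‖R1 t‖]
        rw [sub_nonpos, div_le_iff₀ (by positivity)]
        have h4 := (abs_le.1 h2).1
        nlinarith [mul_le_mul_of_nonneg_right h3 hf0]
    intro t ht
    have h1 := hanti (mem_Ici.2 le_rfl) (mem_Ici.2 ht) ht
    simp only at h1
    have h2 : R1 0 = 0 := by simp [hR1, hE0, ha0]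
    have h3 : R2 0 = 0 := by simp [hR2, hE0, hw0]
    rw [h2, h3] at h1
    simp at h1
    linarith
  have hR2t : ‖R2 t‖ ≤ t * ‖f‖ := by
    have h1 : ∀ ε : ℝ, 0 < ε → ‖R2 t‖ ≤ t * ‖f‖ + ε := by
      intro ε hε
      have h2 := key (ε ^ 2) (by positivity) t ht
      rw [Real.sqrt_sq hε.le] at h2
      have h3 : ‖R2 t‖ ≤ Real.sqrt (‖R1 t‖ ^ 2 + ‖R2 t‖ ^ 2 + ε ^ 2) := by
        apply Real.le_sqrt_of_sq_le
        nlinarith [sq_nonneg ‖R1 t‖, sq_nonneg ε]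
      linarith
    exact le_of_forall_pos_le_add h1
  have h1 : |τ| * ‖u‖ = ‖E t • (((τ : ℂ) * I) • u)‖ := by
    rw [norm_smul, norm_smul, hEn, norm_mul, Complex.norm_I, Complex.norm_real, Real.norm_eq_abs]
    ring
  have h2 : ‖E t • (((τ : ℂ) * I) • u)‖ ≤ ‖w t‖ + ‖R2 t‖ := by
    have : E t • (((τ : ℂ) * I) • u) = w t - R2 t := by simp [hR2]
    rw [this]
    exact norm_sub_le _ _
  have h3 : ‖w t‖ ≤ Real.sqrt (‖a t‖ ^ 2 + ‖w t‖ ^ 2) := by
    apply Real.le_sqrt_of_sq_le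
    nlinarith [sq_nonneg ‖a t‖]
  rw [h1]
  linarith

end Pool.Agent.W424.ER6
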